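import Mathlib

/-!
# Quotient stacks, good moduli spaces, special groups and arcs

Definitions used for `MP_d9eb96_ag`.  Everything is phrased with commutative rings: an affine scheme
over `K` is given by its ring of functions, a commutative `K`-algebra, and a (group) scheme by its
functor of points on commutative algebras.  A quotient stack `[Spec A / G]` is given by a group
functor `G` and an action of `G` on `Spec A`; its objects over `Spec R` are `G`-torsors over
`Spec R` with an equivariant map to `Spec A`.
-/

set_option linter.all false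

namespace Pool.Agent.Hhelper17.Lift

open scoped TensorProduct

universe u

/-! ### Algebras -/

/-- A commutative algebra over the commutative ring `K`. -/
structure CAlg (K : Type u) [CommRing K] where
  /-- the underlying ring -/
  carrier : Type u
  [ring : CommRing carrier]
  [algebra : Algebra K carrier]

attribute [instance] CAlg.ring CAlg.algebra

instance (K : Type u) [CommRing K] : CoeSort (CAlg K) (Type u) := ⟨CAlg.carrier⟩

section algebras

variable {K : Type u} [CommRing K]

/-- The homomorphisms of `K`-algebras `S → T`, i.e. the `T`-points of `Spec S`. -/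
abbrev CAlg.Hom (S T : CAlg K) : Type u := S →ₐ[K] T

/-- The composition of `e : S → T` and `f : T → U`. -/
def CAlg.comp {S T U : CAlg K} (f : T.Hom U) (e : S.Hom T) : S.Hom U := AlgHom.comp f e

/-- An algebra over the `K`-algebra `R`, considered as a `K`-algebra. -/
abbrev CAlg.res (R : CAlg K) (S : CAlg R) : CAlg K where
  carrier := S
  algebra := Algebra.compHom S (algebraMap K R)

instance (R : CAlg K) (S : CAlg R) : Algebra R (R.res S) := S.algebra

instance (R : CAlg K) (S : CAlg R) : IsScalarTower K R (R.res S) :=
  IsScalarTower.of_algebraMap_eq fun _ => rfl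

/-- A homomorphism of `R`-algebras, considered as a homomorphism of `K`-algebras. -/
def CAlg.resHom (R : CAlg K) {S T : CAlg R} (f : S.Hom T) : (R.res S).Hom (R.res T) :=
  AlgHom.restrictScalars K (S := R) (A := R.res S) (B := R.res T) f

/-- The structure map `R → S` of an `R`-algebra, as a homomorphism of `K`-algebras. -/
def CAlg.str (R : CAlg K) (S : CAlg R) : R.Hom (R.res S) := IsScalarTower.toAlgHom K R (R.res S)

/-- The ring `S`, considered as an algebra over `A` by means of a map `x : A → S`. -/
def CAlg.over {A S : CAlg K} (x : A.Hom S) : CAlg A where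
  carrier := S
  algebra := x.toRingHom.toAlgebra

/-- A homomorphism `f : S → T`, considered as a homomorphism of `A`-algebras. -/
def CAlg.overHom {A S T : CAlg K} (x : A.Hom S) (f : S.Hom T) :
    (CAlg.over x).Hom (CAlg.over (CAlg.comp f x)) :=
  { f.toRingHom with commutes' := fun a => rfl }

end algebras

/-! ### Groups and torsors -/

/-- A functor from commutative `K`-algebras to groups. -/
structure GroupFunctor (K : Type u) [CommRing K] where
  /-- the group of `S`-points -/
  obj : CAlg K → Type u
  [group : ∀ S, Group (obj S)]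
  /-- functoriality -/
  map : ∀ S T : CAlg K, S.Hom T → obj S → obj T
  map_mul : ∀ (S T : CAlg K) (f : S.Hom T) (g h : obj S), map S T f (g * h) = map S T f g * map S T f h
  map_id : ∀ (S : CAlg K) (g : obj S), map S S (AlgHom.id K S) g = g
  map_comp : ∀ (S T U : CAlg K) (e : S.Hom T) (f : T.Hom U) (g : obj S),
    map S U (CAlg.comp f e) g = map T U f (map S T e g)

attribute [instance] GroupFunctor.group

section torsors

variable {K : Type u} [CommRing K]

/-- `G` is a linear algebraic group: it is represented by a finitely generated `K`-algebra. -/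
def GroupFunctor.IsLinearAlgebraic (G : GroupFunctor K) : Prop :=
  ∃ (H : CAlg K) (u : G.obj H), Algebra.FiniteType K H ∧
    ∀ S : CAlg K, Function.Bijective fun f : H.Hom S => G.map H S f u

/-- A (right) `G`-torsor over `Spec R`: a faithfully flat `R`-algebra `P` with a functorial right
action of `G(S)` on the set `P(S)` of `S`-points of `Spec P` for all `R`-algebras `S`, which is
simply transitive whenever `P(S)` is not empty. -/
structure Torsor (G : GroupFunctor K) (R : CAlg K) where
  /-- the algebra of functions of the torsor -/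
  P : CAlg R
  flat : Module.FaithfullyFlat R P
  /-- the action -/
  act : ∀ S : CAlg R, P.Hom S → G.obj (R.res S) → P.Hom S
  act_one : ∀ (S : CAlg R) (p : P.Hom S), act S p 1 = p
  act_mul : ∀ (S : CAlg R) (p : P.Hom S) (g h : G.obj (R.res S)),
    act S p (g * h) = act S (act S p g) h
  act_map : ∀ (S T : CAlg R) (f : S.Hom T) (p : P.Hom S) (g : G.obj (R.res S)),
    CAlg.comp f (act S p g) = act T (CAlg.comp f p) (G.map (R.res S) (R.res T) (R.resHom f) g)
  exists_unique : ∀ (S : CAlg R) (p q : P.Hom S), ∃! g : G.obj (R.res S), act S p g = q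

/-- A torsor over `Spec R` is Zariski locally trivial if `Spec R` is covered by basic open sets
`D(f)` over which the torsor has a section. -/
def Torsor.IsZariskiLocallyTrivial {G : GroupFunctor K} {R : CAlg K} (T : Torsor G R) : Prop :=
  ∃ s : Set R, Ideal.span s = ⊤ ∧ ∀ f ∈ s, Nonempty (T.P.Hom ⟨Localization.Away f⟩)

/-- A group `G` over `K` is special if every `G`-torsor is Zariski locally trivial. (It is enough
to test this for torsors over affine schemes.) -/
def GroupFunctor.IsSpecial (G : GroupFunctor K) : Prop :=
  ∀ (R : CAlg K) (T : Torsor G R), T.IsZariskiLocallyTrivial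

/-- A (left) action of `G` on the affine scheme `Spec A`. -/
structure GAction (G : GroupFunctor K) (A : CAlg K) where
  /-- the action on `S`-points -/
  act : ∀ S : CAlg K, G.obj S → A.Hom S → A.Hom S
  one_act : ∀ (S : CAlg K) (x : A.Hom S), act S 1 x = x
  mul_act : ∀ (S : CAlg K) (g h : G.obj S) (x : A.Hom S), act S (g * h) x = act S g (act S h x)
  map_act : ∀ (S T : CAlg K) (f : S.Hom T) (g : G.obj S) (x : A.Hom S),
    CAlg.comp f (act S g x) = act T (G.map S T f g) (CAlg.comp f x)

end torsors

/-! ### The quotient stack -/

section stack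

variable {k : Type u} [CommRing k] {G : GroupFunctor k} {A B : CAlg k}

/-- An object of the quotient stack `[Spec A / G]` over `Spec R`: a `G`-torsor with an equivariant
map to `Spec A`. (Torsors carry a right action and `Spec A` a left action, so equivariance means
`φ(p g) = g⁻¹ φ(p)`.) -/
structure Obj (X : GAction G A) (R : CAlg k) where
  /-- the torsor -/
  T : Torsor G R
  /-- the equivariant map, on functions -/
  φ : A.Hom (R.res T.P)
  equivariant : ∀ (S : CAlg R) (p : T.P.Hom S) (g : G.obj (R.res S)),
    CAlg.comp (R.resHom (T.act S p g)) φ = X.act (R.res S) g⁻¹ (CAlg.comp (R.resHom p) φ)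

/-- An isomorphism of objects of the quotient stack over `Spec R`. -/
structure ObjIso {X : GAction G A} {R : CAlg k} (ξ η : Obj X R) where
  /-- the isomorphism of torsors, on functions -/
  e : ξ.T.P.Hom η.T.P
  bijective : Function.Bijective e
  comp_act : ∀ (S : CAlg R) (p : η.T.P.Hom S) (g : G.obj (R.res S)),
    CAlg.comp (η.T.act S p g) e = ξ.T.act S (CAlg.comp p e) g
  comp_φ : CAlg.comp (R.resHom e) ξ.φ = η.φ

/-- Let `π : B → A` be the map on functions of an invariant map `Spec A → Spec B`. The object `ξ`
of `[Spec A / G]` over `Spec R` lies over the point `β : B → R` of `Spec B`. -/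
def Obj.LiesOver {X : GAction G A} {R : CAlg k} (ξ : Obj X R) (π : B.Hom A) (β : B.Hom R) : Prop :=
  CAlg.comp ξ.φ π = CAlg.comp (R.str ξ.T.P) β

/-- The map `[Spec A / G] → Spec B` is an isomorphism over the basic open set `D(b)`: for every
point of `D(b)` with values in a ring there is exactly one object over it, up to unique
isomorphism. -/
def IsIsoOver (X : GAction G A) (π : B.Hom A) (b : B) : Prop :=
  ∀ (R : CAlg k) (β : B.Hom R), IsUnit (β b) → (∃ ξ : Obj X R, ξ.LiesOver π β) ∧
    ∀ ξ η : Obj X R, ξ.LiesOver π β → η.LiesOver π β → Nonempty (Unique (ObjIso ξ η))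

end stack

/-! ### Quasi-coherent sheaves and good moduli spaces -/

section basechange

variable {A : Type u} [CommRing A] (S : CAlg A) {T : CAlg A} (M : Type u) [AddCommGroup M]
  [Module A M] {N : Type u} [AddCommGroup N] [Module A N]

/-- The base change `S ⊗ M` of an `A`-module `M`. -/
def BC : Type u := S ⊗[A] M

noncomputable instance : AddCommGroup (BC S M) := (inferInstance : AddCommGroup (S ⊗[A] M))

noncomputable instance : Module S (BC S M) := (inferInstance : Module S (S ⊗[A] M))

variable {M}

/-- The element `1 ⊗ m`. -/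
def BC.one (m : M) : BC S M := (1 : S) ⊗ₜ[A] m

/-- The map `S ⊗ M → S ⊗ N` induced by `f : M → N`. -/
noncomputable def BC.lift (f : M →ₗ[A] N) : BC S M → BC S N := LinearMap.lTensor S f

variable {S} (M)

/-- The map `S ⊗ M → T ⊗ M`, `s ⊗ m ↦ f(s) ⊗ m`. -/
noncomputable def BC.map (f : S.Hom T) : BC S M → BC T M := LinearMap.rTensor M f.toLinearMap

end basechange

section good

variable {k : Type u} [CommRing k] {A S T : CAlg k}

section fibres

variable (x : A.Hom S) (M : Type u) [AddCommGroup M] [Module A M]

/-- The pull-back `x^* M = S ⊗ M` of the `A`-module `M` to an `S`-point `x` of `Spec A`. -/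
def Fib : Type u := BC (CAlg.over x) M

noncomputable instance : AddCommGroup (Fib x M) :=
  (inferInstance : AddCommGroup (BC (CAlg.over x) M))

noncomputable instance : Module S (Fib x M) :=
  (inferInstance : Module (CAlg.over x) (BC (CAlg.over x) M))

/-- The map `x^* M → y^* M`, `s ⊗ m ↦ f(s) ⊗ m`, where `y = f x`. -/
noncomputable def Fib.map (f : S.Hom T) : Fib x M → Fib (CAlg.comp f x) M := BC.map M (CAlg.overHom x f)

variable {M} {N : Type u} [AddCommGroup N] [Module A N]

/-- The element `1 ⊗ m` of `x^* M`. -/
def Fib.one (m : M) : Fib x M := BC.one (CAlg.over x) m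

/-- The map `x^* M → x^* N` induced by `f : M → N`. -/
noncomputable def Fib.lift (f : M →ₗ[A] N) : Fib x M → Fib x N := BC.lift (CAlg.over x) f

end fibres

variable {G : GroupFunctor k} {B : CAlg k}

/-- A `G`-equivariant structure on the `A`-module `M`, i.e. the structure of a quasi-coherent sheaf
on the quotient stack `[Spec A / G]`: for every point `x` of `Spec A` and every element `g` of the
group with values in the same ring `S` there is an `S`-linear map from `x^* M` to `y^* M`, where
`y = g x`; these maps are functorial in `S` and satisfy the cocycle condition (so they are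
isomorphisms). -/
structure EqModule (X : GAction G A) (M : Type u) [AddCommGroup M] [Module A M] where
  /-- the map from `x^* M` to `y^* M`, where `y = g x` -/
  θ : ∀ (S : CAlg k) (g : G.obj S) (x y : A.Hom S), X.act S g x = y → Fib x M → Fib y M
  θ_linear : ∀ (S : CAlg k) (g : G.obj S) (x y : A.Hom S) (h : X.act S g x = y) (s : S)
    (v w : Fib x M), θ S g x y h (s • v + w) = s • θ S g x y h v + θ S g x y h w
  θ_one : ∀ (S : CAlg k) (x : A.Hom S) (h : X.act S 1 x = x) (v : Fib x M), θ S 1 x x h v = v
  θ_mul : ∀ (S : CAlg k) (g g' : G.obj S) (x y z : A.Hom S) (h : X.act S g x = y)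
    (h' : X.act S g' y = z) (h'' : X.act S (g' * g) x = z) (v : Fib x M),
    θ S (g' * g) x z h'' v = θ S g' y z h' (θ S g x y h v)
  θ_map : ∀ (S T : CAlg k) (f : S.Hom T) (g : G.obj S) (x y : A.Hom S) (h : X.act S g x = y)
    (h' : X.act T (G.map S T f g) (CAlg.comp f x) = CAlg.comp f y) (v : Fib x M),
    θ T (G.map S T f g) (CAlg.comp f x) (CAlg.comp f y) h' (Fib.map x M f v) = Fib.map y M f (θ S g x y h v)

section

variable {X : GAction G A} {M : Type u} [AddCommGroup M] [Module A M]
  {N : Type u} [AddCommGroup N] [Module A N]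

/-- `m` is invariant under `G`, i.e. a global section of the sheaf on the quotient stack. -/
def EqModule.Inv (E : EqModule X M) (m : M) : Prop :=
  ∀ (S : CAlg k) (g : G.obj S) (x y : A.Hom S) (h : X.act S g x = y),
    E.θ S g x y h (Fib.one x m) = Fib.one y m

/-- `f` is equivariant under `G`. -/
def EqModule.IsHom (E : EqModule X M) (F : EqModule X N) (f : M →ₗ[A] N) : Prop :=
  ∀ (S : CAlg k) (g : G.obj S) (x y : A.Hom S) (h : X.act S g x = y) (v : Fib x M),
    Fib.lift y f (E.θ S g x y h v) = F.θ S g x y h (Fib.lift x f v)

end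

/-- `[Spec A / G] → Spec B` is a good moduli space morphism (in the sense of Alper): the
push-forward of quasi-coherent sheaves, i.e. the functor of invariants of equivariant modules, is
exact (it is left exact in any case), and `B` is the ring of invariant functions. -/
structure IsGoodModuliSpace (X : GAction G A) (π : B.Hom A) : Prop where
  exact : ∀ (M N : Type u) [AddCommGroup M] [Module A M] [AddCommGroup N] [Module A N]
    (E : EqModule X M) (F : EqModule X N) (f : M →ₗ[A] N), E.IsHom F f → Function.Surjective f →
    ∀ n : N, F.Inv n → ∃ m : M, E.Inv m ∧ f m = n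
  injective : Function.Injective π
  range : ∀ a : A, (∃ b, π b = a) ↔
    ∀ (S : CAlg k) (g : G.obj S) (x : A.Hom S), X.act S g x a = x a

end good

/-! ### Stabilizers -/

section stab

theorem GroupFunctor.map_one {K : Type u} [CommRing K] (G : GroupFunctor K) {S T : CAlg K}
    (f : S.Hom T) : G.map S T f 1 = 1 := by
  have h := G.map_mul S T f 1 1
  rw [mul_one] at h
  exact mul_left_cancel (h.symm.trans (mul_one _).symm)

variable {k : Type u} [CommRing k] {G : GroupFunctor k} {A : CAlg k} (X : GAction G A)

/-- The subgroup of `G(S)` fixing an `S`-point. -/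
def GAction.fix {S : CAlg k} (x : A.Hom S) : Subgroup (G.obj S) where
  carrier := {g | X.act S g x = x}
  mul_mem' := fun {g h} hg hh => (X.mul_act S g h x).trans ((congrArg (X.act S g) hh).trans hg)
  one_mem' := X.one_act S x
  inv_mem' := fun {g} hg => by
    have h := congrArg (X.act S g⁻¹) hg
    rw [← X.mul_act, inv_mul_cancel, X.one_act] at h
    exact h.symm

variable (K : CAlg k) (x : A.Hom K)

/-- The `S`-points of the stabilizer of the point `x ∈ Spec A (K)`, for a `K`-algebra `S`: the
elements of `G(S)` fixing the `S`-point defined by `x`. -/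
def Stab (S : CAlg K) : Type u := X.fix (CAlg.comp (K.str S) x)

instance (S : CAlg K) : Group (Stab X K x S) := (X.fix (CAlg.comp (K.str S) x)).toGroup

theorem Stab.map_mem (S T : CAlg K) (f : S.Hom T) (g : Stab X K x S) :
    G.map (K.res S) (K.res T) (K.resHom f) g.1 ∈ X.fix (CAlg.comp (K.str T) x) := by
  have h := X.map_act _ _ (K.resHom f) g.1 (CAlg.comp (K.str S) x)
  have h2 : X.act _ g.1 (CAlg.comp (K.str S) x) = CAlg.comp (K.str S) x := g.2
  rw [h2] at h
  have e : CAlg.comp (K.resHom f) (CAlg.comp (K.str S) x) = CAlg.comp (K.str T) x := by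
    apply AlgHom.ext
    intro a
    exact f.commutes (x a)
  rw [e] at h
  exact h.symm

/-- The functoriality of the stabilizer. -/
def Stab.map (S T : CAlg K) (f : S.Hom T) (g : Stab X K x S) : Stab X K x T :=
  ⟨G.map (K.res S) (K.res T) (K.resHom f) g.1, Stab.map_mem X K x S T f g⟩

theorem Stab.map_mul (S T : CAlg K) (f : S.Hom T) (g h : Stab X K x S) :
    Stab.map X K x S T f (g * h) = Stab.map X K x S T f g * Stab.map X K x S T f h :=
  Subtype.ext (G.map_mul _ _ _ g.1 h.1)

/-- The stabilizer of the point `x ∈ Spec A (K)`, a group functor over `K`. -/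
def stabilizer : GroupFunctor K where
  obj := Stab X K x
  map := Stab.map X K x
  map_mul := Stab.map_mul X K x
  map_id S g := Subtype.ext (G.map_id (K.res S) g.1)
  map_comp S T U e f g :=
    Subtype.ext (G.map_comp (K.res S) (K.res T) (K.res U) (K.resHom e) (K.resHom f) g.1)

end stab

/-! ### Arcs -/

section arcs

variable {k : Type u} [CommRing k] {G : GroupFunctor k} {A B : CAlg k}

theorem ObjIso.trans_aux {X : GAction G A} {R : CAlg k} {ξ η ζ : Obj X R}
    (h : Nonempty (ObjIso ξ η)) (h' : Nonempty (ObjIso η ζ)) : Nonempty (ObjIso ξ ζ) := by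
  obtain ⟨⟨e, he, h1, h2⟩⟩ := h
  obtain ⟨⟨f, hf, g1, g2⟩⟩ := h'
  refine ⟨⟨CAlg.comp f e, hf.comp he, ?_, ?_⟩⟩
  · intro S p g
    have h := h1 _ (CAlg.comp p f) g
    have h' := g1 _ p g
    have e1 : CAlg.comp (ζ.T.act S p g) (CAlg.comp f e) = CAlg.comp (CAlg.comp (ζ.T.act S p g) f) e := rfl
    rw [e1, h', h]
    rfl
  · rw [← g2, ← h2]
    rfl

theorem ObjIso.symm_aux {X : GAction G A} {R : CAlg k} {ξ η : Obj X R}
    (h : Nonempty (ObjIso ξ η)) : Nonempty (ObjIso η ξ) := by
  obtain ⟨⟨e, he, h1, h2⟩⟩ := h
  let E : ξ.T.P ≃ₐ[R] η.T.P := AlgEquiv.ofBijective e he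
  let E' : η.T.P.Hom ξ.T.P := E.symm.toAlgHom
  have e2 : CAlg.comp E' e = AlgHom.id R ξ.T.P := by
    apply AlgHom.ext
    intro x
    exact E.symm_apply_apply x
  have e3 : CAlg.comp e E' = AlgHom.id R η.T.P := by
    apply AlgHom.ext
    intro x
    exact E.apply_symm_apply x
  refine ⟨⟨E', E.symm.bijective, ?_, ?_⟩⟩
  · intro S p g
    have h := h1 S (CAlg.comp p E') g
    have e1 : CAlg.comp (CAlg.comp p E') e = CAlg.comp p (CAlg.comp E' e) := rfl
    rw [e1, e2] at h
    have e4 : CAlg.comp p (AlgHom.id R ξ.T.P : ξ.T.P.Hom ξ.T.P) = p := rfl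
    rw [e4] at h
    rw [← h]
    have e5 : CAlg.comp (CAlg.comp (η.T.act S (CAlg.comp p E') g) e) E' = CAlg.comp (η.T.act S (CAlg.comp p E') g) (CAlg.comp e E') := rfl
    rw [e5, e3]
    rfl
  · rw [← h2]
    apply AlgHom.ext
    intro x
    exact E.symm_apply_apply _

/-- Isomorphism is an equivalence relation on the objects over `Spec R` lying over a point
of `Spec B`. -/
def isoSetoid (X : GAction G A) (π : B.Hom A) {R : CAlg k} (β : B.Hom R) :
    Setoid {ξ : Obj X R // ξ.LiesOver π β} where
  r ξ η := Nonempty (ObjIso ξ.1 η.1)
  iseqv := ⟨fun ξ => ⟨⟨AlgHom.id _ _, Function.bijective_id, fun S p g => rfl, rfl⟩⟩,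
    ObjIso.symm_aux, ObjIso.trans_aux⟩

/-- The set of isomorphism classes of objects over `Spec R` lying over a point of `Spec B`. -/
def FibreSet (X : GAction G A) (π : B.Hom A) {R : CAlg k} (β : B.Hom R) : Type (u + 1) :=
  Quotient (isoSetoid X π β)

/-- The residue field of a point of `Spec R`. -/
def Residue {R : Type u} [CommRing R] (p : PrimeSpectrum R) : Type u := p.asIdeal.ResidueField

noncomputable instance {R : Type u} [CommRing R] (p : PrimeSpectrum R) : Field (Residue p) :=
  (inferInstance : Field p.asIdeal.ResidueField)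

/-- The map from `R` to the residue field of a point of `Spec R`. -/
noncomputable def residue {R : Type u} [CommRing R] (p : PrimeSpectrum R) : R →+* Residue p :=
  algebraMap R p.asIdeal.ResidueField

/-- The polynomial ring `k[T₀, …, T_(d-1)]`. -/
noncomputable def Poly (k : Type u) [CommRing k] (d : ℕ) : CAlg k := ⟨MvPolynomial (Fin d) k⟩

/-- The variable `T_j`. -/
noncomputable def Poly.T (k : Type u) [CommRing k] {d : ℕ} (j : Fin d) : Poly k d := (MvPolynomial.X j : MvPolynomial (Fin d) k)

/-- The arc space of affine `d`-space `Spec k[T₀, …]` over the field `k` is the spectrum of the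
polynomial ring in the variables `x_(j,n)`, `j < d`, `0 ≤ n`, the universal arc
being `T_j ↦ x_(j,0) + x_(j,1) t + x_(j,2) t² + …`. -/
abbrev ArcSpace (k : Type u) [CommRing k] (d : ℕ) : Type u :=
  PrimeSpectrum (MvPolynomial (Fin d × ℕ) k)

variable {d : ℕ}

noncomputable instance (p : ArcSpace k d) : Algebra k (Residue p) :=
  ((residue p).comp MvPolynomial.C).toAlgebra

/-- Power series with coefficients in the residue field of a point of the arc space. -/
noncomputable def ArcSpace.series (p : ArcSpace k d) : CAlg k := ⟨PowerSeries (Residue p)⟩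

/-- The arc of affine `d`-space with values in the residue field of a point of the arc space. -/
noncomputable def ArcSpace.arc (p : ArcSpace k d) : (Poly k d).Hom p.series :=
  MvPolynomial.aeval fun j => PowerSeries.mk fun n => residue p (MvPolynomial.X (j, n))

/-- The function `sep_π` on the arc space of affine `d`-space, for a map `π` from a quotient stack
to it: the number of isomorphism classes of arcs of the stack over the residue field of the point
lying over the given arc, and `0` if there are infinitely many. (`Nat.card` is `0` on infinite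
types.) -/
noncomputable def sep (X : GAction G A) (π : (Poly k d).Hom A) (p : ArcSpace k d) : ℕ :=
  Nat.card (FibreSet X π p.arc)

end arcs

end Pool.Agent.Hhelper17.Lift
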