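import Mathlib
import Pool.Agent.Hhelper17.Lift.Defs

set_option linter.all false

namespace Pool.Agent.Hhelper17.Lift

open scoped TensorProduct

universe u

/-- faithfully flat descent for maps of algebras -/
theorem descend_alg {R S S' P : Type u} [CommRing R] [CommRing S] [CommRing S'] [CommRing P]
    [Algebra R S] [Algebra S S'] [Algebra R S'] [IsScalarTower R S S'] [Algebra R P]
    [Module.FaithfullyFlat S S'] (q : P →ₐ[R] S')
    (h : ∀ x, (q x) ⊗ₜ[S] (1 : S') = 1 ⊗ₜ[S] (q x)) :
    ∃ q0 : P →ₐ[R] S, ∀ x, algebraMap S S' (q0 x) = q x := by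
  have hinj : Function.Injective (algebraMap S S') := FaithfulSMul.algebraMap_injective S S'
  have hex : ∀ x, ∃ s : S, algebraMap S S' s = q x := by
    intro x
    have h1 := Algebra.IsEffective.of_faithfullyFlat S S' (q x)
    rw [Algebra.TensorProduct.includeLeftSubRight_apply] at h1
    exact h1.mp (sub_eq_zero.mpr (h x))
  choose f hf using hex
  refine ⟨{ toFun := f
            map_one' := hinj (by rw [hf, map_one, map_one])
            map_mul' := fun a b => hinj (by rw [map_mul, hf, hf, hf, map_mul])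
            map_zero' := hinj (by rw [hf, map_zero, map_zero])
            map_add' := fun a b => hinj (by rw [map_add, hf, hf, hf, map_add])
            commutes' := fun r => hinj (by
              rw [hf, AlgHom.commutes, ← IsScalarTower.algebraMap_apply R S S']) }, hf⟩

attribute [instance] Torsor.flat

section basics

variable {K : Type u} [CommRing K]

theorem CAlg.comp_apply {S T U : CAlg K} (f : T.Hom U) (e : S.Hom T) (x : S) :
    (CAlg.comp f e) x = f (e x) := rfl

theorem CAlg.comp_assoc {S T U V : CAlg K} (g : U.Hom V) (f : T.Hom U) (e : S.Hom T) :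
    CAlg.comp (CAlg.comp g f) e = CAlg.comp g (CAlg.comp f e) := rfl

theorem CAlg.ext {S T : CAlg K} {f g : S.Hom T} (h : ∀ x : S, f x = g x) : f = g := AlgHom.ext h

theorem CAlg.id_comp {S T : CAlg K} (f : S.Hom T) : CAlg.comp (AlgHom.id K T : T.Hom T) f = f := rfl

theorem CAlg.comp_id {S T : CAlg K} (f : S.Hom T) : CAlg.comp f (AlgHom.id K S : S.Hom S) = f := rfl

theorem CAlg.resHom_apply (R : CAlg K) {S T : CAlg R} (f : S.Hom T) (x : S) :
    R.resHom f x = f x := rfl

theorem CAlg.resHom_comp (R : CAlg K) {S T U : CAlg R} (f : T.Hom U) (e : S.Hom T) :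
    R.resHom (CAlg.comp f e) = CAlg.comp (R.resHom f) (R.resHom e) := rfl

variable (G : GroupFunctor K)

theorem GroupFunctor.map_inv {S T : CAlg K} (f : S.Hom T) (g : G.obj S) :
    G.map S T f g⁻¹ = (G.map S T f g)⁻¹ := by
  rw [eq_inv_iff_mul_eq_one, ← G.map_mul, inv_mul_cancel, G.map_one]

end basics

section torsor

variable {K : Type u} [CommRing K] {G : GroupFunctor K} {R : CAlg K} (T : Torsor G R)

/-- The element of the group taking one point of a torsor to another. -/
noncomputable def Torsor.diff {S : CAlg R} (p q : T.P.Hom S) : G.obj (R.res S) :=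
  (T.exists_unique S p q).choose

variable {S : CAlg R}

theorem Torsor.act_diff (p q : T.P.Hom S) : T.act S p (T.diff p q) = q :=
  (T.exists_unique S p q).choose_spec.1

theorem Torsor.eq_diff {p q : T.P.Hom S} {g : G.obj (R.res S)} (h : T.act S p g = q) :
    g = T.diff p q :=
  (T.exists_unique S p q).choose_spec.2 g h

theorem Torsor.diff_act (p : T.P.Hom S) (g : G.obj (R.res S)) : T.diff p (T.act S p g) = g :=
  (T.eq_diff rfl).symm

theorem Torsor.diff_self (p : T.P.Hom S) : T.diff p p = 1 :=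
  (T.eq_diff (T.act_one S p)).symm

theorem Torsor.diff_mul (p q r : T.P.Hom S) : T.diff p q * T.diff q r = T.diff p r :=
  T.eq_diff (by rw [T.act_mul, T.act_diff, T.act_diff])

theorem Torsor.map_diff {S' : CAlg R} (f : S.Hom S') (p q : T.P.Hom S) :
    G.map _ _ (R.resHom f) (T.diff p q) = T.diff (CAlg.comp f p) (CAlg.comp f q) :=
  T.eq_diff (by rw [← T.act_map, T.act_diff])

/-- the tensor product `S ⊗ P` -/
noncomputable abbrev Torsor.SP (S : CAlg R) : CAlg R := ⟨S ⊗[R] T.P⟩

/-- the inclusion of `S` -/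
noncomputable def Torsor.inS (S : CAlg R) : S.Hom (T.SP S) :=
  (Algebra.TensorProduct.includeLeft : S →ₐ[R] S ⊗[R] T.P)

/-- the inclusion of `P` -/
noncomputable def Torsor.inP (S : CAlg R) : T.P.Hom (T.SP S) :=
  (Algebra.TensorProduct.includeRight : T.P →ₐ[R] S ⊗[R] T.P)

/-- Descent of a point. -/
theorem Torsor.exists_of_descent (q : T.P.Hom (T.SP S))
    (h : ∀ (U : CAlg R) (j1 j2 : (T.SP S).Hom U), CAlg.comp j1 (T.inS S) = CAlg.comp j2 (T.inS S) →
      CAlg.comp j1 q = CAlg.comp j2 q) : ∃ q0 : T.P.Hom S, CAlg.comp (T.inS S) q0 = q := by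
  let S' := S ⊗[R] T.P
  let U : CAlg R := ⟨S' ⊗[S] S'⟩
  let j1 : S' →ₐ[R] (S' ⊗[S] S') := (Algebra.TensorProduct.includeLeft : S' →ₐ[S] S' ⊗[S] S').restrictScalars R
  let j2 : S' →ₐ[R] (S' ⊗[S] S') := (Algebra.TensorProduct.includeRight : S' →ₐ[S] S' ⊗[S] S').restrictScalars R
  have h3 := h U j1 j2 (by
    apply CAlg.ext
    intro s
    have h1 := (Algebra.TensorProduct.includeLeft : S' →ₐ[S] S' ⊗[S] S').commutes s
    have h2 := (Algebra.TensorProduct.includeRight : S' →ₐ[S] S' ⊗[S] S').commutes s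
    exact h1.trans h2.symm)
  let q' : T.P →ₐ[R] S' := q
  obtain ⟨q0, hq0⟩ := descend_alg (S := S) q' (fun x => by
    have := DFunLike.congr_fun h3 x
    exact this)
  exact ⟨q0, CAlg.ext hq0⟩

/-- Descent of a point of a torsor. -/
theorem Torsor.exists_section (N : G.obj (R.res (T.SP S)))
    (hN : ∀ (U : CAlg R) (j1 j2 : (T.SP S).Hom U), CAlg.comp j1 (T.inS S) = CAlg.comp j2 (T.inS S) →
      G.map _ _ (R.resHom j2) N =
        (T.diff (CAlg.comp j1 (T.inP S)) (CAlg.comp j2 (T.inP S)))⁻¹ * G.map _ _ (R.resHom j1) N) :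
    Nonempty (T.P.Hom S) := by
  obtain ⟨q0, -⟩ := T.exists_of_descent (T.act _ (T.inP S) N) (by
    intro U j1 j2 hj
    have h := hN U j1 j2 hj
    rw [T.act_map, T.act_map, h, T.act_mul]
    have e : T.act _ (CAlg.comp j2 (T.inP S)) (T.diff (CAlg.comp j1 (T.inP S)) (CAlg.comp j2 (T.inP S)))⁻¹ =
        CAlg.comp j1 (T.inP S) := by
      conv_lhs => rw [← T.act_diff (CAlg.comp j1 (T.inP S)) (CAlg.comp j2 (T.inP S))]
      rw [T.diff_act, ← T.act_mul, mul_inv_cancel, T.act_one]
    rw [e])
  exact ⟨q0⟩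

end torsor

end Pool.Agent.Hhelper17.Lift
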