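import Mathlib
import Pool.Agent.Hhelper17.Lift.Descent

set_option linter.all false

namespace Pool.Agent.Hhelper17.Lift

open scoped TensorProduct

universe u

section sub

variable {K : Type u} [CommRing K] {G : GroupFunctor K}

/-- A homomorphism from `G` to `SL₂`. -/
structure ToSL2 (G : GroupFunctor K) where
  /-- the homomorphism -/
  ι : ∀ S : CAlg K, G.obj S →* Matrix.SpecialLinearGroup (Fin 2) S
  natural : ∀ (S T : CAlg K) (f : S.Hom T) (g : G.obj S),
    ι T (G.map S T f g) = Matrix.SpecialLinearGroup.map f.toRingHom (ι S g)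

variable {R : CAlg K} (T : Torsor G R) (j : ToSL2 G)

/-- The matrix of an element of the group, over an `R`-algebra. -/
def ToSL2.mat (S : CAlg R) (g : G.obj (R.res S)) : Matrix (Fin 2) (Fin 2) S :=
  (j.ι (R.res S) g : Matrix (Fin 2) (Fin 2) S)

theorem ToSL2.mat_mul (S : CAlg R) (g h : G.obj (R.res S)) :
    j.mat S (g * h) = j.mat S g * j.mat S h := by
  rw [ToSL2.mat, map_mul]; rfl

theorem ToSL2.mat_one (S : CAlg R) : j.mat S (1 : G.obj (R.res S)) = 1 := by
  rw [ToSL2.mat, map_one]; rfl

theorem ToSL2.det_mat (S : CAlg R) (g : G.obj (R.res S)) : (j.mat S g).det = 1 :=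
  (j.ι (R.res S) g).2

theorem ToSL2.mat_map (S S' : CAlg R) (f : S.Hom S') (g : G.obj (R.res S)) :
    j.mat S' (G.map _ _ (R.resHom f) g) = (j.mat S g).map f := by
  rw [ToSL2.mat, j.natural]
  rfl

/-- The equivariant vectors. -/
def Torsor.eqVec : Submodule R (Fin 2 → T.P) where
  carrier := {v | ∀ (S : CAlg R) (p : T.P.Hom S) (g : G.obj (R.res S)),
    (fun i => T.act S p g (v i)) = (j.mat S g⁻¹).mulVec (fun i => p (v i))}
  add_mem' := by
    intro a b ha hb S p g
    have h1 := ha S p g
    have h2 := hb S p g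
    have e1 : (fun i => T.act S p g ((a + b) i)) =
      (fun i => T.act S p g (a i)) + (fun i => T.act S p g (b i)) := by
      funext i; simp
    have e2 : (fun i => p ((a + b) i)) = (fun i => p (a i)) + (fun i => p (b i)) := by
      funext i; simp
    rw [e1, e2, h1, h2, Matrix.mulVec_add]
  zero_mem' := by
    intro S p g
    have e1 : (fun i => T.act S p g ((0 : Fin 2 → T.P) i)) = 0 := by funext i; simp
    have e2 : (fun i => p ((0 : Fin 2 → T.P) i)) = 0 := by funext i; simp
    rw [e1, e2, Matrix.mulVec_zero]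
  smul_mem' := by
    intro c a ha S p g
    have h1 := ha S p g
    have e1 : (fun i => T.act S p g ((c • a) i)) = c • (fun i => T.act S p g (a i)) := by
      funext i; simp
    have e2 : (fun i => p ((c • a) i)) = c • (fun i => p (a i)) := by
      funext i; simp
    rw [e1, e2, h1, Matrix.mulVec_smul]

/-- `P ⊗ P` -/
noncomputable abbrev Torsor.PP : CAlg R := ⟨T.P ⊗[R] T.P⟩

/-- first projection -/
noncomputable abbrev Torsor.i1 : T.P.Hom T.PP :=
  (Algebra.TensorProduct.includeLeft : T.P →ₐ[R] T.P ⊗[R] T.P)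
/-- second projection -/
noncomputable abbrev Torsor.i2 : T.P.Hom T.PP :=
  (Algebra.TensorProduct.includeRight : T.P →ₐ[R] T.P ⊗[R] T.P)

/-- the inverse of the cocycle -/
noncomputable def Torsor.cinv : Matrix (Fin 2) (Fin 2) (T.P ⊗[R] T.P) :=
  j.mat T.PP (T.diff T.i1 T.i2)⁻¹

/-- the difference map -/
noncomputable def Torsor.δ : (Fin 2 → T.P) →ₗ[R] (Fin 2 → T.P ⊗[R] T.P) :=
  LinearMap.pi (fun i => T.i2.toLinearMap ∘ₗ LinearMap.proj i -
    ∑ l, (LinearMap.mulLeft R (T.cinv j i l)) ∘ₗ T.i1.toLinearMap ∘ₗ LinearMap.proj l)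

theorem Torsor.mem_eqVec_of_δ (v : Fin 2 → T.P) (hv : T.δ j v = 0) : v ∈ T.eqVec j := by
  intro S p g
  let θ : T.PP.Hom S :=
    Algebra.TensorProduct.lift p (T.act S p g) (fun _ _ => Commute.all _ _)
  have h1 : CAlg.comp θ T.i1 = p := by
    apply CAlg.ext; intro x
    exact (Algebra.TensorProduct.lift_tmul p (T.act S p g) (fun _ _ => Commute.all _ _) x 1).trans
      (by rw [map_one, mul_one])
  have h2 : CAlg.comp θ T.i2 = T.act S p g := by
    apply CAlg.ext; intro x
    exact (Algebra.TensorProduct.lift_tmul p (T.act S p g) (fun _ _ => Commute.all _ _) 1 x).trans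
      (by rw [map_one, one_mul])
  have hg : G.map _ _ (R.resHom θ) (T.diff T.i1 T.i2) = g := by
    rw [T.map_diff, h1, h2, T.diff_act]
  funext i
  have hvi : T.δ j v i = 0 := congrFun hv i
  have e : T.i2 (v i) = ∑ l, T.cinv j i l * T.i1 (v l) := by
    have : T.δ j v i = T.i2 (v i) - ∑ l, T.cinv j i l * T.i1 (v l) := by
      simp only [Torsor.δ, LinearMap.comp_apply, LinearMap.proj_apply, LinearMap.pi_apply,
          LinearMap.sub_apply, LinearMap.sum_apply, LinearMap.mulLeft_apply,
          AlgHom.toLinearMap_apply]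
    rw [hvi] at this
    exact sub_eq_zero.mp this.symm
  have e2 : θ (T.i2 (v i)) = ∑ l, θ (T.cinv j i l) * θ (T.i1 (v l)) := by
    rw [e, map_sum]; exact Finset.sum_congr rfl fun l _ => map_mul _ _ _
  have e3 : ∀ x, θ (T.i1 x) = p x := fun x => DFunLike.congr_fun h1 x
  have e4 : ∀ x, θ (T.i2 x) = T.act S p g x := fun x => DFunLike.congr_fun h2 x
  have e5 : ∀ l, θ (T.cinv j i l) = j.mat S g⁻¹ i l := by
    intro l
    rw [← hg, ← G.map_inv, j.mat_map]
    rfl
  rw [e4] at e2
  rw [e2]
  simp only [Matrix.mulVec, dotProduct, e5, e3]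

theorem Torsor.cocycle (i l : Fin 2) :
    LinearMap.lTensor T.P T.i2.toLinearMap (T.cinv j i l) =
      ∑ m, (LinearMap.lTensor T.P ((LinearMap.mulLeft R (T.cinv j i m)) ∘ₗ T.i1.toLinearMap))
        (T.cinv j m l) := by
  let P3 : CAlg R := ⟨T.P ⊗[R] (T.P ⊗[R] T.P)⟩
  let j12 : T.PP.Hom P3 := Algebra.TensorProduct.map (AlgHom.id R T.P) T.i1
  let j13 : T.PP.Hom P3 := Algebra.TensorProduct.map (AlgHom.id R T.P) T.i2
  let j23 : T.PP.Hom P3 := Algebra.TensorProduct.includeRight
  have b12 : ∀ a b : T.P, j12 (a ⊗ₜ[R] b) = a ⊗ₜ[R] (b ⊗ₜ[R] 1) := fun a b => rfl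
  have b13 : ∀ a b : T.P, j13 (a ⊗ₜ[R] b) = a ⊗ₜ[R] (1 ⊗ₜ[R] b) := fun a b => rfl
  have b23 : ∀ a, j23 a = (1 : T.P) ⊗ₜ[R] a := fun a => rfl
  have a1 : CAlg.comp j12 T.i1 = CAlg.comp j13 T.i1 := by
    apply CAlg.ext; intro x; exact (b12 x 1).trans (b13 x 1).symm
  have a2 : CAlg.comp j12 T.i2 = CAlg.comp j23 T.i1 := by
    apply CAlg.ext; intro x; exact (b12 1 x).trans (b23 _).symm
  have a3 : CAlg.comp j23 T.i2 = CAlg.comp j13 T.i2 := by
    apply CAlg.ext; intro x; exact (b23 _).trans (b13 1 x).symm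
  have hc : G.map _ _ (R.resHom j12) (T.diff T.i1 T.i2) *
      G.map _ _ (R.resHom j23) (T.diff T.i1 T.i2) =
      G.map _ _ (R.resHom j13) (T.diff T.i1 T.i2) := by
    rw [T.map_diff, T.map_diff, T.map_diff, a1, a2, a3, T.diff_mul]
  have hm : j.mat P3 (G.map _ _ (R.resHom j13) (T.diff T.i1 T.i2)⁻¹) =
      j.mat P3 (G.map _ _ (R.resHom j23) (T.diff T.i1 T.i2)⁻¹) *
      j.mat P3 (G.map _ _ (R.resHom j12) (T.diff T.i1 T.i2)⁻¹) := by
    rw [← j.mat_mul, G.map_inv, G.map_inv, G.map_inv, ← mul_inv_rev, hc]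
  rw [j.mat_map, j.mat_map, j.mat_map] at hm
  have hm2 : j13 (T.cinv j i l) = ∑ m, j23 (T.cinv j i m) * j12 (T.cinv j m l) := by
    have h := congrFun (congrFun hm i) l
    rw [Matrix.mul_apply] at h
    exact h
  have t1 : ∀ x, LinearMap.lTensor T.P T.i2.toLinearMap x = j13 x := fun x => rfl
  have t2 : ∀ y x, LinearMap.lTensor T.P ((LinearMap.mulLeft R y) ∘ₗ T.i1.toLinearMap) x =
      j23 y * j12 x := by
    intro y x
    induction x with
    | zero => simp
    | add a b ha hb => rw [map_add, ha, hb, map_add, mul_add]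
    | tmul a b =>
      rw [b12, b23]
      show a ⊗ₜ[R] (y * (b ⊗ₜ[R] 1)) = _
      exact (by rw [Algebra.TensorProduct.tmul_mul_tmul, one_mul] :
        a ⊗ₜ[R] (y * (b ⊗ₜ[R] 1)) = ((1 : T.P) ⊗ₜ[R] y) * (a ⊗ₜ[R] (b ⊗ₜ[R] (1 : T.P))))
  rw [t1, hm2]
  exact Finset.sum_congr rfl fun m _ => (t2 _ _).symm

/-- Descent: the equivariant vectors generate. -/
theorem Torsor.span_eqVec : Submodule.span T.P (T.eqVec j : Set (Fin 2 → T.P)) = ⊤ := by
  have key : ∀ l : Fin 2, (Pi.single l 1 : Fin 2 → T.P) ∈
      Submodule.span T.P (T.eqVec j : Set (Fin 2 → T.P)) := by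
    intro l
    let w : T.P ⊗[R] (Fin 2 → T.P) := ∑ m, LinearMap.lTensor T.P
      (LinearMap.single R (fun _ : Fin 2 => (T.P : Type u)) m) (T.cinv j m l)
    have hw : LinearMap.lTensor T.P (T.δ j) w = 0 := by
      have hz : ∀ z : T.P ⊗[R] (Fin 2 → T.P ⊗[R] T.P),
          (∀ i : Fin 2, LinearMap.lTensor T.P (LinearMap.proj i) z = 0) → z = 0 := by
        intro z hz
        have e : z = ∑ i, LinearMap.lTensor T.P
            (LinearMap.single R (fun _ : Fin 2 => T.P ⊗[R] T.P) i)
            (LinearMap.lTensor T.P (LinearMap.proj i) z) := by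
          have : (LinearMap.id : (Fin 2 → T.P ⊗[R] T.P) →ₗ[R] _) =
              ∑ i, (LinearMap.single R (fun _ : Fin 2 => T.P ⊗[R] T.P) i) ∘ₗ
                (LinearMap.proj i) := by
            refine LinearMap.ext fun v => funext fun i => ?_
            fin_cases i <;> simp
          conv_lhs => rw [← LinearMap.id_apply (R := R) z, ← LinearMap.lTensor_id, this]
          rw [Fin.sum_univ_two, LinearMap.lTensor_add, LinearMap.add_apply,
            LinearMap.lTensor_comp_apply, LinearMap.lTensor_comp_apply, Fin.sum_univ_two]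
        rw [e]
        exact Finset.sum_eq_zero fun i _ => by rw [hz i, map_zero]
      apply hz
      intro i
      rw [← LinearMap.lTensor_comp_apply]
      simp only [w, map_sum, ← LinearMap.lTensor_comp_apply]
      have e : ∀ m : Fin 2, (LinearMap.proj i ∘ₗ T.δ j) ∘ₗ
          (LinearMap.single R (fun _ : Fin 2 => (T.P : Type u)) m) =
          (if i = m then T.i2.toLinearMap else 0) -
            (LinearMap.mulLeft R (T.cinv j i m)) ∘ₗ T.i1.toLinearMap := by
        intro m
        ext x
        simp only [Torsor.δ, LinearMap.comp_apply, LinearMap.proj_apply, LinearMap.pi_apply,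
          LinearMap.sub_apply, LinearMap.sum_apply, LinearMap.single_apply]
        congr 1
        · by_cases h : i = m
          · subst h; simp
          · rw [if_neg h, Pi.single_eq_of_ne h, map_zero]; rfl
        · rw [Finset.sum_eq_single m]
          · simp
          · intro b _ hb
            rw [Pi.single_eq_of_ne hb]; simp
          · simp
      have e' : ∀ m : Fin 2, (LinearMap.lTensor T.P ((LinearMap.proj i ∘ₗ T.δ j) ∘ₗ
          (LinearMap.single R (fun _ : Fin 2 => (T.P : Type u)) m))) (T.cinv j m l) =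
          (if i = m then LinearMap.lTensor T.P T.i2.toLinearMap (T.cinv j m l) else 0) -
          (LinearMap.lTensor T.P ((LinearMap.mulLeft R (T.cinv j i m)) ∘ₗ T.i1.toLinearMap))
            (T.cinv j m l) := by
        intro m
        rw [e m, LinearMap.lTensor_sub, LinearMap.sub_apply]
        congr 1
        split_ifs
        · rfl
        · rw [LinearMap.lTensor_zero]; rfl
      rw [Finset.sum_congr rfl (fun m _ => e' m), Finset.sum_sub_distrib, ← T.cocycle j i l]
      simp
    have hex : Function.Exact (T.eqVec j).subtype (T.δ j) := by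
      intro v
      constructor
      · intro hv
        exact ⟨⟨v, T.mem_eqVec_of_δ j v hv⟩, rfl⟩
      · rintro ⟨⟨v, hv⟩, rfl⟩
        have h := hv T.PP T.i1 (T.diff T.i1 T.i2)
        rw [T.act_diff] at h
        funext i
        have hi := congrFun h i
        simp only [Matrix.mulVec, dotProduct] at hi
        simp only [Torsor.δ, Submodule.subtype_apply, LinearMap.pi_apply, LinearMap.sub_apply,
          LinearMap.comp_apply, LinearMap.proj_apply, LinearMap.sum_apply,
          LinearMap.mulLeft_apply, AlgHom.toLinearMap_apply, Pi.zero_apply]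
        rw [hi]
        exact sub_eq_zero.mpr rfl
    have hex2 := Module.Flat.lTensor_exact T.P hex
    obtain ⟨z, hz⟩ := (hex2 w).mp hw
    let μ : T.P ⊗[R] (Fin 2 → T.P) →ₗ[R] (Fin 2 → T.P) :=
      TensorProduct.lift (Algebra.lsmul R R (Fin 2 → T.P)).toLinearMap
    have hμ : ∀ a v, μ (a ⊗ₜ[R] v) = a • v := fun a v => rfl
    have h1 : μ w ∈ Submodule.span T.P (T.eqVec j : Set (Fin 2 → T.P)) := by
      rw [← hz]
      clear hz
      induction z with
      | zero => rw [map_zero, map_zero]; exact Submodule.zero_mem _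
      | add a b ha hb => rw [map_add, map_add]; exact Submodule.add_mem _ ha hb
      | tmul a v =>
        rw [LinearMap.lTensor_tmul, hμ]
        exact Submodule.smul_mem _ _ (Submodule.subset_span v.2)
    have h2 : μ w = Pi.single l 1 := by
      let d : T.PP.Hom T.P :=
        Algebra.TensorProduct.lift (AlgHom.id R T.P) (AlgHom.id R T.P) (fun _ _ => Commute.all _ _)
      have d0 : ∀ a b : T.P, d (a ⊗ₜ[R] b) = a * b := fun a b =>
        Algebra.TensorProduct.lift_tmul (AlgHom.id R T.P) (AlgHom.id R T.P)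
          (fun _ _ => Commute.all _ _) a b
      have d1 : CAlg.comp d T.i1 = AlgHom.id R T.P := by
        apply CAlg.ext; intro x
        exact (d0 x 1).trans (mul_one x)
      have d2 : CAlg.comp d T.i2 = AlgHom.id R T.P := by
        apply CAlg.ext; intro x
        exact (d0 1 x).trans (one_mul x)
      have hd : G.map _ _ (R.resHom d) (T.diff T.i1 T.i2) = 1 := by
        rw [T.map_diff, d1, d2, T.diff_self]
      have hdc : ∀ m, d (T.cinv j m l) = (1 : Matrix (Fin 2) (Fin 2) T.P) m l := by
        intro m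
        have h := j.mat_map T.PP T.P d (T.diff T.i1 T.i2)⁻¹
        rw [G.map_inv, hd, inv_one, j.mat_one] at h
        exact (congrFun (congrFun h m) l).symm
      have hμd : ∀ (m : Fin 2) (x : T.P ⊗[R] T.P),
          μ (LinearMap.lTensor T.P (LinearMap.single R (fun _ : Fin 2 => (T.P : Type u)) m) x) =
            Pi.single m (d x) := by
        intro m x
        induction x with
        | zero =>
          rw [map_zero, map_zero]
          have : d (0 : T.P ⊗[R] T.P) = 0 := map_zero d
          rw [this, Pi.single_zero]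
        | add a b ha hb =>
          have : d (a + b : T.P ⊗[R] T.P) = d a + d b := map_add d a b
          rw [map_add, map_add, ha, hb, this, Pi.single_add]
        | tmul a b =>
          rw [LinearMap.lTensor_tmul, hμ, d0]
          funext i
          by_cases h : i = m
          · subst h; simp
          · simp [Pi.single_eq_of_ne h]
      have : μ w = ∑ m, Pi.single m (d (T.cinv j m l)) := by
        simp only [w, map_sum, hμd]
      rw [this, Fin.sum_univ_two, hdc, hdc]
      clear hdc this hμd hd hw hz h1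
      clear_value w
      funext i
      fin_cases i <;> fin_cases l <;> simp [Matrix.one_apply]
    rw [← h2]
    exact h1
  rw [eq_top_iff]
  intro v _
  have : v = ∑ l, v l • (Pi.single l 1 : Fin 2 → T.P) := by
    funext i
    fin_cases i <;> simp
  rw [this]
  exact Submodule.sum_mem _ fun l _ => Submodule.smul_mem _ _ (key l)

end sub

end Pool.Agent.Hhelper17.Lift
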