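import Mathlib
import Pool.Agent.Hhelper17.Lift.Vec

set_option linter.all false

namespace Pool.Agent.Hhelper17.Lift

open scoped TensorProduct

universe u

section

variable {K : Type u} [CommRing K] {G : GroupFunctor K}
variable {R : CAlg K} (T : Torsor G R) (j : ToSL2 G)

/-- A matrix over `S ⊗ P` which is equivariant. -/
def Torsor.IsEqMat (S : CAlg R) (V : Matrix (Fin 2) (Fin 2) (T.SP S)) : Prop :=
  ∀ (U : CAlg R) (j1 j2 : (T.SP S).Hom U), CAlg.comp j1 (T.inS S) = CAlg.comp j2 (T.inS S) →
      V.map j2 = j.mat U (T.diff (CAlg.comp j1 (T.inP S)) (CAlg.comp j2 (T.inP S)))⁻¹ * V.map j1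

variable {S : CAlg R}

theorem Torsor.isEqMat_cols (s : Fin 2 → S) (v : Fin 2 → Fin 2 → T.P)
    (hv : ∀ l, v l ∈ T.eqVec j) :
    T.IsEqMat j S (Matrix.of fun i l => s l ⊗ₜ[R] v l i) := by
  intro U j1 j2 h12
  ext i l
  have hvl : v l ∈ T.eqVec j := hv l
  have h := hvl U (CAlg.comp j1 (T.inP S)) (T.diff (CAlg.comp j1 (T.inP S)) (CAlg.comp j2 (T.inP S)))
  rw [T.act_diff] at h
  have hi := congrFun h i
  have e : ∀ i, s l ⊗ₜ[R] v l i = (s l ⊗ₜ[R] (1 : T.P)) * ((1 : S) ⊗ₜ[R] v l i) := by
    intro i
    rw [Algebra.TensorProduct.tmul_mul_tmul, one_mul, mul_one]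
  have e12 : j1 (s l ⊗ₜ[R] (1 : T.P)) = j2 (s l ⊗ₜ[R] (1 : T.P)) := DFunLike.congr_fun h12 (s l)
  simp only [Matrix.mul_apply, Matrix.map_apply, Matrix.of_apply]
  have m2 : ∀ a b : S ⊗[R] T.P, j2 (a * b) = j2 a * j2 b := map_mul j2
  have m1 : ∀ a b : S ⊗[R] T.P, j1 (a * b) = j1 a * j1 b := map_mul j1
  rw [e i, m2]
  have hi' : j2 ((1 : S) ⊗ₜ[R] v l i) = _ := hi
  rw [hi', ← e12]
  simp only [Matrix.mulVec, dotProduct, Finset.mul_sum]
  refine Finset.sum_congr rfl fun m _ => ?_
  rw [e m, m1]
  have : (CAlg.comp j1 (T.inP S)) (v l m) = j1 ((1 : S) ⊗ₜ[R] v l m) := rfl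
  rw [this]
  ring

theorem Torsor.IsEqMat.mul_const {V : Matrix (Fin 2) (Fin 2) (T.SP S)}
    (hV : T.IsEqMat j S V) (C : Matrix (Fin 2) (Fin 2) S) :
    T.IsEqMat j S (V * C.map (T.inS S)) := by
  intro U j1 j2 h12
  have h := hV U j1 j2 h12
  have hC : (C.map (T.inS S)).map j2 = (C.map (T.inS S)).map j1 := by
    ext i l
    exact (DFunLike.congr_fun h12 (C i l)).symm
  have m1 : (V * C.map (T.inS S)).map j2 = V.map j2 * (C.map (T.inS S)).map j2 :=
    Matrix.map_mul (f := j2)
  have m2 : (V * C.map (T.inS S)).map j1 = V.map j1 * (C.map (T.inS S)).map j1 :=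
    Matrix.map_mul (f := j1)
  rw [m1, m2, h, hC, Matrix.mul_assoc]

theorem Torsor.IsEqMat.exists_section (hinj : ∀ S : CAlg K, Function.Injective (j.ι S))
    (N : G.obj (R.res (T.SP S))) (hV : T.IsEqMat j S (j.mat (T.SP S) N)) :
    Nonempty (T.P.Hom S) := by
  refine T.exists_section N ?_
  intro U j1 j2 h12
  apply hinj
  apply Subtype.ext
  have h := hV U j1 j2 h12
  rw [map_mul]
  have e1 : ((j.ι (R.res U) (G.map _ _ (R.resHom j2) N)) : Matrix (Fin 2) (Fin 2) U) =
      (j.mat (T.SP S) N).map j2 := j.mat_map _ _ j2 N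
  have e2 : ((j.ι (R.res U) (G.map _ _ (R.resHom j1) N)) : Matrix (Fin 2) (Fin 2) U) =
      (j.mat (T.SP S) N).map j1 := j.mat_map _ _ j1 N
  refine e1.trans (h.trans ?_)
  rw [← e2]
  rfl

/-- An invariant element of `P` comes from `R`. -/
theorem Torsor.exists_of_inv (d : T.P) (h : T.i1 d = T.i2 d) : ∃ r : R, algebraMap R T.P r = d :=
  (Algebra.IsEffective.of_faithfullyFlat R T.P d).mp (by
    rw [Algebra.TensorProduct.includeLeftSubRight_apply]; exact sub_eq_zero.mpr h)

/-- the determinant of two vectors -/
def det2 {P : Type u} [CommRing P] (v w : Fin 2 → P) : P := v 0 * w 1 - v 1 * w 0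

theorem det2_mulVec {P : Type u} [CommRing P] (g : Matrix (Fin 2) (Fin 2) P) (h : g.det = 1)
    (v w : Fin 2 → P) : det2 (g.mulVec v) (g.mulVec w) = det2 v w := by
  rw [Matrix.det_fin_two] at h
  simp only [det2, Matrix.mulVec, dotProduct, Fin.sum_univ_two]
  linear_combination (v 0 * w 1 - v 1 * w 0) * h

theorem det2_map {P P' : Type u} [CommRing P] [CommRing P'] (f : P →+* P') (v w : Fin 2 → P) :
    det2 (fun i => f (v i)) (fun i => f (w i)) = f (det2 v w) := by
  simp only [det2, map_sub, map_mul]

theorem Torsor.exists_det (v w : Fin 2 → T.P) (hv : v ∈ T.eqVec j) (hw : w ∈ T.eqVec j) :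
    ∃ r : R, algebraMap R T.P r = det2 v w := by
  apply T.exists_of_inv
  have h1 := hv T.PP T.i1 (T.diff T.i1 T.i2)
  have h2 := hw T.PP T.i1 (T.diff T.i1 T.i2)
  rw [T.act_diff] at h1 h2
  have e1 : det2 (fun i => T.i1 (v i)) (fun i => T.i1 (w i)) = T.i1 (det2 v w) :=
    det2_map T.i1.toRingHom v w
  have e2 : det2 (fun i => T.i2 (v i)) (fun i => T.i2 (w i)) = T.i2 (det2 v w) :=
    det2_map T.i2.toRingHom v w
  rw [← e1, ← e2, h1, h2, det2_mulVec _ (j.det_mat _ _)]

theorem det2_mem_span {P : Type u} [CommRing P] (E F : Set (Fin 2 → P)) (J : Ideal P)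
    (h : ∀ v ∈ E, ∀ w ∈ F, det2 v w ∈ J) (v w : Fin 2 → P) (hv : v ∈ Submodule.span P E)
    (hw : w ∈ Submodule.span P F) : det2 v w ∈ J := by
  induction hv using Submodule.span_induction with
  | zero => simp [det2]
  | add x y _ _ hx hy =>
    have : det2 (x + y) w = det2 x w + det2 y w := by simp only [det2, Pi.add_apply]; ring
    rw [this]; exact J.add_mem hx hy
  | smul a x _ hx =>
    have : det2 (a • x) w = a * det2 x w := by
      simp only [det2, Pi.smul_apply, smul_eq_mul]; ring
    rw [this]; exact J.mul_mem_left _ hx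
  | mem x hx =>
    induction hw using Submodule.span_induction with
    | zero => simp [det2]
    | add y z _ _ hy hz =>
      have : det2 x (y + z) = det2 x y + det2 x z := by simp only [det2, Pi.add_apply]; ring
      rw [this]; exact J.add_mem hy hz
    | smul a y _ hy =>
      have : det2 x (a • y) = a * det2 x y := by
        simp only [det2, Pi.smul_apply, smul_eq_mul]; ring
      rw [this]; exact J.mul_mem_left _ hy
    | mem y hy => exact h x hx y hy

end

section special

variable {K : Type u} [CommRing K] {G : GroupFunctor K} (j : ToSL2 G)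

theorem special_of_section {R : CAlg K} (T : Torsor G R)
    (h : Nonempty (T.P →ₐ[R] R)) : T.IsZariskiLocallyTrivial := by
  obtain ⟨q⟩ := h
  refine ⟨{1}, by rw [Ideal.span_singleton_one], fun f _ => ⟨(Algebra.ofId R _).comp q⟩⟩

/-- constant vectors fixed by the group are equivariant -/
theorem const_mem_eqVec {R : CAlg K} (T : Torsor G R) (w : Fin 2 → K)
    (hw : ∀ (S : CAlg K) (g : G.obj S),
      (j.ι S g : Matrix (Fin 2) (Fin 2) S).mulVec
        (fun i => algebraMap K S (w i)) = fun i => algebraMap K S (w i)) :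
    (fun i => algebraMap R T.P (algebraMap K R (w i))) ∈ T.eqVec j := by
  intro S p g
  have e : ∀ (q : T.P.Hom S) (i : Fin 2), q (algebraMap R T.P (algebraMap K R (w i))) =
      algebraMap R S (algebraMap K R (w i)) := fun q i => q.commutes _
  simp only [e]
  exact (hw (R.res S) g⁻¹).symm

/-- Subgroups of `SL₂` fixing vectors are special. -/
theorem special_of_fix (hK : IsField K) {ι : Type} (x0 : ι → Fin 2 → K)
    (hinj : ∀ S : CAlg K, Function.Injective (j.ι S))
    (hr : ∀ (S : CAlg K) (g : Matrix.SpecialLinearGroup (Fin 2) S),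
      (∃ h, j.ι S h = g) ↔ ∀ l, (g : Matrix (Fin 2) (Fin 2) S).mulVec
        (fun i => algebraMap K S (x0 l i)) = fun i => algebraMap K S (x0 l i)) :
    G.IsSpecial := by
  intro R T
  by_cases h0 : ∀ l, x0 l = 0
  · -- the whole group
    have hall : ∀ (S : CAlg K) (g : Matrix.SpecialLinearGroup (Fin 2) S), ∃ h, j.ι S h = g := by
      intro S g
      rw [hr]
      intro l
      have : (fun i => algebraMap K S (x0 l i)) = 0 := by
        funext i; rw [h0 l]; simp
      rw [this, Matrix.mulVec_zero]
    refine ⟨{f | ∃ v ∈ T.eqVec j, ∃ w ∈ T.eqVec j, algebraMap R T.P f = det2 v w}, ?_, ?_⟩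
    · apply Ideal.map_injective_of_faithfullyFlat (B := T.P)
      rw [Ideal.map_top, Ideal.eq_top_iff_one]
      have h1 : det2 (Pi.single 0 1 : Fin 2 → T.P) (Pi.single 1 1) = 1 := by simp [det2]
      rw [← h1]
      refine det2_mem_span (T.eqVec j) (T.eqVec j) _ ?_ _ _ (by rw [T.span_eqVec j]; trivial)
        (by rw [T.span_eqVec j]; trivial)
      intro v hv w hw
      obtain ⟨r, hrr⟩ := T.exists_det j v w hv hw
      rw [← hrr]
      exact Ideal.mem_map_of_mem _ (Ideal.subset_span ⟨v, hv, w, hw, hrr⟩)
    · rintro f ⟨v, hv, w, hw, hf⟩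
      let S : CAlg R := ⟨Localization.Away f⟩
      let s : S := (IsLocalization.Away.invSelf f : Localization.Away f)
      have hs : algebraMap R S f * s = 1 := IsLocalization.Away.mul_invSelf f
      let V : Matrix (Fin 2) (Fin 2) (T.SP S) :=
        Matrix.of fun i l => (![s, 1] : Fin 2 → S) l ⊗ₜ[R] (![v, w] : Fin 2 → Fin 2 → T.P) l i
      have hV : T.IsEqMat j S V := T.isEqMat_cols j _ _ (by
        intro l; fin_cases l
        · exact hv
        · exact hw)
      have hdet : V.det = 1 := by
        rw [Matrix.det_fin_two]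
        simp only [V, Matrix.of_apply, Matrix.cons_val_zero, Matrix.cons_val_one,
          Algebra.TensorProduct.tmul_mul_tmul, mul_one, one_mul]
        rw [← TensorProduct.tmul_sub]
        have e : v 0 * w 1 - w 0 * v 1 = f • (1 : T.P) := by
          rw [Algebra.smul_def, mul_one, hf, det2]; ring
        rw [e, ← TensorProduct.smul_tmul, Algebra.smul_def, hs]
        rfl
      obtain ⟨N, hN⟩ := hall (R.res (T.SP S)) ⟨V, hdet⟩
      exact Torsor.IsEqMat.exists_section T j hinj N (by rw [ToSL2.mat, hN]; exact hV)
  · push Not at h0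
    obtain ⟨l0, hl0⟩ := h0
    set w : Fin 2 → K := x0 l0 with hwdef
    -- a complementary vector
    have hu : ∃ u : Fin 2 → K, det2 w u = 1 := by
      by_cases hw0 : w 0 = 0
      · have hw1 : w 1 ≠ 0 := by
          intro hw1
          apply hl0
          funext i; fin_cases i
          · exact hw0
          · exact hw1
        obtain ⟨b, hb⟩ := hK.mul_inv_cancel hw1
        exact ⟨![-b, 0], by simp [det2, hb]⟩
      · obtain ⟨b, hb⟩ := hK.mul_inv_cancel hw0
        exact ⟨![0, b], by simp [det2, hb]⟩
    obtain ⟨u, hu⟩ := hu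
    have hw1 : w 0 * u 1 - w 1 * u 0 = 1 := hu
    by_cases hd : ∀ l, det2 w (x0 l) = 0
    · -- rank one
      have hc : ∀ l i, x0 l i = w i * det2 (x0 l) u := by
        intro l i
        have h1 := hd l
        simp only [det2] at h1 ⊢
        fin_cases i
        · simp only [Fin.zero_eta]
          linear_combination (-(x0 l 0)) * hw1 + (u 0) * h1
        · simp only [Fin.mk_one]
          linear_combination (-(x0 l 1)) * hw1 + (u 1) * h1
      have hfix : ∀ (S : CAlg K)
          (g : Matrix.SpecialLinearGroup (Fin 2) S),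
          (∃ h, j.ι S h = g) ↔ (g : Matrix (Fin 2) (Fin 2) S).mulVec
            (fun i => algebraMap K S (w i)) = fun i => algebraMap K S (w i) := by
        intro S g
        rw [hr]
        constructor
        · intro h
          exact h l0
        · intro h l
          have e : (fun i => algebraMap K S (x0 l i)) =
              algebraMap K S (det2 (x0 l) u) • (fun i => algebraMap K S (w i)) := by
            funext i
            rw [hc l i, map_mul, Pi.smul_apply, smul_eq_mul, mul_comm]
          rw [e, Matrix.mulVec_smul, h]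
      have hwE : (fun i => algebraMap R T.P (algebraMap K R (w i))) ∈ T.eqVec j :=
        const_mem_eqVec j T w (fun S g => (hfix S (j.ι S g)).mp ⟨g, rfl⟩)
      have hv : ∃ v ∈ T.eqVec j, det2 (fun i => algebraMap R T.P (algebraMap K R (w i))) v = 1 := by
        let D : (Fin 2 → T.P) →ₗ[R] T.P :=
          LinearMap.mulLeft R (algebraMap R T.P (algebraMap K R (w 0))) ∘ₗ LinearMap.proj 1 -
          LinearMap.mulLeft R (algebraMap R T.P (algebraMap K R (w 1))) ∘ₗ LinearMap.proj 0
        have hD : ∀ v, D v = det2 (fun i => algebraMap R T.P (algebraMap K R (w i))) v := fun v => rfl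
        let I : Ideal R := Submodule.comap (Algebra.linearMap R T.P) (Submodule.map D (T.eqVec j))
        have hI : I = ⊤ := by
          apply Ideal.map_injective_of_faithfullyFlat (B := T.P)
          rw [Ideal.map_top, Ideal.eq_top_iff_one]
          have h1 : det2 (fun i => algebraMap R T.P (algebraMap K R (w i)))
              (fun i => algebraMap R T.P (algebraMap K R (u i))) = 1 := by
            have := det2_map ((algebraMap R T.P).comp (algebraMap K R)) w u
            rw [hu, map_one] at this
            exact this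
          rw [← h1]
          refine det2_mem_span {(fun i => algebraMap R T.P (algebraMap K R (w i)))} (T.eqVec j) _ ?_ _ _
            (Submodule.subset_span rfl) (by rw [T.span_eqVec j]; trivial)
          rintro v rfl v' hv'
          obtain ⟨r, hrr⟩ := T.exists_det j _ v' hwE hv'
          rw [← hrr]
          refine Ideal.mem_map_of_mem _ ?_
          exact ⟨v', hv', (hD v').trans hrr.symm⟩
        have h1 : (1 : R) ∈ I := hI ▸ trivial
        obtain ⟨v, hv, hvD⟩ := h1
        exact ⟨v, hv, by rw [← hD, hvD]; simp⟩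
      obtain ⟨v, hvE, hv⟩ := hv
      apply special_of_section
      let S : CAlg R := ⟨R⟩
      let V : Matrix (Fin 2) (Fin 2) (T.SP S) :=
        Matrix.of fun i l => (![1, 1] : Fin 2 → S) l ⊗ₜ[R]
          (![(fun i => algebraMap R T.P (algebraMap K R (w i))), v] : Fin 2 → Fin 2 → T.P) l i
      have hV : T.IsEqMat j S V := T.isEqMat_cols j _ _ (by
        intro l; fin_cases l
        · exact hwE
        · exact hvE)
      let C : Matrix (Fin 2) (Fin 2) S := !![algebraMap K R (u 1), -algebraMap K R (u 0);
        -algebraMap K R (w 1), algebraMap K R (w 0)]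
      have hV' := hV.mul_const T j C
      have hRK : ∀ x : R, (x : S) ⊗ₜ[R] (1 : T.P) = (1 : S) ⊗ₜ[R] (algebraMap R T.P x) := by
        intro x
        calc (x : S) ⊗ₜ[R] (1 : T.P) = (x • (1 : S)) ⊗ₜ[R] (1 : T.P) :=
              congrArg (fun y : S => y ⊗ₜ[R] (1 : T.P)) (mul_one x).symm
          _ = (1 : S) ⊗ₜ[R] (x • (1 : T.P)) := TensorProduct.smul_tmul _ _ _
          _ = _ := by rw [Algebra.smul_def, mul_one]
      have hdetV : V.det = 1 := by
        rw [Matrix.det_fin_two]
        simp only [V, Matrix.of_apply, Matrix.cons_val_zero, Matrix.cons_val_one,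
          Algebra.TensorProduct.tmul_mul_tmul, mul_one]
        rw [← TensorProduct.tmul_sub]
        have e : algebraMap R T.P (algebraMap K R (w 0)) * v 1 -
            v 0 * algebraMap R T.P (algebraMap K R (w 1)) = 1 := by
          rw [← hv, det2]; ring
        rw [e]; rfl
      have hdetC : C.det = 1 := by
        rw [Matrix.det_fin_two]
        simp only [C, Matrix.of_apply, Matrix.cons_val_zero, Matrix.cons_val_one,
          Matrix.cons_val', Matrix.cons_val_fin_one]
        have := congrArg (algebraMap K R) hw1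
        rw [map_sub, map_mul, map_mul, map_one] at this
        linear_combination this
      have hdetC' : (C.map (T.inS S)).det = 1 := by
        have := RingHom.map_det ((T.inS S).toRingHom) C
        rw [hdetC, map_one] at this
        exact this.symm
      have hdet : (V * C.map (T.inS S)).det = 1 := by
        have e := Matrix.det_mul V (C.map (T.inS S))
        rw [hdetV, hdetC', one_mul] at e
        exact e
      have hVw : ∀ i, V i 0 = algebraMap K (R.res (T.SP S)) (w i) := by
        intro i
        exact (hRK (algebraMap K R (w i))).symm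
      have hCw : (C.map (T.inS S)).mulVec
          (fun i => algebraMap K (R.res (T.SP S)) (w i)) = ![1, 0] := by
        have hK' : ∀ x : K, (T.inS S) (algebraMap K R x) = algebraMap K (R.res (T.SP S)) x :=
          fun x => rfl
        have hw2 : algebraMap K (R.res (T.SP S)) (w 0) * algebraMap K (R.res (T.SP S)) (u 1) -
          algebraMap K (R.res (T.SP S)) (w 1) * algebraMap K (R.res (T.SP S)) (u 0) = 1 := by
          rw [← map_mul, ← map_mul, ← map_sub, hw1, map_one]
        have c00 : (C.map (T.inS S)) 0 0 = algebraMap K (R.res (T.SP S)) (u 1) := rfl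
        have c01 : (C.map (T.inS S)) 0 1 = -algebraMap K (R.res (T.SP S)) (u 0) :=
          (map_neg (T.inS S) (algebraMap K R (u 0)))
        have c10 : (C.map (T.inS S)) 1 0 = -algebraMap K (R.res (T.SP S)) (w 1) :=
          (map_neg (T.inS S) (algebraMap K R (w 1)))
        have c11 : (C.map (T.inS S)) 1 1 = algebraMap K (R.res (T.SP S)) (w 0) := rfl
        funext i
        fin_cases i
        · show (C.map (T.inS S)).mulVec _ 0 = (1 : (T.SP S))
          rw [Matrix.mulVec, dotProduct, Fin.sum_univ_two, c00, c01]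
          linear_combination hw2
        · show (C.map (T.inS S)).mulVec _ 1 = (0 : (T.SP S))
          rw [Matrix.mulVec, dotProduct, Fin.sum_univ_two, c10, c11]
          ring
      obtain ⟨N, hN⟩ := (hfix (R.res (T.SP S)) ⟨_, hdet⟩).mpr (by
        refine (Matrix.mulVec_mulVec _ V (C.map (T.inS S))).symm.trans
          ((congrArg V.mulVec hCw).trans ?_)
        funext i
        simp only [Matrix.mulVec, dotProduct, Fin.sum_univ_two, Matrix.cons_val_zero,
          Matrix.cons_val_one, mul_one, mul_zero, add_zero]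
        exact hVw i)
      exact Torsor.IsEqMat.exists_section T j (S := S) hinj N (by rw [ToSL2.mat, hN]; exact hV')
    · -- trivial group
      push Not at hd
      obtain ⟨l1, hl1⟩ := hd
      obtain ⟨d, hd⟩ := hK.mul_inv_cancel hl1
      have htriv : ∀ (S : CAlg K) (g : G.obj S), g = 1 := by
        intro S g
        apply hinj
        apply Subtype.ext
        rw [map_one]
        have h := (hr S (j.ι S g)).mp ⟨g, rfl⟩
        have h0 := h l0
        have h1 := h l1
        have hdS : (algebraMap K S (w 0) * algebraMap K S (x0 l1 1) -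
            algebraMap K S (w 1) * algebraMap K S (x0 l1 0)) * algebraMap K S d = 1 := by
          rw [← map_mul, ← map_mul, ← map_sub, ← map_mul, ← map_one (algebraMap K S), ← hd]
          rfl
        have a0 := congrFun h0 0
        have a1 := congrFun h0 1
        have b0 := congrFun h1 0
        have b1 := congrFun h1 1
        simp only [Matrix.mulVec, dotProduct, Fin.sum_univ_two, ← hwdef] at a0 a1 b0 b1
        have e : (j.ι S g : Matrix (Fin 2) (Fin 2) S) = 1 := by
          ext i l
          fin_cases i <;> fin_cases l <;> simp [Matrix.one_apply]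
          · linear_combination (1 - (j.ι S g : Matrix (Fin 2) (Fin 2) S) 0 0) * hdS +
              algebraMap K S d * (a0 * algebraMap K S (x0 l1 1) - b0 * algebraMap K S (w 1))
          · linear_combination (- (j.ι S g : Matrix (Fin 2) (Fin 2) S) 0 1) * hdS -
              algebraMap K S d * (a0 * algebraMap K S (x0 l1 0) - b0 * algebraMap K S (w 0))
          · linear_combination (- (j.ι S g : Matrix (Fin 2) (Fin 2) S) 1 0) * hdS +
              algebraMap K S d * (a1 * algebraMap K S (x0 l1 1) - b1 * algebraMap K S (w 1))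
          · linear_combination (1 - (j.ι S g : Matrix (Fin 2) (Fin 2) S) 1 1) * hdS -
              algebraMap K S d * (a1 * algebraMap K S (x0 l1 0) - b1 * algebraMap K S (w 0))
        exact e
      apply special_of_section
      let S : CAlg R := ⟨R⟩
      refine T.exists_section (S := S) 1 ?_
      intro U j1 j2 _
      rw [htriv _ (G.map _ _ (R.resHom j2) 1)]
      exact (htriv _ _).symm

end special

end Pool.Agent.Hhelper17.Lift
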