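import Mathlib
import Pool.Agent.Hhelper17.Lift.Special

set_option linter.all false

namespace Pool.Agent.Hhelper17.Lift

open scoped TensorProduct

universe u

/-- The group functor `SL₂`. -/
def SL2 (k : Type u) [CommRing k] : GroupFunctor k where
  obj S := Matrix.SpecialLinearGroup (Fin 2) S
  map S T f g := Matrix.SpecialLinearGroup.map f.toRingHom g
  map_mul S T f g h := map_mul _ _ _
  map_id S g := by
    refine Subtype.ext ?_
    ext i l; rfl
  map_comp S T U e f g := by
    refine Subtype.ext ?_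
    ext i l; rfl

/-- the matrix of an element of `SL₂(S)` -/
def SL2.mat {k : Type u} [CommRing k] {S : CAlg k}
    (g : (SL2 k).obj S) : Matrix (Fin 2) (Fin 2) S := Subtype.val (p := fun A => A.det = 1) g

/-- The ring of functions on `2 × 3` matrices. -/
noncomputable abbrev M23 (k : Type u) [CommRing k] : CAlg k := ⟨MvPolynomial (Fin 2 × Fin 3) k⟩

section

variable {k : Type u} [CommRing k]

section

variable {S : CAlg k}

theorem SL2.mat_one : SL2.mat (1 : (SL2 k).obj S) = 1 := rfl

theorem SL2.mat_mul (g h : (SL2 k).obj S) : SL2.mat (g * h) = SL2.mat g * SL2.mat h := rfl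

theorem SL2.det_mat (g : (SL2 k).obj S) : (SL2.mat g).det = 1 := Subtype.property g

theorem SL2.mat_inv (g : (SL2 k).obj S) : SL2.mat g⁻¹ = (SL2.mat g).adjugate := rfl

theorem SL2.mat_inv_mul (g : (SL2 k).obj S) : SL2.mat g⁻¹ * SL2.mat g = 1 := by
  rw [← SL2.mat_mul, inv_mul_cancel, SL2.mat_one]

theorem SL2.mat_mul_inv (g : (SL2 k).obj S) : SL2.mat g * SL2.mat g⁻¹ = 1 := by
  rw [← SL2.mat_mul, mul_inv_cancel, SL2.mat_one]

theorem SL2.mat_map {T : CAlg k} (f : S.Hom T) (g : (SL2 k).obj S) :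
    SL2.mat ((SL2 k).map S T f g) = (SL2.mat g).map f := rfl

/-- a matrix of determinant one -/
def SL2.mk (N : Matrix (Fin 2) (Fin 2) S) (h : N.det = 1) : (SL2 k).obj S :=
  (⟨N, h⟩ : Matrix.SpecialLinearGroup (Fin 2) S)

theorem SL2.mat_mk (N : Matrix (Fin 2) (Fin 2) S) (h : N.det = 1) :
    SL2.mat (SL2.mk (k := k) N h) = N := rfl

theorem SL2.ext {g h : (SL2 k).obj S} (e : SL2.mat g = SL2.mat h) : g = h := Subtype.ext e

/-- the matrix of a point -/
noncomputable def matOf (x : (M23 k).Hom S) : Matrix (Fin 2) (Fin 3) S :=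
  Matrix.of fun i l => x (MvPolynomial.X (i, l) : MvPolynomial (Fin 2 × Fin 3) k)

/-- the point of a matrix -/
noncomputable def ofMat (N : Matrix (Fin 2) (Fin 3) S) :
    (M23 k).Hom S := MvPolynomial.aeval fun a => N a.1 a.2

theorem matOf_ofMat (N : Matrix (Fin 2) (Fin 3) S) :
    matOf (ofMat (k := k) N) = N := by
  ext i l
  exact MvPolynomial.aeval_X _ _

theorem ofMat_matOf (x : (M23 k).Hom S) :
    ofMat (matOf x) = x := by
  apply MvPolynomial.algHom_ext
  rintro ⟨i, l⟩
  exact MvPolynomial.aeval_X _ _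

theorem matOf_inj {x y : (M23 k).Hom S}
    (h : matOf x = matOf y) : x = y := by
  rw [← ofMat_matOf x, h, ofMat_matOf]

theorem matOf_comp {T : CAlg k} (f : S.Hom T) (x : (M23 k).Hom S) :
    matOf (CAlg.comp f x) = (matOf x).map f := by
  ext i l; rfl

end

variable (k) in
/-- `SL₂` acts on `2 × 3` matrices by left multiplication. -/
noncomputable def mat23 : GAction (SL2 k) (M23 k) where
  act S g x := ofMat (SL2.mat g * matOf x)
  one_act S x := by
    apply matOf_inj
    rw [matOf_ofMat, SL2.mat_one, Matrix.one_mul]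
  mul_act S g h x := by
    apply matOf_inj
    rw [matOf_ofMat, matOf_ofMat, matOf_ofMat, ← Matrix.mul_assoc, SL2.mat_mul]
  map_act S T f g x := by
    apply matOf_inj
    rw [matOf_ofMat, matOf_comp, matOf_ofMat, matOf_comp, SL2.mat_map]
    exact Matrix.map_mul

theorem matOf_act {S : CAlg k} (g : (SL2 k).obj S)
    (x : (M23 k).Hom S) : matOf ((mat23 k).act S g x) = SL2.mat g * matOf x := matOf_ofMat _

end

/-- Stabilizers of points of `[Mat₂ₓ₃ / SL₂]` are special. -/
theorem stabilizer_special {k : Type u} [CommRing k] (K : CAlg k) (hK : IsField K)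
    (x : (M23 k).Hom K) : (stabilizer (mat23 k) K x).IsSpecial := by
  let j : ToSL2 (stabilizer (mat23 k) K x) :=
    { ι := fun S => ((mat23 k).fix (CAlg.comp (K.str S) x)).subtype
      natural := fun S T f g => rfl }
  refine special_of_fix j hK (fun l i => matOf x i l) ?_ ?_
  · intro S
    exact Subtype.val_injective
  · intro S g
    have hmem : ∀ g : (SL2 k).obj (K.res S), g ∈ (mat23 k).fix (CAlg.comp (K.str S) x) ↔
        ∀ l, (SL2.mat g).mulVec (fun i => algebraMap K S (matOf x i l)) =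
          fun i => algebraMap K S (matOf x i l) := by
      intro g
      constructor
      · intro h l
        have h1 : (mat23 k).act _ g (CAlg.comp (K.str S) x) = (CAlg.comp (K.str S) x) := h
        have h2 := congrArg matOf h1
        rw [matOf_act] at h2
        funext i
        exact congrFun (congrFun h2 i) l
      · intro h
        show (mat23 k).act _ g (CAlg.comp (K.str S) x) = (CAlg.comp (K.str S) x)
        apply matOf_inj
        rw [matOf_act]
        ext i l
        exact congrFun (h l) i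
    constructor
    · rintro ⟨h, rfl⟩
      exact (hmem _).mp h.2
    · intro h
      exact ⟨⟨g, (hmem g).mpr h⟩, rfl⟩

/-! ### The maximal minors -/

section pl

theorem fin3_cases : ∀ l j : Fin 3, l = j ∨ l = j + 1 ∨ l = j + 2 := by decide

theorem fin3_add : ∀ j : Fin 3, j + 1 + 1 = j + 2 ∧ j + 1 + 2 = j ∧ j + 2 + 1 = j ∧
    j + 2 + 2 = j + 1 := by decide

theorem fin3_ne : ∀ j : Fin 3, j ≠ j + 1 ∧ j ≠ j + 2 ∧ j + 2 ≠ j + 1 ∧ j + 1 ≠ j ∧ j + 2 ≠ j := by
  decide

/-- the maximal minors -/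
def pl {S : Type u} [CommRing S] (M : Matrix (Fin 2) (Fin 3) S) (j : Fin 3) : S :=
  M 0 (j + 1) * M 1 (j + 2) - M 0 (j + 2) * M 1 (j + 1)

variable {S : Type u} [CommRing S]

theorem pl_map {T : Type u} [CommRing T] (f : S →+* T) (M : Matrix (Fin 2) (Fin 3) S) (j : Fin 3) :
    pl (M.map f) j = f (pl M j) := by
  simp only [pl, Matrix.map_apply, map_sub, map_mul]

theorem pl_mul (g : Matrix (Fin 2) (Fin 2) S) (M : Matrix (Fin 2) (Fin 3) S) (j : Fin 3) :
    pl (g * M) j = g.det * pl M j := by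
  simp only [pl, Matrix.mul_apply, Fin.sum_univ_two, Matrix.det_fin_two]
  ring

theorem pl_rel (M : Matrix (Fin 2) (Fin 3) S) (i : Fin 2) (j : Fin 3) :
    pl M j * M i j + pl M (j + 1) * M i (j + 1) + pl M (j + 2) * M i (j + 2) = 0 := by
  have h := fin3_add j
  simp only [pl, h.1, h.2.1, h.2.2.1, h.2.2.2]
  fin_cases i <;> simp <;> ring

/-- the `2 × 2` block opposite to the column `j` -/
def blk (M : Matrix (Fin 2) (Fin 3) S) (j : Fin 3) : Matrix (Fin 2) (Fin 2) S :=
  !![M 0 (j + 1), M 0 (j + 2); M 1 (j + 1), M 1 (j + 2)]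

theorem det_blk (M : Matrix (Fin 2) (Fin 3) S) (j : Fin 3) : (blk M j).det = pl M j := by
  rw [blk, Matrix.det_fin_two_of]; rfl

theorem blk_mul (g : Matrix (Fin 2) (Fin 2) S) (M : Matrix (Fin 2) (Fin 3) S) (j : Fin 3) :
    blk (g * M) j = g * blk M j := by
  ext a b
  fin_cases a <;> fin_cases b <;> simp [blk, Matrix.mul_apply, Fin.sum_univ_two]

theorem eq_one_of_mul_eq {g : Matrix (Fin 2) (Fin 2) S} {N : Matrix (Fin 2) (Fin 3) S} {j : Fin 3}
    (hN : IsUnit (pl N j)) (h : N = g * N) : g = 1 := by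
  have h1 : blk N j = g * blk N j := by rw [← blk_mul, ← h]
  have hu : IsUnit (blk N j) := (Matrix.isUnit_iff_isUnit_det _).mpr (by rw [det_blk]; exact hN)
  have h2 : (1 : Matrix (Fin 2) (Fin 2) S) * blk N j = g * blk N j := by rw [← h1, one_mul]
  rw [hu.mul_left_inj] at h2
  exact h2.symm

theorem exists_of_pl_eq (M N : Matrix (Fin 2) (Fin 3) S) (h : ∀ j, pl M j = pl N j) {j : Fin 3}
    (hu : IsUnit (pl M j)) : ∃ g : Matrix (Fin 2) (Fin 2) S, g.det = 1 ∧ M = g * N := by
  obtain ⟨e, he⟩ := hu.exists_right_inv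
  let g := blk M j * (e • (blk N j).adjugate)
  have hg : g * blk N j = blk M j := by
    rw [Matrix.mul_assoc, Matrix.smul_mul, Matrix.adjugate_mul, det_blk, ← h j, smul_smul,
      mul_comm e, he, one_smul, Matrix.mul_one]
  have hdet : g.det = 1 := by
    have h1 := congrArg Matrix.det hg
    rw [Matrix.det_mul, det_blk, det_blk, ← h j] at h1
    calc g.det = g.det * (pl M j * e) := by rw [he, mul_one]
      _ = (g.det * pl M j) * e := by ring
      _ = 1 := by rw [h1, he]
  refine ⟨g, hdet, ?_⟩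
  have hN : ∀ i, (g * N) i (j + 1) = M i (j + 1) ∧ (g * N) i (j + 2) = M i (j + 2) := by
    intro i
    have h0 := congrFun (congrFun hg i) 0
    have h1 := congrFun (congrFun hg i) 1
    rw [← blk_mul] at h0 h1
    fin_cases i
    · exact ⟨h0, h1⟩
    · exact ⟨h0, h1⟩
  have hcol : ∀ i, (g * N) i j = M i j := by
    intro i
    have r1 := pl_rel M i j
    have r2 := pl_rel (g * N) i j
    rw [(hN i).1, (hN i).2, pl_mul, pl_mul, pl_mul, hdet, one_mul, one_mul, one_mul,
      ← h, ← h, ← h] at r2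
    have r3 : pl M j * ((g * N) i j) = pl M j * M i j := by
      linear_combination r2 - r1
    exact hu.mul_left_cancel r3
  ext i l
  have hl := fin3_cases l j
  rcases hl with rfl | rfl | rfl
  · exact (hcol i).symm
  · exact (hN i).1.symm
  · exact (hN i).2.symm

/-- the normal form -/
def nf (j : Fin 3) (d : Fin 3 → S) (e : S) : Matrix (Fin 2) (Fin 3) S := fun i l =>
  if l = j then ![-(d (j + 1)) * e, -(d (j + 2))] i else
    if l = j + 1 then ![1, 0] i else ![0, d j] i

theorem pl_nf (j : Fin 3) (d : Fin 3 → S) (e : S) (he : d j * e = 1) (l : Fin 3) :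
    pl (nf j d e) l = d l := by
  have hl := fin3_cases l j
  obtain ⟨a1, a2, a3, a4, a5⟩ := fin3_ne j
  obtain ⟨b1, b2, b3, b4⟩ := fin3_add j
  rcases hl with rfl | rfl | rfl
  · simp [pl, nf, a4, a5, a3]
  · simp only [pl, b1, b2, nf, if_neg a5, if_neg a3, if_true]
    simp only [Matrix.cons_val_zero, Matrix.cons_val_one]
    linear_combination (d (j + 1)) * he
  · simp only [pl, b3, b4, nf, if_neg a4, if_true]
    simp

theorem blk_nf (j : Fin 3) (d : Fin 3 → S) (e : S) : blk (nf j d e) j = !![1, 0; 0, d j] := by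
  obtain ⟨a1, a2, a3, a4, a5⟩ := fin3_ne j
  ext a b
  fin_cases a <;> fin_cases b <;> simp [blk, nf, a3, a4, a5]

theorem nf_map {T : Type u} [CommRing T] (f : S →+* T) (j : Fin 3) (d : Fin 3 → S) (e : S) :
    (nf j d e).map f = nf j (fun l => f (d l)) (f e) := by
  ext i l
  simp only [Matrix.map_apply, nf]
  split_ifs <;> fin_cases i <;> simp

end pl

end Pool.Agent.Hhelper17.Lift
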