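import Mathlib
import Pool.Agent.Hhelper17.Lift.Mat

set_option linter.all false

namespace Pool.Agent.Hhelper17.Lift

open scoped TensorProduct

universe u

/-- The ring of functions on `2 × 2` matrices. -/
noncomputable abbrev M2 (k : Type u) [CommRing k] := MvPolynomial (Fin 2 × Fin 2) k

section

variable (k : Type u) [CommRing k]

/-- the determinant -/
noncomputable def detX : M2 k :=
  MvPolynomial.X (0, 0) * MvPolynomial.X (1, 1) - MvPolynomial.X (0, 1) * MvPolynomial.X (1, 0)

/-- functions on `SL₂` -/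
noncomputable abbrev HSL := M2 k ⧸ Ideal.span {detX k - 1}

/-- functions on `SL₂` -/
noncomputable abbrev HS : CAlg k := ⟨HSL k⟩

/-- the universal element of `SL₂` -/
noncomputable def uH : (SL2 k).obj (HS k) :=
  SL2.mk (S := HS k) (Matrix.of fun i l => (Ideal.Quotient.mk _ (MvPolynomial.X (i, l)) : HSL k)) (by
    rw [Matrix.det_fin_two]
    simp only [Matrix.of_apply]
    rw [← map_mul, ← map_mul, ← map_sub, ← sub_eq_zero, ← map_one (Ideal.Quotient.mk _),
      ← map_sub]
    exact Ideal.Quotient.eq_zero_iff_mem.mpr (Ideal.subset_span rfl))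

variable {k}

/-- the point of a matrix -/
noncomputable def ofMat2 {S : CAlg k} (N : Matrix (Fin 2) (Fin 2) S) : M2 k →ₐ[k] S :=
  MvPolynomial.aeval fun a => N a.1 a.2

theorem ofMat2_X {S : CAlg k} (N : Matrix (Fin 2) (Fin 2) S) (i l : Fin 2) :
    ofMat2 N (MvPolynomial.X (i, l)) = N i l := MvPolynomial.aeval_X _ _

theorem ofMat2_detX {S : CAlg k} (N : Matrix (Fin 2) (Fin 2) S) :
    ofMat2 N (detX k) = N.det := by
  rw [Matrix.det_fin_two, detX, map_sub, map_mul, map_mul, ofMat2_X, ofMat2_X, ofMat2_X, ofMat2_X]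

/-- the point of `SL₂` -/
noncomputable def ofSL {S : CAlg k} (g : (SL2 k).obj S) : (HS k).Hom S :=
  Ideal.Quotient.liftₐ _ (ofMat2 (SL2.mat g)) (by
    intro a ha
    have : Ideal.span {detX k - 1} ≤ RingHom.ker (ofMat2 (k := k) (SL2.mat g)) := by
      rw [Ideal.span_le]
      rintro _ rfl
      rw [SetLike.mem_coe, RingHom.mem_ker, map_sub, ofMat2_detX, SL2.det_mat,
        map_one, sub_self]
    exact this ha)

theorem ofSL_mk {S : CAlg k} (g : (SL2 k).obj S) (P : M2 k) :
    ofSL g (Ideal.Quotient.mk _ P : HSL k) = ofMat2 (SL2.mat g) P := rfl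

theorem map_ofSL {S : CAlg k} (g : (SL2 k).obj S) :
    (SL2 k).map _ _ (ofSL g) (uH k) = g := by
  apply SL2.ext
  rw [SL2.mat_map]
  ext i l
  exact (ofSL_mk g _).trans (ofMat2_X _ i l)

theorem ofSL_map {S : CAlg k} (f : (HS k).Hom S) :
    ofSL ((SL2 k).map _ _ f (uH k)) = f := by
  apply Ideal.Quotient.algHom_ext
  apply MvPolynomial.algHom_ext
  rintro ⟨i, l⟩
  exact (ofMat2_X _ i l)

theorem hom_ext {S : CAlg k} {f f' : (HS k).Hom S}
    (h : (SL2 k).map _ _ f (uH k) = (SL2 k).map _ _ f' (uH k)) : f = f' := by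
  rw [← ofSL_map f, h, ofSL_map]

variable (k) in
theorem SL2_linearAlgebraic : (SL2 k).IsLinearAlgebraic := by
  refine ⟨HS k, uH k, (inferInstance : Algebra.FiniteType k (HSL k)), ?_⟩
  intro S
  exact ⟨fun f f' h => hom_ext h, fun g => ⟨ofSL g, map_ofSL g⟩⟩

end

section triv

variable {k : Type u} [Field k]

/-- the trivial algebra `k` -/
abbrev kk (k : Type u) [CommRing k] : CAlg k := ⟨k⟩

instance : Nontrivial (HSL k) := (ofSL (1 : (SL2 k).obj (kk k))).toRingHom.domain_nontrivial

section PT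

variable (R : CAlg k)

/-- functions on the trivial torsor over `R` -/
noncomputable def PT : CAlg R := ⟨R ⊗[k] HSL k⟩

instance : Module.FaithfullyFlat R (PT R) :=
  (inferInstance : Module.FaithfullyFlat R (R ⊗[k] HSL k))

/-- pull-back from `SL₂` to the trivial torsor -/
noncomputable def inclH : (HS k).Hom (R.res (PT R)) :=
  { (Algebra.TensorProduct.includeRight : HSL k →ₐ[k] R ⊗[k] HSL k).toRingHom with
    commutes' := fun c => by
      have h1 := (Algebra.TensorProduct.includeRight : HSL k →ₐ[k] R ⊗[k] HSL k).commutes c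
      exact h1.trans (IsScalarTower.algebraMap_apply k R (R ⊗[k] HSL k) c) }

theorem inclH_apply (h : HSL k) : inclH R h = (1 : R) ⊗ₜ[k] h := rfl

variable {R}

/-- the point of the trivial torsor given by a point of `SL₂` -/
noncomputable def liftPT {S : CAlg R} (f : (HS k).Hom (R.res S)) : (PT R).Hom S :=
  letI : Algebra k S := (R.res S).algebra
  haveI : IsScalarTower k R S := (inferInstance : IsScalarTower k R (R.res S))
  (Algebra.TensorProduct.lift (Algebra.ofId R S) f (fun _ _ => Commute.all _ _) :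
    R ⊗[k] HSL k →ₐ[R] S)

theorem liftPT_tmul {S : CAlg R} (f : (HS k).Hom (R.res S)) (r : R) (h : HSL k) :
    liftPT f (r ⊗ₜ[k] h) = algebraMap R S r * f h := by
  letI : Algebra k S := (R.res S).algebra
  haveI : IsScalarTower k R S := (inferInstance : IsScalarTower k R (R.res S))
  exact (Algebra.TensorProduct.lift_tmul (Algebra.ofId R S) f (fun _ _ => Commute.all _ _) r h)

theorem liftPT_comp {S : CAlg R} (f : (HS k).Hom (R.res S)) :
    CAlg.comp (R.resHom (liftPT f)) (inclH R) = f := by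
  apply CAlg.ext
  intro x
  exact (liftPT_tmul f 1 x).trans (by rw [map_one, one_mul])

theorem PT_ext {S : CAlg R} {p q : (PT R).Hom S}
    (h : CAlg.comp (R.resHom p) (inclH R) = CAlg.comp (R.resHom q) (inclH R)) : p = q := by
  apply CAlg.ext
  intro x
  have h' : ∀ y : HSL k, p ((1 : R) ⊗ₜ[k] y) = q ((1 : R) ⊗ₜ[k] y) :=
    fun y => DFunLike.congr_fun h y
  have hz : ∀ x : R ⊗[k] HSL k, p x = q x := by
    intro x
    induction x with
    | zero => exact (map_zero p).trans (map_zero q).symm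
    | add a b ha hb => exact (map_add p a b).trans ((by rw [ha, hb] : p a + p b = q a + q b).trans
        (map_add q a b).symm)
    | tmul r y =>
      have e : r ⊗ₜ[k] y = r • ((1 : R) ⊗ₜ[k] y) := by
        rw [TensorProduct.smul_tmul', smul_eq_mul, mul_one]
      rw [e]
      exact (map_smul p r _).trans ((by rw [h' y] : r • p ((1 : R) ⊗ₜ[k] y) = r • q ((1 : R) ⊗ₜ[k] y)).trans
        (map_smul q r _).symm)
  exact hz x

end PT

variable {R : CAlg k}

section pts

variable {S : CAlg R}

/-- the element of `SL₂` of a point of the trivial torsor -/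
noncomputable def ptSL (p : (PT R).Hom S) : (SL2 k).obj (R.res S) :=
  (SL2 k).map _ _ (CAlg.comp (R.resHom p) (inclH R)) (uH k)

/-- the point of the trivial torsor of an element of `SL₂` -/
noncomputable def ofPt (g : (SL2 k).obj (R.res S)) : (PT R).Hom S := liftPT (ofSL g)

theorem ptSL_ofPt (g : (SL2 k).obj (R.res S)) : ptSL (ofPt (R := R) g) = g := by
  rw [ptSL, ofPt, liftPT_comp, map_ofSL]

theorem pt_inj {p q : (PT R).Hom S} (h : ptSL p = ptSL q) : p = q := PT_ext (hom_ext h)

theorem ofPt_ptSL (p : (PT R).Hom S) : ofPt (ptSL p) = p := pt_inj (ptSL_ofPt _)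

theorem ptSL_comp {S' : CAlg R} (f : S.Hom S') (p : (PT R).Hom S) :
    ptSL (CAlg.comp f p) = (SL2 k).map _ _ (R.resHom f) (ptSL p) := by
  rw [ptSL, ptSL]
  exact (SL2 k).map_comp _ _ _ (CAlg.comp (R.resHom p) (inclH R)) (R.resHom f) (uH k)

end pts

variable (R) in
/-- The trivial torsor. -/
noncomputable def trivT : Torsor (SL2 k) R where
  P := PT R
  flat := inferInstance
  act S p g := ofPt (ptSL p * g)
  act_one S p := by rw [mul_one, ofPt_ptSL]
  act_mul S p g h := by rw [ptSL_ofPt, mul_assoc]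
  act_map S T f p g := by
    apply pt_inj
    rw [ptSL_comp, ptSL_ofPt, ptSL_ofPt, ptSL_comp, (SL2 k).map_mul]
  exists_unique S p q := by
    refine ⟨(ptSL p)⁻¹ * ptSL q, ?_, ?_⟩
    · show ofPt (ptSL p * ((ptSL p)⁻¹ * ptSL q)) = q
      rw [mul_inv_cancel_left, ofPt_ptSL]
    · intro g hg
      have hg' : ofPt (ptSL p * g) = q := hg
      rw [← hg', ptSL_ofPt, inv_mul_cancel_left]

variable (R) in
/-- the universal element over the trivial torsor -/
noncomputable def uT : (SL2 k).obj (R.res (PT R)) := ptSL (AlgHom.id R (PT R) : (PT R).Hom (PT R))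

theorem map_uT {S : CAlg R} (p : (PT R).Hom S) :
    (SL2 k).map _ _ (R.resHom p) (uT R) = ptSL p := by
  rw [uT, ← ptSL_comp, CAlg.comp_id]

/-- a matrix over `R` as a matrix over the trivial torsor, multiplied by the inverse of the
universal matrix -/
noncomputable def umat (M : Matrix (Fin 2) (Fin 3) R) : Matrix (Fin 2) (Fin 3) (PT R) :=
  SL2.mat (k := k) (uT R)⁻¹ * M.map (algebraMap R (PT R))

theorem umat_map {S : CAlg R} (M : Matrix (Fin 2) (Fin 3) R) (q : (PT R).Hom S) :
    (umat M).map q = SL2.mat (k := k) (ptSL q)⁻¹ * M.map (algebraMap R S) := by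
  have e1 : (SL2.mat (k := k) (uT R)⁻¹).map q = SL2.mat (k := k) (ptSL q)⁻¹ := by
    rw [← map_uT q, ← (SL2 k).map_inv, SL2.mat_map]
    rfl
  have e2 : (M.map (algebraMap R (PT R))).map q = M.map (algebraMap R S) := by
    ext i l
    exact q.commutes _
  rw [← e1, ← e2, umat]
  exact Matrix.map_mul (f := q)

theorem matOf_umat (M : Matrix (Fin 2) (Fin 3) R) {S : CAlg R} (q : (PT R).Hom S) :
    matOf (CAlg.comp (R.resHom q) (ofMat (S := R.res (PT R)) (umat M))) = (umat M).map q := by
  rw [matOf_comp, matOf_ofMat]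
  rfl

theorem umat_equivariant (M : Matrix (Fin 2) (Fin 3) R) {S : CAlg R} (p : (PT R).Hom S)
    (g : (SL2 k).obj (R.res S)) :
    CAlg.comp (R.resHom (ofPt (ptSL p * g))) (ofMat (S := R.res (PT R)) (umat M)) =
      (mat23 k).act (R.res S) g⁻¹ (CAlg.comp (R.resHom p) (ofMat (S := R.res (PT R)) (umat M))) := by
  apply matOf_inj
  rw [matOf_act, matOf_umat, matOf_umat]
  have h1 := umat_map M (ofPt (ptSL p * g))
  have h2 := umat_map M p
  rw [ptSL_ofPt, mul_inv_rev, SL2.mat_mul, Matrix.mul_assoc] at h1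
  exact h1.trans (congrArg (fun N => SL2.mat g⁻¹ * N) h2.symm)

/-- the object of a matrix -/
noncomputable def objOf (M : Matrix (Fin 2) (Fin 3) R) : Obj (mat23 k) R where
  T := trivT R
  φ := ofMat (S := R.res (PT R)) (umat M)
  equivariant := fun S p g => umat_equivariant M p g

theorem matOf_objOf (M : Matrix (Fin 2) (Fin 3) R) :
    matOf (S := R.res (PT R)) (objOf M).φ = umat M := matOf_ofMat _

theorem pl_umat (M : Matrix (Fin 2) (Fin 3) R) (j : Fin 3) :
    pl (umat M) j = algebraMap R (PT R) (pl M j) := by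
  rw [umat, pl_mul, SL2.det_mat, one_mul, pl_map]

end triv

/-- the map `Mat₂ₓ₃ → A³` given by the maximal minors, on functions -/
noncomputable def plMap (k : Type u) [CommRing k] : (Poly k 3).Hom (M23 k) :=
  (MvPolynomial.aeval (fun j => pl (Matrix.of fun i l => MvPolynomial.X (i, l)) j) :
    MvPolynomial (Fin 3) k →ₐ[k] MvPolynomial (Fin 2 × Fin 3) k)

theorem plMap_T (k : Type u) [CommRing k] (j : Fin 3) :
    plMap k (Poly.T k j) = pl (Matrix.of fun i l => (MvPolynomial.X (i, l) : M23 k)) j :=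
  MvPolynomial.aeval_X _ _

theorem apply_plMap {k : Type u} [CommRing k] {S : CAlg k} (x : (M23 k).Hom S) (j : Fin 3) :
    x (plMap k (Poly.T k j)) = pl (matOf x) j := by
  rw [plMap_T]
  exact (pl_map x.toRingHom _ j).symm

theorem poly_ext {k : Type u} [CommRing k] {d : ℕ} {S : CAlg k} {f g : (Poly k d).Hom S}
    (h : ∀ j, f (Poly.T k j) = g (Poly.T k j)) : f = g :=
  MvPolynomial.algHom_ext (R := k) (σ := Fin d) h

theorem liesOver_iff {k : Type u} [CommRing k] {R : CAlg k}
    (ξ : Obj (mat23 k) R) (β : (Poly k 3).Hom R) :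
    ξ.LiesOver (plMap k) β ↔
      ∀ j, pl (matOf ξ.φ) j = algebraMap R ξ.T.P (β (Poly.T k j)) := by
  constructor
  · intro h j
    rw [← apply_plMap]
    exact DFunLike.congr_fun h (Poly.T k j)
  · intro h
    apply poly_ext
    intro j
    exact (apply_plMap ξ.φ j).trans (h j)

theorem objOf_liesOver {k : Type u} [Field k] {R : CAlg k}
    (M : Matrix (Fin 2) (Fin 3) R) (β : (Poly k 3).Hom R) (h : ∀ j, pl M j = β (Poly.T k j)) :
    (objOf (k := k) M).LiesOver (plMap k) β := by
  rw [liesOver_iff]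
  intro j
  rw [← h j]
  have := congrArg (fun N => pl N j) (matOf_objOf (k := k) M)
  exact this.trans (pl_umat M j)

end Pool.Agent.Hhelper17.Lift
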