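import Mathlib
import Pool.Agent.Hhelper17.Lift.Triv

set_option linter.all false

namespace Pool.Agent.Hhelper17.Lift

open scoped TensorProduct Nat
open MvPolynomial

universe u

section haar

variable (k : Type u) [Field k] [CharZero k]

/-- the numbers `∫ aⁱdⁱ bʲcʲ` -/
noncomputable def wH (i j : ℕ) : k := (-1) ^ j * (i ! * j !) / (i + j + 1)!

theorem wH_rec (i j : ℕ) :
    4 * ((i : k) * i * wH k (i - 1) j - (j : k) * j * wH k i (j - 1)) =
      (2 * (i + j)) * (2 * (i + j) + 2) * wH k i j := by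
  rcases i with _ | i <;> rcases j with _ | j
  · simp
  · simp only [wH, Nat.add_sub_cancel]
    have h1 : ((0 + j + 1)! : k) ≠ 0 := by exact_mod_cast Nat.factorial_ne_zero _
    have h3 : ((0 + (j + 1) + 1)! : k) = (j + 2) * (0 + j + 1)! := by
      rw [show 0 + (j + 1) + 1 = (0 + j + 1) + 1 by ring, Nat.factorial_succ]; push_cast; ring
    have h4 : ((j + 1)! : k) = (j + 1) * j ! := by rw [Nat.factorial_succ]; push_cast; ring
    have h5 : (j + 2 : k) ≠ 0 := by exact_mod_cast (by omega : j + 2 ≠ 0)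
    rw [h3, h4]
    push_cast
    field_simp
    ring
  · simp only [wH, Nat.add_sub_cancel]
    have h1 : ((i + 0 + 1)! : k) ≠ 0 := by exact_mod_cast Nat.factorial_ne_zero _
    have h3 : ((i + 1 + 0 + 1)! : k) = (i + 2) * (i + 0 + 1)! := by
      rw [show i + 1 + 0 + 1 = (i + 0 + 1) + 1 by ring, Nat.factorial_succ]; push_cast; ring
    have h4 : ((i + 1)! : k) = (i + 1) * i ! := by rw [Nat.factorial_succ]; push_cast; ring
    have h5 : (i + 2 : k) ≠ 0 := by exact_mod_cast (by omega : i + 2 ≠ 0)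
    rw [h3, h4]
    push_cast
    field_simp
    ring
  · simp only [wH, Nat.add_sub_cancel]
    have h1 : ((i + (j + 1) + 1)! : k) ≠ 0 := by exact_mod_cast Nat.factorial_ne_zero _
    have h2 : ((i + 1 + j + 1)! : k) = (i + (j + 1) + 1)! := by
      rw [show i + 1 + j + 1 = i + (j + 1) + 1 by ring]
    have h3 : ((i + 1 + (j + 1) + 1)! : k) = (i + j + 3) * (i + (j + 1) + 1)! := by
      rw [show i + 1 + (j + 1) + 1 = (i + (j + 1) + 1) + 1 by ring, Nat.factorial_succ]
      push_cast; ring
    have h4 : ((i + 1)! : k) = (i + 1) * i ! := by rw [Nat.factorial_succ]; push_cast; ring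
    have h4' : ((j + 1)! : k) = (j + 1) * j ! := by rw [Nat.factorial_succ]; push_cast; ring
    have h5 : (i + j + 3 : k) ≠ 0 := by exact_mod_cast (by omega : i + j + 3 ≠ 0)
    rw [h2, h3, h4, h4']
    push_cast
    field_simp
    ring

theorem wH_det (i j : ℕ) : wH k (i + 1) j - wH k i (j + 1) = wH k i j := by
  simp only [wH]
  have h1 : ((i + j + 1)! : k) ≠ 0 := by exact_mod_cast Nat.factorial_ne_zero _
  have h2 : ((i + 1 + j + 1)! : k) = (i + j + 2) * (i + j + 1)! := by
    rw [show i + 1 + j + 1 = (i + j + 1) + 1 by ring, Nat.factorial_succ]; push_cast; ring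
  have h3 : ((i + (j + 1) + 1)! : k) = (i + j + 2) * (i + j + 1)! := by
    rw [show i + (j + 1) + 1 = (i + j + 1) + 1 by ring, Nat.factorial_succ]; push_cast; ring
  have h4 : ((i + 1)! : k) = (i + 1) * i ! := by rw [Nat.factorial_succ]; push_cast; ring
  have h4' : ((j + 1)! : k) = (j + 1) * j ! := by rw [Nat.factorial_succ]; push_cast; ring
  have h5 : (i + j + 2 : k) ≠ 0 := by exact_mod_cast (by omega : i + j + 2 ≠ 0)
  rw [h2, h3, h4, h4']
  field_simp
  ring

/-- the integral of a monomial -/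
noncomputable def cH (m : (Fin 2 × Fin 2) →₀ ℕ) : k :=
  if m (0, 0) = m (1, 1) ∧ m (0, 1) = m (1, 0) then wH k (m (0, 0)) (m (0, 1)) else 0

variable (S : Type u) [CommRing S] [Algebra k S]

/-- the integral over `SL₂` -/
noncomputable def haar : MvPolynomial (Fin 2 × Fin 2) S →ₗ[S] S :=
  (basisMonomials (Fin 2 × Fin 2) S).constr S (fun m => algebraMap k S (cH k m))

theorem haar_monomial (m : (Fin 2 × Fin 2) →₀ ℕ) (s : S) :
    haar k S (monomial m s) = s * algebraMap k S (cH k m) := by
  have h : monomial m s = s • (basisMonomials (Fin 2 × Fin 2) S) m := by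
    rw [coe_basisMonomials, smul_monomial, smul_eq_mul, mul_one]
  rw [h, map_smul, haar, Module.Basis.constr_basis, smul_eq_mul]

theorem haar_detX_mul (P : MvPolynomial (Fin 2 × Fin 2) S) :
    haar k S ((X (0, 0) * X (1, 1) - X (0, 1) * X (1, 0)) * P) = haar k S P := by
  induction P using MvPolynomial.induction_on' with
  | add p q hp hq => rw [mul_add, map_add, hp, hq, map_add]
  | monomial m s =>
    have e1 : (X (0, 0) * X (1, 1) : MvPolynomial (Fin 2 × Fin 2) S) * monomial m s =
        monomial (Finsupp.single (0, 0) 1 + Finsupp.single (1, 1) 1 + m) s := by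
      rw [X, X, monomial_mul, monomial_mul]; simp
    have e2 : (X (0, 1) * X (1, 0) : MvPolynomial (Fin 2 × Fin 2) S) * monomial m s =
        monomial (Finsupp.single (0, 1) 1 + Finsupp.single (1, 0) 1 + m) s := by
      rw [X, X, monomial_mul, monomial_mul]; simp
    rw [sub_mul, e1, e2, map_sub, haar_monomial, haar_monomial, haar_monomial, ← mul_sub,
      ← map_sub]
    congr 2
    simp only [cH, Finsupp.add_apply, Finsupp.single_apply]
    by_cases h : m (0, 0) = m (1, 1) ∧ m (0, 1) = m (1, 0)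
    · have := wH_det k (m (0, 0)) (m (0, 1))
      simp [h.1, h.2, add_comm 1] at this ⊢
      exact this
    · rw [if_neg h]
      have h1 : ¬ (1 + m (0, 0) = 1 + m (1, 1) ∧ m (0, 1) = m (1, 0)) := by
        rintro ⟨h1, h2⟩; exact h ⟨by omega, h2⟩
      have h2 : ¬ (m (0, 0) = m (1, 1) ∧ 1 + m (0, 1) = 1 + m (1, 0)) := by
        rintro ⟨h1, h2⟩; exact h ⟨h1, by omega⟩
      simp [h]

/-- Cayley's operator -/
noncomputable def Ω : MvPolynomial (Fin 2 × Fin 2) S →ₗ[S] MvPolynomial (Fin 2 × Fin 2) S :=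
  (pderiv (0, 0)).toLinearMap ∘ₗ (pderiv (1, 1)).toLinearMap -
    (pderiv (0, 1)).toLinearMap ∘ₗ (pderiv (1, 0)).toLinearMap

theorem Ω_apply (P : MvPolynomial (Fin 2 × Fin 2) S) :
    Ω S P = pderiv (0, 0) (pderiv (1, 1) P) - pderiv (0, 1) (pderiv (1, 0) P) := rfl

theorem haar_Ω_monomial (m : (Fin 2 × Fin 2) →₀ ℕ) (s : S) :
    4 * haar k S (Ω S (monomial m s)) =
      ((m.degree : S) * (m.degree + 2)) * haar k S (monomial m s) := by
  have hdeg : m.degree = m (0, 0) + m (0, 1) + m (1, 0) + m (1, 1) := by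
    rw [Finsupp.degree_eq_sum, Fintype.sum_prod_type]
    simp [Fin.sum_univ_two]; ring
  rw [Ω_apply, pderiv_monomial, pderiv_monomial, pderiv_monomial, pderiv_monomial, map_sub,
    haar_monomial, haar_monomial, haar_monomial, hdeg]
  have a1 : (m - Finsupp.single (1, 1) 1 : (Fin 2 × Fin 2) →₀ ℕ) (0, 0) = m (0, 0) := by
    rw [Finsupp.tsub_apply, Finsupp.single_apply]; simp
  have a2 : (m - Finsupp.single (1, 0) 1 : (Fin 2 × Fin 2) →₀ ℕ) (0, 1) = m (0, 1) := by
    rw [Finsupp.tsub_apply, Finsupp.single_apply]; simp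
  rw [a1, a2]
  have key : 4 * ((m (1, 1) : k) * m (0, 0) *
      cH k (m - Finsupp.single (1, 1) 1 - Finsupp.single (0, 0) 1) -
      (m (1, 0) : k) * m (0, 1) *
      cH k (m - Finsupp.single (1, 0) 1 - Finsupp.single (0, 1) 1)) =
      (((m (0, 0) + m (0, 1) + m (1, 0) + m (1, 1) : ℕ) : k) *
        ((m (0, 0) + m (0, 1) + m (1, 0) + m (1, 1) : ℕ) + 2)) * cH k m := by
    simp only [cH, Finsupp.tsub_apply, Finsupp.single_apply]
    simp
    by_cases h : m (0, 0) = m (1, 1) ∧ m (0, 1) = m (1, 0)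
    · have := wH_rec k (m (0, 0)) (m (0, 1))
      simp only [h.1, h.2, and_self, if_true] at this ⊢
      rw [this]; ring
    · rw [if_neg h]
      have t1 : (if m (0, 0) - 1 = m (1, 1) - 1 ∧ m (0, 1) = m (1, 0) then
            (m (1, 1) : k) * m (0, 0) * wH k (m (0, 0) - 1) (m (0, 1)) else 0) = 0 := by
        split_ifs with h1
        · have : m (0, 0) = 0 ∨ m (1, 1) = 0 := by
            by_contra hc
            exact h ⟨by omega, h1.2⟩
          rcases this with h0 | h0 <;> simp [h0]
        · rfl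
      have t2 : (if m (0, 0) = m (1, 1) ∧ m (0, 1) - 1 = m (1, 0) - 1 then
            (m (1, 0) : k) * m (0, 1) * wH k (m (0, 0)) (m (0, 1) - 1) else 0) = 0 := by
        split_ifs with h1
        · have : m (0, 1) = 0 ∨ m (1, 0) = 0 := by
            by_contra hc
            exact h ⟨h1.1, by omega⟩
          rcases this with h0 | h0 <;> simp [h0]
        · rfl
      rw [t1, t2]; ring
  have key2 := congrArg (algebraMap k S) key
  simp only [map_mul, map_sub, map_add, map_natCast, map_ofNat] at key2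
  push_cast at key2 ⊢
  linear_combination s * key2

theorem haar_Ω {n : ℕ} (P : MvPolynomial (Fin 2 × Fin 2) S) (hP : P.IsHomogeneous n) :
    4 * haar k S (Ω S P) = ((n : S) * (n + 2)) * haar k S P := by
  rw [P.as_sum, map_sum, map_sum, map_sum, Finset.mul_sum, Finset.mul_sum]
  refine Finset.sum_congr rfl fun m hm => ?_
  have : m.degree = n := by
    by_contra h
    exact (mem_support_iff.mp hm) (hP.coeff_eq_zero h)
  rw [haar_Ω_monomial, this]

end haar

section sub

variable {S : Type u} [CommRing S]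

/-- substitution by left multiplication -/
noncomputable def Lg (g : Matrix (Fin 2) (Fin 2) S) :
    MvPolynomial (Fin 2 × Fin 2) S →ₐ[S] MvPolynomial (Fin 2 × Fin 2) S :=
  aeval fun a => C (g a.1 0) * X (0, a.2) + C (g a.1 1) * X (1, a.2)

theorem Lg_X (g : Matrix (Fin 2) (Fin 2) S) (a : Fin 2 × Fin 2) :
    Lg g (X a) = C (g a.1 0) * X (0, a.2) + C (g a.1 1) * X (1, a.2) := by
  rw [Lg, aeval_X]

theorem pderiv_Lg (g : Matrix (Fin 2) (Fin 2) S) (m j : Fin 2)
    (P : MvPolynomial (Fin 2 × Fin 2) S) :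
    pderiv (m, j) (Lg g P) = C (g 0 m) * Lg g (pderiv (0, j) P) + C (g 1 m) * Lg g (pderiv (1, j) P) := by
  induction P using MvPolynomial.induction_on with
  | C a =>
    have : Lg g (C a) = C a := (Lg g).commutes a
    rw [this, pderiv_C, pderiv_C, pderiv_C, map_zero]; ring
  | add p q hp hq => simp only [map_add, hp, hq]; ring
  | mul_X p a hp =>
    have key : pderiv (m, j) (Lg g (X a)) = C (g 0 m) * Lg g (pderiv (0, j) (X a)) +
        C (g 1 m) * Lg g (pderiv (1, j) (X a)) := by
      rw [Lg_X]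
      obtain ⟨a1, a2⟩ := a
      fin_cases a1 <;> fin_cases a2 <;> fin_cases m <;> fin_cases j <;>
        simp [pderiv_mul, pderiv_C, pderiv_X, Pi.single_apply]
    simp only [map_mul, pderiv_mul, map_add, hp, key]
    ring

theorem pderiv_comm (a b : Fin 2 × Fin 2) (P : MvPolynomial (Fin 2 × Fin 2) S) :
    pderiv a (pderiv b P) = pderiv b (pderiv a P) := by
  let Da : Derivation S (MvPolynomial (Fin 2 × Fin 2) S) (MvPolynomial (Fin 2 × Fin 2) S) :=
    pderiv a
  let Db : Derivation S (MvPolynomial (Fin 2 × Fin 2) S) (MvPolynomial (Fin 2 × Fin 2) S) :=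
    pderiv b
  have h : ⁅Da, Db⁆ = 0 := by
    apply derivation_ext
    intro i
    rw [Derivation.commutator_apply, pderiv_X, pderiv_X, Derivation.zero_apply]
    simp only [Pi.single_apply, Da, Db]
    split_ifs <;> simp
  have h2 := congrArg (fun D => D P) h
  simp only [Derivation.commutator_apply, Derivation.zero_apply] at h2
  exact sub_eq_zero.mp h2

theorem Ω_Lg (g : Matrix (Fin 2) (Fin 2) S) (P : MvPolynomial (Fin 2 × Fin 2) S) :
    Ω S (Lg g P) = C g.det * Lg g (Ω S P) := by
  rw [Ω_apply, Ω_apply]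
  have hc : ∀ a b : Fin 2 × Fin 2, pderiv a (pderiv b P) = pderiv b (pderiv a P) := by
    intro a b
    exact pderiv_comm a b P
  simp only [pderiv_Lg, map_add, map_sub, pderiv_C_mul, Matrix.det_fin_two, map_mul]
  rw [hc (0, 0) (1, 1), hc (0, 1) (1, 0), hc (0, 1) (0, 0), hc (1, 1) (1, 0)]
  ring

end sub

section inv

variable (k : Type u) [Field k] [CharZero k] (S : Type u) [CommRing S] [Algebra k S]

theorem Lg_homogeneous {S : Type u} [CommRing S] (g : Matrix (Fin 2) (Fin 2) S) {n : ℕ}
    (P : MvPolynomial (Fin 2 × Fin 2) S) (hP : P.IsHomogeneous n) :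
    (Lg g P).IsHomogeneous n := by
  have := hP.aeval (fun a : Fin 2 × Fin 2 => (C (g a.1 0) * X ((0 : Fin 2), a.2) +
    C (g a.1 1) * X ((1 : Fin 2), a.2) : MvPolynomial (Fin 2 × Fin 2) S))
    (n := 1) (fun a => (isHomogeneous_C_mul_X _ _).add (isHomogeneous_C_mul_X _ _))
  rw [one_mul] at this
  exact this

theorem haar_Lg_homogeneous (g : Matrix (Fin 2) (Fin 2) S) (hg : g.det = 1) (n : ℕ) :
    ∀ P : MvPolynomial (Fin 2 × Fin 2) S, P.IsHomogeneous n →
      haar k S (Lg g P) = haar k S P := by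
  induction n using Nat.strong_induction_on with
  | _ n ih =>
    intro P hP
    rcases Nat.eq_zero_or_pos n with h0 | h0
    · subst h0
      have : P = C (coeff 0 P) := by
        exact totalDegree_eq_zero_iff_eq_C.mp (Nat.le_zero.mp hP.totalDegree_le)
      rw [this]
      congr 1
      exact (Lg g).commutes _
    · have hΩ : (Ω S P).IsHomogeneous (n - 1 - 1) := by
        rw [Ω_apply]
        exact hP.pderiv.pderiv.sub hP.pderiv.pderiv
      have h1 := haar_Ω k S P hP
      have h2 := haar_Ω k S (Lg g P) (Lg_homogeneous g P hP)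
      rw [Ω_Lg, hg, map_one, one_mul, ih (n - 1 - 1) (by omega) _ hΩ, h1] at h2
      have hu : IsUnit ((n : S) * (n + 2)) := by
        have hk : ((n : k) * (n + 2)) ≠ 0 := by
          have h3 : (n : k) ≠ 0 := by exact_mod_cast h0.ne'
          have h4 : ((n : k) + 2) ≠ 0 := by exact_mod_cast (by omega : n + 2 ≠ 0)
          exact mul_ne_zero h3 h4
        have := (isUnit_iff_ne_zero.mpr hk).map (algebraMap k S)
        rw [map_mul, map_add, map_natCast, map_ofNat] at this
        exact this
      exact (hu.mul_left_cancel h2).symm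

/-- Invariance of the integral. -/
theorem haar_Lg (g : Matrix (Fin 2) (Fin 2) S) (hg : g.det = 1)
    (P : MvPolynomial (Fin 2 × Fin 2) S) : haar k S (Lg g P) = haar k S P := by
  rw [P.as_sum, map_sum, map_sum, map_sum]
  exact Finset.sum_congr rfl fun m _ => haar_Lg_homogeneous k S g hg m.degree _
    (isHomogeneous_monomial _ rfl)

end inv

end Pool.Agent.Hhelper17.Lift
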