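import Mathlib
import Pool.Agent.Hhelper17.Lift.Haar

set_option linter.all false

namespace Pool.Agent.Hhelper17.Lift

open scoped TensorProduct
open MvPolynomial

universe u

/-! ### Integration of functions on `SL₂` -/

section int

variable (k : Type u) [Field k] [CharZero k]

/-- The invariant integral on functions on `SL₂`. -/
noncomputable def intH : HSL k →ₗ[k] k :=
  (Submodule.liftQ ((Ideal.span {detX k - 1}).restrictScalars k) (haar k k) (by
    intro a ha
    rw [Submodule.restrictScalars_mem, Ideal.mem_span_singleton'] at ha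
    obtain ⟨b, rfl⟩ := ha
    rw [LinearMap.mem_ker, mul_comm, sub_mul, one_mul, map_sub, detX, haar_detX_mul, sub_self]))

theorem intH_mk (P : M2 k) : intH k (Ideal.Quotient.mk _ P) = haar k k P := rfl

theorem intH_one : intH k 1 = 1 := by
  have h : intH k (Ideal.Quotient.mk _ (monomial 0 1)) = _ := intH_mk k (monomial 0 1)
  rw [haar_monomial] at h
  have e : (monomial 0 1 : M2 k) = 1 := rfl
  rw [e, map_one] at h
  rw [h]
  simp [cH, wH]

variable {k} (S : CAlg k)

/-- The ring of functions on `S × SL₂`. -/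
noncomputable def SH : CAlg k := ⟨S ⊗[k] HSL k⟩

/-- The inclusion of `S`. -/
noncomputable def inL : S.Hom (SH S) := (Algebra.TensorProduct.includeLeft : S →ₐ[k] S ⊗[k] HSL k)

/-- The inclusion of functions on `SL₂`. -/
noncomputable def inR : (HS k).Hom (SH S) :=
  (Algebra.TensorProduct.includeRight : HSL k →ₐ[k] S ⊗[k] HSL k)

variable {S}

/-- pure tensors -/
noncomputable def sh (s : S) (h : HSL k) : SH S := s ⊗ₜ[k] h

theorem sh_eq (s : S) (h : HSL k) : sh s h = inL S s * inR S h := by
  show s ⊗ₜ[k] h = (s ⊗ₜ[k] (1 : HSL k)) * ((1 : S) ⊗ₜ[k] h)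
  rw [Algebra.TensorProduct.tmul_mul_tmul, one_mul, mul_one]

@[elab_as_elim]
theorem sh_induction {P : SH S → Prop} (h0 : P 0) (h1 : ∀ s h, P (sh s h))
    (h2 : ∀ a b, P a → P b → P (a + b)) (v : SH S) : P v :=
  TensorProduct.induction_on (motive := P) v h0 h1 h2

variable (S)

/-- The relative integral. -/
noncomputable def intS : SH S →+ S :=
  ((TensorProduct.AlgebraTensorModule.rid k S S).toLinearMap ∘ₗ (intH k).baseChange S :
    S ⊗[k] HSL k →ₗ[S] S).toAddMonoidHom

theorem intS_sh (s : S) (h : HSL k) : intS S (sh s h) = intH k h • s := rfl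

theorem intS_inR (h : HSL k) : intS S (inR S h) = intH k h • (1 : S) := rfl

theorem intS_mul (s : S) (z : SH S) : intS S (inL S s * z) = s * intS S z := by
  refine sh_induction ?_ ?_ ?_ z
  · rw [mul_zero, map_zero, mul_zero]
  · intro t h
    rw [sh_eq, ← mul_assoc, ← map_mul, ← sh_eq, ← sh_eq, intS_sh, intS_sh, mul_smul_comm]
  · intro a b ha hb
    rw [mul_add, map_add, ha, hb, map_add, mul_add]

/-- the universal element of `SL₂` over `S × SL₂` -/
noncomputable def uu : (SL2 k).obj (SH S) := (SL2 k).map _ _ (inR S) (uH k)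

/-- the universal point over `S` -/
noncomputable def qS : MvPolynomial (Fin 2 × Fin 2) S →+* SH S :=
  eval₂Hom (inL S).toRingHom (fun a => inR S (Ideal.Quotient.mk _ (X a) : HSL k))

theorem qS_C (s : S) : qS S (C s) = inL S s := eval₂Hom_C _ _ s

theorem qS_X (a : Fin 2 × Fin 2) : qS S (X a) = inR S (Ideal.Quotient.mk _ (X a) : HSL k) :=
  eval₂Hom_X' _ _ a

theorem qS_map (P : M2 k) :
    qS S (map (algebraMap k S) P) = inR S (Ideal.Quotient.mk _ P : HSL k) := by
  induction P using MvPolynomial.induction_on with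
  | C a =>
    rw [map_C, qS_C]
    have h1 := (inL S).commutes a
    have h2 := (inR S).commutes a
    exact h1.trans h2.symm
  | add p q hp hq =>
    rw [map_add, map_add, hp, hq, map_add]
    exact (map_add (inR S) _ _).symm
  | mul_X p a hp =>
    rw [map_mul, map_mul, hp, map_X, qS_X, map_mul]
    exact (map_mul (inR S) _ _).symm

theorem intS_qS (P : MvPolynomial (Fin 2 × Fin 2) S) : intS S (qS S P) = haar k S P := by
  induction P using MvPolynomial.induction_on' with
  | add p q hp hq => rw [map_add, map_add, hp, hq, map_add]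
  | monomial m s =>
    have e : monomial m s = C s * map (algebraMap k S) (monomial m 1) := by
      rw [map_monomial, map_one, C_mul_monomial, mul_one]
    rw [haar_monomial, e, map_mul, qS_C, qS_map, intS_mul, intS_inR, intH_mk, haar_monomial]
    simp [Algebra.smul_def]

variable {S}

/-- translation -/
noncomputable def fg (g : (SL2 k).obj S) : (HS k).Hom (SH S) :=
  ofSL ((SL2 k).map _ _ (inL S) g * uu S)

theorem map_fg (g : (SL2 k).obj S) :
    (SL2 k).map _ _ (fg g) (uH k) = (SL2 k).map _ _ (inL S) g * uu S := map_ofSL _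

theorem fg_mk (g : (SL2 k).obj S) (P : M2 k) :
    fg g (Ideal.Quotient.mk _ P : HSL k) = qS S (Lg (SL2.mat g) (map (algebraMap k S) P)) := by
  induction P using MvPolynomial.induction_on with
  | C a =>
    have e1 : Lg (SL2.mat g) (map (algebraMap k S) (C a)) = C (algebraMap k S a) := by
      rw [map_C]; exact (Lg (SL2.mat g)).commutes _
    rw [e1, qS_C]
    exact ((fg g).commutes a).trans ((inL S).commutes a).symm
  | add p q hp hq =>
    rw [map_add, map_add, map_add, map_add, map_add, ← hp, ← hq]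
  | mul_X p a hp =>
    rw [map_mul, map_mul, map_mul, map_mul, map_mul, ← hp, map_X, Lg_X, map_add, map_mul, map_mul,
      qS_C, qS_C, qS_X, qS_X]
    congr 1
    have h2 := congrArg SL2.mat (map_fg g)
    rw [SL2.mat_map] at h2
    have h3 := congrFun (congrFun h2 a.1) a.2
    refine Eq.trans ?_ (h3.trans ?_)
    · rfl
    · rw [SL2.mat_mul, Matrix.mul_apply, Fin.sum_univ_two]
      rfl

/-- Left invariance of the integral. -/
theorem intS_fg (g : (SL2 k).obj S) (h : HSL k) : intS S (fg g h) = intH k h • (1 : S) := by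
  obtain ⟨P, rfl⟩ := Ideal.Quotient.mk_surjective h
  rw [fg_mk, intS_qS, haar_Lg k S _ (SL2.det_mat g), ← intS_qS, qS_map, intS_inR]

/-- translation by `g` on `S × SL₂` -/
noncomputable def tr (g : (SL2 k).obj S) : (SH S).Hom (SH S) :=
  (Algebra.TensorProduct.lift (inL S) (fg g) (fun _ _ => Commute.all _ _) :
    S ⊗[k] HSL k →ₐ[k] SH S)

theorem tr_sh (g : (SL2 k).obj S) (s : S) (h : HSL k) : tr g (sh s h) = inL S s * fg g h :=
  Algebra.TensorProduct.lift_tmul _ _ _ _ _

theorem tr_inL (g : (SL2 k).obj S) : CAlg.comp (tr g) (inL S) = inL S := by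
  apply CAlg.ext
  intro s
  refine (tr_sh g s 1).trans ?_
  rw [map_one (fg g), mul_one]

theorem tr_inR (g : (SL2 k).obj S) : CAlg.comp (tr g) (inR S) = fg g := by
  apply CAlg.ext
  intro s
  refine (tr_sh g 1 s).trans ?_
  rw [map_one (inL S), one_mul]

theorem map_tr (g : (SL2 k).obj S) :
    (SL2 k).map _ _ (tr g) (uu S) = (SL2 k).map _ _ (inL S) g * uu S := by
  rw [← map_fg, uu, ← (SL2 k).map_comp, tr_inR]

theorem intS_tr (g : (SL2 k).obj S) (z : SH S) : intS S (tr g z) = intS S z := by
  refine sh_induction ?_ ?_ ?_ z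
  · rw [map_zero (tr g)]
  · intro s h
    rw [tr_sh, intS_mul, intS_fg, sh_eq, intS_mul, intS_inR]
  · intro a b ha hb
    rw [map_add (tr g), map_add, ha, hb, map_add]

/-- functoriality of `S × SL₂` -/
noncomputable def SHmap {T : CAlg k} (f : S.Hom T) : (SH S).Hom (SH T) :=
  (Algebra.TensorProduct.lift (CAlg.comp (inL T) f) (inR T) (fun _ _ => Commute.all _ _) :
    S ⊗[k] HSL k →ₐ[k] SH T)

theorem SHmap_sh {T : CAlg k} (f : S.Hom T) (s : S) (h : HSL k) :
    SHmap f (sh s h) = sh (f s) h := by
  refine (Algebra.TensorProduct.lift_tmul _ _ _ _ _).trans ?_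
  rw [sh_eq]
  rfl

theorem SHmap_inL {T : CAlg k} (f : S.Hom T) : CAlg.comp (SHmap f) (inL S) = CAlg.comp (inL T) f := by
  apply CAlg.ext
  intro s
  exact (SHmap_sh f s 1)

theorem SHmap_inR {T : CAlg k} (f : S.Hom T) : CAlg.comp (SHmap f) (inR S) = inR T := by
  apply CAlg.ext
  intro h
  refine (SHmap_sh f 1 h).trans ?_
  rw [map_one f]
  rfl

theorem map_SHmap {T : CAlg k} (f : S.Hom T) : (SL2 k).map _ _ (SHmap f) (uu S) = uu T := by
  rw [uu, ← (SL2 k).map_comp, SHmap_inR, uu]

theorem intS_SHmap {T : CAlg k} (f : S.Hom T) (z : SH S) :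
    intS T (SHmap f z) = f (intS S z) := by
  refine sh_induction ?_ ?_ ?_ z
  · rw [map_zero (SHmap f), map_zero, map_zero, map_zero]
  · intro s h
    rw [SHmap_sh, intS_sh, intS_sh, map_smul]
  · intro a b ha hb
    rw [map_add (SHmap f), map_add, ha, hb, map_add, map_add]

end int

/-! ### Fibres -/

section fib

variable {k : Type u} [CommRing k] {A S T : CAlg k} {M : Type u} [AddCommGroup M] [Module A M]

/-- pure tensors -/
noncomputable def ft (x : A.Hom S) (s : S) (m : M) : Fib x M := (s : CAlg.over x) ⊗ₜ[A] m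

@[elab_as_elim]
theorem ft_induction (x : A.Hom S) {P : Fib x M → Prop} (h0 : P 0) (h1 : ∀ s m, P (ft x s m))
    (h2 : ∀ a b, P a → P b → P (a + b)) (v : Fib x M) : P v :=
  TensorProduct.induction_on (R := A) (M := CAlg.over x) (motive := P) v h0 h1 h2

theorem smul_ft (x : A.Hom S) (s t : S) (m : M) : s • ft x t m = ft x (s * t) m := rfl

theorem one_eq_ft (x : A.Hom S) (m : M) : Fib.one x m = ft x 1 m := rfl

/-- `x^* M → y^* M` for `y = f x` -/
noncomputable def fmap (x : A.Hom S) (y : A.Hom T) (f : S.Hom T) (h : CAlg.comp f x = y) :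
    Fib x M →+ Fib y M :=
  (LinearMap.rTensor M (AlgHom.toLinearMap (R := A) (A := CAlg.over x) (B := CAlg.over y)
    { f.toRingHom with commutes' := fun a => DFunLike.congr_fun h a })).toAddMonoidHom

theorem fmap_ft (x : A.Hom S) (y : A.Hom T) (f : S.Hom T) (h : CAlg.comp f x = y) (s : S) (m : M) :
    fmap x y f h (ft x s m) = ft y (f s) m := rfl

theorem fmap_eq (x : A.Hom S) (f : S.Hom T) (v : Fib x M) :
    fmap x (CAlg.comp f x) f rfl v = Fib.map x M f v := rfl

theorem fmap_one (x : A.Hom S) (y : A.Hom T) (f : S.Hom T) (h : CAlg.comp f x = y) (m : M) :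
    fmap x y f h (Fib.one x m) = Fib.one y m := by
  rw [one_eq_ft, fmap_ft, map_one f]
  rfl

variable {G : GroupFunctor k} {X : GAction G A} (E : EqModule X M)

theorem EqModule.θ_map' (f : S.Hom T) (g : G.obj S) (x y : A.Hom S) (x' y' : A.Hom T)
    (hx : CAlg.comp f x = x') (hy : CAlg.comp f y = y') (h : X.act S g x = y)
    (h' : X.act T (G.map S T f g) x' = y') (v : Fib x M) :
    E.θ T (G.map S T f g) x' y' h' (fmap x x' f hx v) = fmap y y' f hy (E.θ S g x y h v) := by
  subst hx hy
  exact E.θ_map S T f g x y h h' v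

/-- the additive map of an equivariant module -/
noncomputable def EqModule.θa (g : G.obj S) (x y : A.Hom S) (h : X.act S g x = y) : Fib x M →+ Fib y M :=
  AddMonoidHom.mk' (E.θ S g x y h) (by
    intro a b
    have := E.θ_linear S g x y h 1 a b
    rw [one_smul, one_smul] at this
    exact this)

theorem EqModule.θa_apply (g : G.obj S) (x y : A.Hom S) (h : X.act S g x = y) (v : Fib x M) :
    E.θa g x y h v = E.θ S g x y h v := rfl

theorem EqModule.θa_smul (g : G.obj S) (x y : A.Hom S) (h : X.act S g x = y) (s : S)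
    (v : Fib x M) : E.θa g x y h (s • v) = s • E.θa g x y h v := by
  have := E.θ_linear S g x y h s v 0
  rw [add_zero] at this
  have h0 : E.θ S g x y h 0 = 0 := map_zero (E.θa g x y h)
  rw [h0, add_zero] at this
  exact this

theorem Fib.lift_ft {N : Type u} [AddCommGroup N] [Module A N] (f : M →ₗ[A] N) (x : A.Hom S)
    (s : S) (m : M) : Fib.lift x f (ft x s m) = ft x s (f m) := rfl

/-- additive version -/
noncomputable def Fib.lifta {N : Type u} [AddCommGroup N] [Module A N] (f : M →ₗ[A] N)
    (x : A.Hom S) : Fib x M →+ Fib x N :=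
  (LinearMap.lTensor (CAlg.over x) f).toAddMonoidHom

theorem Fib.lifta_apply {N : Type u} [AddCommGroup N] [Module A N] (f : M →ₗ[A] N)
    (x : A.Hom S) (v : Fib x M) : Fib.lifta f x v = Fib.lift x f v := rfl

theorem Fib.lift_one {N : Type u} [AddCommGroup N] [Module A N] (f : M →ₗ[A] N) (x : A.Hom S)
    (m : M) : Fib.lift x f (Fib.one x m) = Fib.one x (f m) := rfl

variable (A) in
/-- the identity point -/
def idp : A.Hom A := AlgHom.id k A

/-- `id^* M = M` -/
noncomputable def unfib : Fib (idp A) M →+ M :=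
  ((TensorProduct.lid A M).toLinearMap : A ⊗[A] M →ₗ[A] M).toAddMonoidHom

theorem unfib_one (m : M) : unfib (Fib.one (idp A) m) = m := by
  show (TensorProduct.lid A M) ((1 : A) ⊗ₜ[A] m) = m
  rw [TensorProduct.lid_tmul, one_smul]

theorem one_unfib (v : Fib (idp A) M) : Fib.one (idp A) (unfib v) = v := by
  refine ft_induction (idp A) ?_ ?_ ?_ v
  · rw [map_zero]
    exact TensorProduct.tmul_zero (R := A) M (1 : A)
  · intro s m
    have e : unfib (ft (idp A) s m) = s • m := by
      show (TensorProduct.lid A M) (s ⊗ₜ[A] m) = s • m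
      rw [TensorProduct.lid_tmul]
    rw [e]
    show (1 : A) ⊗ₜ[A] (s • m) = s ⊗ₜ[A] m
    rw [TensorProduct.tmul_smul, TensorProduct.smul_tmul', smul_eq_mul, mul_one]
  · intro a b ha hb
    rw [map_add]
    have : Fib.one (idp A) (unfib a + unfib b) =
      Fib.one (idp A) (unfib a) + Fib.one (idp A) (unfib b) :=
      TensorProduct.tmul_add (R := A) (1 : A) (unfib a) (unfib b)
    rw [this, ha, hb]

end fib

end Pool.Agent.Hhelper17.Lift
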