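import Mathlib
import Pool.Agent.Hhelper17.Lift.Reyn

set_option linter.all false

namespace Pool.Agent.Hhelper17.Lift

open scoped TensorProduct
open MvPolynomial

universe u

section exact

variable {k : Type u} [Field k] [CharZero k] {A S T : CAlg k} {M : Type u} [AddCommGroup M]
  [Module A M]

theorem act_act_inv {G : GroupFunctor k} (X : GAction G A) (g : G.obj S) (x : A.Hom S) :
    X.act S g (X.act S g⁻¹ x) = x := by
  rw [← X.mul_act, mul_inv_cancel, X.one_act]

theorem intS_over (x : A.Hom S) (x' : A.Hom (SH S)) (h : CAlg.comp (inL S) x = x') (a : A) (z : SH S) :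
    intS S (x' a * z) = x a * intS S z := by
  subst h
  exact intS_mul S (x a) z

/-- integration along the fibres -/
noncomputable def intF (x : A.Hom S) (x' : A.Hom (SH S)) (h : CAlg.comp (inL S) x = x') :
    Fib x' M →+ Fib x M :=
  (LinearMap.rTensor M
    ({ toFun := intS S
       map_add' := map_add (intS S)
       map_smul' := fun a z => intS_over x x' h a z } :
        (CAlg.over x') →ₗ[A] (CAlg.over x))).toAddMonoidHom

theorem intF_ft (x : A.Hom S) (x' : A.Hom (SH S)) (h : CAlg.comp (inL S) x = x') (t : SH S) (m : M) :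
    intF x x' h (ft x' t m) = ft x (intS S t) m := rfl

theorem intF_smul (x : A.Hom S) (x' : A.Hom (SH S)) (h : CAlg.comp (inL S) x = x') (a : HSL k)
    (w : Fib x M) :
    intF x x' h (inR S a • fmap x x' (inL S) h w) = algebraMap k S (intH k a) • w := by
  induction w using ft_induction with
  | h0 => rw [map_zero, smul_zero, smul_zero, map_zero]
  | h1 s m =>
    rw [fmap_ft, smul_ft, intF_ft, smul_ft, mul_comm, intS_mul, intS_inR, Algebra.smul_def,
      mul_one, mul_comm]
  | h2 v w hv hw => rw [map_add, smul_add, map_add, hv, hw, smul_add]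

theorem ft_eq (x : A.Hom S) (x' : A.Hom (SH S)) (h : CAlg.comp (inL S) x = x') (s : S) (a : HSL k) (m : M) :
    ft x' (sh s a) m = inR S a • fmap x x' (inL S) h (ft x s m) := by
  rw [fmap_ft, smul_ft, sh_eq, mul_comm]

/-- additivity in the scalar -/
theorem ft_add (x : A.Hom S) (s t : S) (m : M) : ft x (s + t) m = ft x s m + ft x t m :=
  TensorProduct.add_tmul (R := A) _ _ _

theorem ft_zero (x : A.Hom S) (m : M) : ft x 0 m = 0 := TensorProduct.zero_tmul (R := A) _ _

/-- induction -/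
@[elab_as_elim]
theorem fibSH_induction (x : A.Hom S) (x' : A.Hom (SH S)) (h : CAlg.comp (inL S) x = x')
    {P : Fib x' M → Prop} (h0 : P 0) (h1 : ∀ (a : HSL k) (w : Fib x M),
      P (inR S a • fmap x x' (inL S) h w)) (h2 : ∀ a b, P a → P b → P (a + b)) (v : Fib x' M) :
    P v := by
  induction v using ft_induction with
  | h0 => exact h0
  | h1 t m =>
    induction t using sh_induction with
    | h0 => rw [ft_zero]; exact h0
    | h1 s a => rw [ft_eq x x' h]; exact h1 _ _
    | h2 a b ha hb => rw [ft_add]; exact h2 _ _ ha hb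
  | h2 a b ha hb => exact h2 _ _ ha hb

variable {X : GAction (SL2 k) A} (E : EqModule X M)

theorem θ_intF (g : (SL2 k).obj S) (x z : A.Hom S) (h : X.act S g x = z)
    (x' z' : A.Hom (SH S)) (hx : CAlg.comp (inL S) x = x') (hz : CAlg.comp (inL S) z = z')
    (h' : X.act (SH S) ((SL2 k).map _ _ (inL S) g) x' = z') (v : Fib x' M) :
    E.θ S g x z h (intF x x' hx v) =
      intF z z' hz (E.θ (SH S) ((SL2 k).map _ _ (inL S) g) x' z' h' v) := by
  rw [← E.θa_apply, ← E.θa_apply]
  induction v using fibSH_induction x x' hx with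
  | h0 => rw [map_zero, map_zero, map_zero, map_zero]
  | h1 a w =>
    rw [intF_smul, E.θa_smul, E.θa_smul, E.θa_apply _ x' z' h', E.θ_map' (inL S) g x z x' z' hx hz h h',
      intF_smul, E.θa_apply]
  | h2 a b ha hb => rw [map_add, map_add, ha, hb, map_add, map_add]

theorem intF_tr (g : (SL2 k).obj S) (z : A.Hom S) (z' : A.Hom (SH S)) (hz : CAlg.comp (inL S) z = z')
    (h : CAlg.comp (tr g) z' = z') (w : Fib z' M) :
    intF z z' hz (fmap z' z' (tr g) h w) = intF z z' hz w := by
  induction w using ft_induction with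
  | h0 => rw [map_zero]
  | h1 t m => rw [fmap_ft, intF_ft, intF_ft, intS_tr]
  | h2 a b ha hb => rw [map_add, map_add, map_add, ha, hb]

theorem intF_SHmap (f : S.Hom T) (x : A.Hom S) (y : A.Hom T) (x' : A.Hom (SH S))
    (y' : A.Hom (SH T)) (hx : CAlg.comp (inL S) x = x') (hy : CAlg.comp (inL T) y = y') (h : CAlg.comp f x = y)
    (h' : CAlg.comp (SHmap f) x' = y') (v : Fib x' M) :
    fmap x y f h (intF x x' hx v) = intF y y' hy (fmap x' y' (SHmap f) h' v) := by
  induction v using ft_induction with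
  | h0 => rw [map_zero, map_zero, map_zero, map_zero]
  | h1 t m => rw [intF_ft, fmap_ft, fmap_ft, intF_ft, intS_SHmap]
  | h2 a b ha hb => rw [map_add, map_add, map_add, map_add, ha, hb]

/-- the average of `m` at the point `x` -/
noncomputable def avg (x : A.Hom S) (m : M) : Fib x M :=
  intF x (CAlg.comp (inL S) x) rfl (E.θ (SH S) (uu S) (X.act _ (uu S)⁻¹ (CAlg.comp (inL S) x)) (CAlg.comp (inL S) x)
    (act_act_inv X _ _) (Fib.one _ m))

theorem avg_map (f : S.Hom T) (x : A.Hom S) (y : A.Hom T) (h : CAlg.comp f x = y) (m : M) :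
    fmap x y f h (avg E x m) = avg E y m := by
  subst h
  have h1 : CAlg.comp (SHmap f) (CAlg.comp (inL S) x) = CAlg.comp (inL T) (CAlg.comp f x) := by
    rw [← CAlg.comp_assoc, SHmap_inL]; rfl
  have h2 : CAlg.comp (SHmap f) (X.act _ (uu S)⁻¹ (CAlg.comp (inL S) x)) = X.act _ (uu T)⁻¹ (CAlg.comp (inL T) (CAlg.comp f x)) := by
    rw [X.map_act, h1, (SL2 k).map_inv, map_SHmap]
  unfold avg
  rw [intF_SHmap f x _ _ (CAlg.comp (inL T) (CAlg.comp f x)) rfl rfl rfl h1]
  congr 1
  have h3 := map_SHmap f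
  have key : ∀ (u' : (SL2 k).obj (SH T)) (hu : (SL2 k).map _ _ (SHmap f) (uu S) = u')
      (hact : X.act _ u' (X.act _ (uu T)⁻¹ (CAlg.comp (inL T) (CAlg.comp f x))) = CAlg.comp (inL T) (CAlg.comp f x)),
      fmap (CAlg.comp (inL S) x) (CAlg.comp (inL T) (CAlg.comp f x)) (SHmap f) h1
        (E.θ (SH S) (uu S) (X.act _ (uu S)⁻¹ (CAlg.comp (inL S) x)) (CAlg.comp (inL S) x)
          (act_act_inv X _ _) (Fib.one _ m)) =
      E.θ (SH T) u' (X.act _ (uu T)⁻¹ (CAlg.comp (inL T) (CAlg.comp f x))) (CAlg.comp (inL T) (CAlg.comp f x)) hact (Fib.one _ m) := by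
    intro u' hu hact
    subst hu
    rw [← E.θ_map' (SHmap f) (uu S) (X.act _ (uu S)⁻¹ (CAlg.comp (inL S) x)) (CAlg.comp (inL S) x) _ _ h2 h1
      (act_act_inv X _ _) hact, fmap_one]
  exact key (uu T) h3 _

theorem θ_avg (g : (SL2 k).obj S) (x z : A.Hom S) (h : X.act S g x = z) (m : M) :
    E.θ S g x z h (avg E x m) = avg E z m := by
  have hz' : X.act (SH S) ((SL2 k).map _ _ (inL S) g) (CAlg.comp (inL S) x) = CAlg.comp (inL S) z := by
    rw [← X.map_act, h]
  unfold avg
  rw [θ_intF E g x z h (CAlg.comp (inL S) x) (CAlg.comp (inL S) z) rfl rfl hz']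
  -- both sides as integrals over the fibre of `z`
  have e1 : X.act (SH S) ((SL2 k).map _ _ (inL S) g * uu S)
      (X.act _ (uu S)⁻¹ (CAlg.comp (inL S) x)) = CAlg.comp (inL S) z := by
    rw [X.mul_act, act_act_inv, hz']
  rw [← E.θ_mul (SH S) (uu S) ((SL2 k).map _ _ (inL S) g) (X.act _ (uu S)⁻¹ (CAlg.comp (inL S) x))
    (CAlg.comp (inL S) x) (CAlg.comp (inL S) z) (act_act_inv X _ _) hz' e1]
  -- translation
  have t1 : CAlg.comp (tr g) (CAlg.comp (inL S) z) = CAlg.comp (inL S) z := by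
    rw [← CAlg.comp_assoc, tr_inL]
  have t2 : CAlg.comp (tr g) (X.act _ (uu S)⁻¹ (CAlg.comp (inL S) z)) = X.act _ (uu S)⁻¹ (CAlg.comp (inL S) x) := by
    rw [X.map_act, t1, (SL2 k).map_inv, map_tr, mul_inv_rev, X.mul_act, ← hz', ← X.mul_act _ _
      ((SL2 k).map _ _ (inL S) g), inv_mul_cancel, X.one_act]
  rw [← intF_tr g z (CAlg.comp (inL S) z) rfl t1 (E.θ (SH S) (uu S) _ _ _ _)]
  congr 1
  have key : ∀ (u' : (SL2 k).obj (SH S)) (hu : (SL2 k).map _ _ (tr g) (uu S) = u')
      (hact : X.act _ u' (X.act _ (uu S)⁻¹ (CAlg.comp (inL S) x)) = CAlg.comp (inL S) z),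
      E.θ (SH S) u' (X.act _ (uu S)⁻¹ (CAlg.comp (inL S) x)) (CAlg.comp (inL S) z) hact (Fib.one _ m) =
      fmap (CAlg.comp (inL S) z) (CAlg.comp (inL S) z) (tr g) t1
        (E.θ (SH S) (uu S) (X.act _ (uu S)⁻¹ (CAlg.comp (inL S) z)) (CAlg.comp (inL S) z)
          (act_act_inv X _ _) (Fib.one _ m)) := by
    intro u' hu hact
    subst hu
    rw [← E.θ_map' (tr g) (uu S) (X.act _ (uu S)⁻¹ (CAlg.comp (inL S) z)) (CAlg.comp (inL S) z) _ _ t2 t1
      (act_act_inv X _ _) hact, fmap_one]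
  exact key _ (map_tr g) _

/-- The Reynolds operator. -/
noncomputable def reynolds (m : M) : M := unfib (avg E (idp A) m)

theorem avg_eq (x : A.Hom S) (m : M) : avg E x m = Fib.one x (reynolds E m) := by
  have h : CAlg.comp x (idp A) = x := rfl
  rw [← avg_map E x (idp A) x h m, ← one_unfib (avg E (idp A) m), fmap_one]
  rfl

theorem reynolds_inv (m : M) : E.Inv (reynolds E m) := by
  intro S g x y h
  rw [← avg_eq, ← avg_eq, θ_avg]

theorem avg_of_inv (x : A.Hom S) (m : M) (hm : E.Inv m) : avg E x m = Fib.one x m := by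
  unfold avg
  rw [hm, one_eq_ft, intF_ft, one_eq_ft]
  have h1 : intS S 1 = 1 := by
    have h := intS_inR S 1
    rw [intH_one, one_smul] at h
    rw [← h]
    congr 1
  rw [h1]

theorem intF_lift {N : Type u} [AddCommGroup N] [Module A N] (f : M →ₗ[A] N) (x : A.Hom S)
    (x' : A.Hom (SH S)) (h : CAlg.comp (inL S) x = x') (v : Fib x' M) :
    Fib.lift x f (intF x x' h v) = intF x x' h (Fib.lift x' f v) := by
  rw [← Fib.lifta_apply, ← Fib.lifta_apply]
  induction v using ft_induction with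
  | h0 => rw [map_zero, map_zero, map_zero, map_zero]
  | h1 t m =>
    rw [intF_ft, Fib.lifta_apply, Fib.lifta_apply, Fib.lift_ft, Fib.lift_ft, intF_ft]
  | h2 a b ha hb => rw [map_add, map_add, map_add, map_add, ha, hb]

theorem exists_inv {N : Type u} [AddCommGroup N] [Module A N] (F : EqModule X N) (f : M →ₗ[A] N)
    (hf : E.IsHom F f) (hsurj : Function.Surjective f) (n : N) (hn : F.Inv n) :
    ∃ m : M, E.Inv m ∧ f m = n := by
  obtain ⟨m, rfl⟩ := hsurj n
  refine ⟨reynolds E m, reynolds_inv E m, ?_⟩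
  have h1 : Fib.lift (idp A) f (avg E (idp A) m) = avg F (idp A) (f m) := by
    unfold avg
    rw [intF_lift, hf, Fib.lift_one]
  rw [avg_of_inv F _ _ hn, avg_eq, Fib.lift_one] at h1
  have h2 := congrArg unfib h1
  rw [unfib_one, unfib_one] at h2
  exact h2

end exact

end Pool.Agent.Hhelper17.Lift
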