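import Mathlib
import Pool.Agent.Hhelper17.Lift.Exact

set_option linter.all false

namespace Pool.Agent.Hhelper17.Lift

open scoped TensorProduct
open MvPolynomial

universe u

section

variable {k : Type u} [Field k]

theorem comp_plMap {S : CAlg k} (x : (M23 k).Hom S) (β : (Poly k 3).Hom S)
    (h : ∀ j, pl (matOf x) j = β (Poly.T k j)) : CAlg.comp x (plMap k) = β := by
  apply poly_ext
  intro j
  exact (apply_plMap x j).trans (h j)

theorem plMap_injective : Function.Injective (plMap k) := by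
  let L0 : CAlg k := ⟨FractionRing (MvPolynomial (Fin 3) k)⟩
  let β : (Poly k 3).Hom L0 :=
    (IsScalarTower.toAlgHom k (MvPolynomial (Fin 3) k) (FractionRing (MvPolynomial (Fin 3) k)))
  have hβ : Function.Injective β :=
    IsFractionRing.injective (MvPolynomial (Fin 3) k) (FractionRing (MvPolynomial (Fin 3) k))
  have h0 : β (Poly.T k 0) ≠ 0 := by
    intro h
    have h1 : β (Poly.T k 0) = β 0 := h.trans (map_zero β).symm
    exact MvPolynomial.X_ne_zero (R := k) (0 : Fin 3) (hβ h1)
  have hinv : ∃ e : L0, β (Poly.T k 0) * e = 1 :=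
    ⟨(β (Poly.T k 0) : FractionRing (MvPolynomial (Fin 3) k))⁻¹, mul_inv_cancel₀ h0⟩
  obtain ⟨e, he⟩ := hinv
  let y : (M23 k).Hom L0 := ofMat (nf 0 (fun l => β (Poly.T k l)) e)
  have hy : CAlg.comp y (plMap k) = β := comp_plMap y β (by
    intro j
    rw [matOf_ofMat, pl_nf 0 _ e he])
  intro a b hab
  apply hβ
  rw [← hy]
  exact congrArg y hab

/-- `P(0, T₁, T₂)` -/
noncomputable def ev0 : MvPolynomial (Fin 3) k →ₐ[k] MvPolynomial (Fin 3) k :=
  aeval fun j => if j = 0 then 0 else X j

theorem dvd_sub_ev0 (P : MvPolynomial (Fin 3) k) : X 0 ∣ P - ev0 P := by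
  induction P using MvPolynomial.induction_on with
  | C a =>
    have : ev0 (C a : MvPolynomial (Fin 3) k) = C a := (ev0 (k := k)).commutes a
    rw [this, sub_self]
    exact dvd_zero _
  | add p q hp hq =>
    rw [map_add]
    have : p + q - (ev0 p + ev0 q) = (p - ev0 p) + (q - ev0 q) := by ring
    rw [this]
    exact dvd_add hp hq
  | mul_X p j hp =>
    rw [map_mul]
    have e : p * X j - ev0 p * ev0 (X j) = (p - ev0 p) * X j + ev0 p * (X j - ev0 (X j)) := by
      ring
    rw [e]
    refine dvd_add (Dvd.dvd.mul_right hp _) (Dvd.dvd.mul_left ?_ _)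
    rw [ev0, aeval_X]
    by_cases hj : j = 0
    · subst hj; simp
    · rw [if_neg hj, sub_self]; exact dvd_zero _

theorem dvd_of_mul_eq (P : MvPolynomial (Fin 3) k) (a : M23 k)
    (h : plMap k (Poly.T k 0) * a = plMap k P) : X 0 ∣ P := by
  let z : (M23 k).Hom (Poly k 3) :=
    ofMat (S := Poly k 3) (Matrix.of ![![0, -(Poly.T k 2), Poly.T k 1], ![1, 0, 0]])
  have hz : ∀ j, pl (matOf z) j = (ev0 (X j : MvPolynomial (Fin 3) k)) := by
    intro j
    rw [matOf_ofMat, ev0, aeval_X]
    fin_cases j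
    · show (_ : MvPolynomial (Fin 3) k) = _
      simp [pl]; rfl
    · show (_ : MvPolynomial (Fin 3) k) = _
      simp [pl]; rfl
    · show (_ : MvPolynomial (Fin 3) k) = _
      simp [pl]; rfl
  have hz2 : CAlg.comp z (plMap k) = (ev0 (k := k) : (Poly k 3).Hom (Poly k 3)) := comp_plMap z _ hz
  have h1 := congrArg z h
  have h2 : z (plMap k P) = ev0 P := DFunLike.congr_fun hz2 P
  have h3 : z (plMap k (Poly.T k 0)) = 0 := by
    refine (DFunLike.congr_fun hz2 (Poly.T k 0)).trans ?_
    show ev0 (X 0 : MvPolynomial (Fin 3) k) = 0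
    rw [ev0, aeval_X, if_pos rfl]
  rw [h2, map_mul z, h3, zero_mul] at h1
  have h4 := dvd_sub_ev0 P
  have h5 : ev0 P = (0 : MvPolynomial (Fin 3) k) := h1.symm
  rw [h5, sub_zero] at h4
  exact h4

theorem range_aux (n : ℕ) : ∀ (P : MvPolynomial (Fin 3) k) (a : M23 k),
    (plMap k (Poly.T k 0)) ^ n * a = plMap k P → ∃ b, plMap k b = a := by
  induction n with
  | zero =>
    intro P a h
    exact ⟨P, by rw [← h, pow_zero, one_mul]⟩
  | succ n ih =>
    intro P a h
    have h1 : plMap k (Poly.T k 0) * ((plMap k (Poly.T k 0)) ^ n * a) = plMap k P := by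
      rw [← h, pow_succ]; ring
    obtain ⟨Q, hQ⟩ := dvd_of_mul_eq P _ h1
    refine ih Q a ?_
    have h2 : plMap k P = plMap k (Poly.T k 0) * plMap k Q := by
      rw [hQ]
      exact map_mul (plMap k) _ _
    rw [h2] at h1
    have h0 : plMap k (Poly.T k 0) ≠ 0 := by
      intro h0
      have h3 : plMap k (Poly.T k 0) = plMap k 0 := h0.trans (map_zero (plMap k)).symm
      exact MvPolynomial.X_ne_zero (R := k) (0 : Fin 3) (plMap_injective h3)
    exact mul_left_cancel₀ (M₀ := MvPolynomial (Fin 2 × Fin 3) k) h0 h1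

theorem range_plMap (a : M23 k)
    (h : ∀ (S : CAlg k) (g : (SL2 k).obj S) (x : (M23 k).Hom S), (mat23 k).act S g x a = x a) :
    ∃ b, plMap k b = a := by
  let L := FractionRing (MvPolynomial (Fin 2 × Fin 3) k)
  let LL : CAlg k := ⟨L⟩
  let x : (M23 k).Hom LL := (IsScalarTower.toAlgHom k (MvPolynomial (Fin 2 × Fin 3) k) L)
  have hinj : Function.Injective x := IsFractionRing.injective (MvPolynomial (Fin 2 × Fin 3) k) L
  let δ : Fin 3 → LL := fun j => pl (matOf x) j
  have hδ : δ 0 ≠ 0 := by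
    intro h0
    have h1 : x (plMap k (Poly.T k 0)) = x 0 :=
      (apply_plMap x 0).trans (h0.trans (map_zero x).symm)
    have h2 := (hinj h1).trans (map_zero (plMap k)).symm
    exact MvPolynomial.X_ne_zero (R := k) (0 : Fin 3) (plMap_injective h2)
  have hinv : δ 0 * ((δ 0 : L)⁻¹ : L) = 1 := mul_inv_cancel₀ (G₀ := L) hδ
  let y : (M23 k).Hom LL := ofMat (nf 0 δ ((δ 0 : L)⁻¹ : L))
  obtain ⟨g0, hdet, hg0⟩ := exists_of_pl_eq (matOf x) (matOf y) (j := 0)
    (fun j => by rw [matOf_ofMat, pl_nf 0 δ _ hinv])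
    (isUnit_iff_exists_inv.mpr ⟨_, hinv⟩)
  let g : (SL2 k).obj LL := SL2.mk (S := LL) g0 hdet
  have hx : (mat23 k).act LL g y = x := by
    apply matOf_inj
    rw [matOf_act]
    exact hg0.symm
  have hxy : x a = y a := by
    have := h LL g y
    rw [hx] at this
    exact this
  -- the point `y` is defined over `k[T, T₀⁻¹]`
  let Loc := Localization.Away (X 0 : MvPolynomial (Fin 3) k)
  let LO : CAlg k := ⟨Loc⟩
  let ι : (Poly k 3).Hom LO := IsScalarTower.toAlgHom k (MvPolynomial (Fin 3) k) Loc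
  let inv : LO := (IsLocalization.Away.invSelf (X 0 : MvPolynomial (Fin 3) k) : Loc)
  have hiota : ι (Poly.T k 0) * inv = 1 :=
    IsLocalization.Away.mul_invSelf (X 0 : MvPolynomial (Fin 3) k)
  let y' : (M23 k).Hom LO := ofMat (nf 0 (fun j => ι (Poly.T k j)) inv)
  let xπ : (Poly k 3).Hom LL := CAlg.comp x (plMap k)
  have hxπ : ∀ j, xπ (Poly.T k j) = δ j := fun j => apply_plMap x j
  have hu : IsUnit (xπ.toRingHom (X 0 : MvPolynomial (Fin 3) k)) :=
    isUnit_iff_exists_inv.mpr ⟨_, (by
      have := hxπ 0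
      exact (congrArg (fun t : L => t * ((δ 0 : L)⁻¹ : L)) this).trans hinv)⟩
  let ψr : Loc →+* L := IsLocalization.Away.lift (X 0 : MvPolynomial (Fin 3) k) hu
  have hψr : ∀ P : MvPolynomial (Fin 3) k, ψr (algebraMap _ Loc P) = xπ P := fun P =>
    IsLocalization.Away.lift_eq (X 0 : MvPolynomial (Fin 3) k) hu P
  let ψ : LO.Hom LL := { ψr with
    commutes' := fun c => by
      have h1 := hψr (C c)
      have h2 : algebraMap k Loc c = algebraMap _ Loc (C c : MvPolynomial (Fin 3) k) :=
        IsScalarTower.algebraMap_apply k (MvPolynomial (Fin 3) k) Loc c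
      show ψr (algebraMap k Loc c) = _
      rw [h2, h1]
      exact xπ.commutes c }
  have hψ : ∀ P : Poly k 3, ψ (ι P) = xπ P := hψr
  have hyy : CAlg.comp ψ y' = y := by
    apply matOf_inj
    rw [matOf_comp, matOf_ofMat, matOf_ofMat]
    have e := nf_map ψ.toRingHom 0 (fun j => ι (Poly.T k j)) inv
    refine e.trans ?_
    have e1 : (fun j => ψ.toRingHom (ι (Poly.T k j))) = δ := by
      funext j
      exact (hψ _).trans (hxπ j)
    have e2 : ψ.toRingHom inv = ((δ 0 : L)⁻¹ : L) := by
      have h1 : δ 0 * ψ inv = 1 := by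
        have := congrArg ψ hiota
        rw [map_mul ψ, map_one ψ, hψ, hxπ] at this
        exact this
      exact eq_inv_of_mul_eq_one_right h1
    rw [e1, e2]
  obtain ⟨n, P, hP⟩ := IsLocalization.Away.surj (X 0 : MvPolynomial (Fin 3) k) (y' a : Loc)
  refine range_aux n P a ?_
  apply hinj
  have hP' : (y' a : Loc) * (algebraMap (MvPolynomial (Fin 3) k) Loc (X 0)) ^ n =
      algebraMap (MvPolynomial (Fin 3) k) Loc P := hP
  have h1 := congrArg ψr hP'
  rw [map_mul, map_pow, hψr, hψr] at h1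
  have h2 : ψr (y' a) = x a := by
    rw [hxy, ← hyy]
    rfl
  rw [h2] at h1
  rw [map_mul x, map_pow x, mul_comm]
  exact h1

end

/-- `[Mat₂ₓ₃ / SL₂] → A³` is a good moduli space. -/
theorem mat23_isGood (k : Type u) [Field k] [CharZero k] :
    IsGoodModuliSpace (mat23 k) (plMap k) where
  exact := by
    intro M N _ _ _ _ E F f hf hsurj n hn
    exact exists_inv E F f hf hsurj n hn
  injective := plMap_injective
  range := by
    intro a
    constructor
    · rintro ⟨b, rfl⟩ S g x
      have h : CAlg.comp ((mat23 k).act S g x) (plMap k) = CAlg.comp x (plMap k) := by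
        apply poly_ext
        intro j
        have e : pl (matOf ((mat23 k).act S g x)) j = pl (matOf x) j := by
          rw [matOf_act, pl_mul, SL2.det_mat, one_mul]
        exact (apply_plMap ((mat23 k).act S g x) j).trans (e.trans (apply_plMap x j).symm)
      exact DFunLike.congr_fun h b
    · exact range_plMap a

end Pool.Agent.Hhelper17.Lift
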