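import Mathlib
import Pool.Agent.Hhelper17.Lift.Good

set_option linter.all false

namespace Pool.Agent.Hhelper17.Lift

open MvPolynomial

universe u

section

variable {k : Type u} [Field k]

/-- the maximal minors as polynomials -/
noncomputable def mi (k : Type u) [Field k] (j : Fin 3) : MvPolynomial (Fin 2 × Fin 3) k :=
  X (0, j + 1) * X (1, j + 2) - X (0, j + 2) * X (1, j + 1)

theorem plMap_mi (j : Fin 3) : plMap k (Poly.T k j) = mi k j := plMap_T k j

theorem degreeOf_mi (i : Fin 2) (j : Fin 3) : degreeOf (i, j) (mi k j) = 0 := by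
  obtain ⟨a1, a2, a3, a4, a5⟩ := fin3_ne j
  have h : ∀ (a b : Fin 2) (l m : Fin 3), j ≠ l → j ≠ m →
      degreeOf (i, j) (X (a, l) * X (b, m) : MvPolynomial (Fin 2 × Fin 3) k) ≤ 0 := by
    intro a b l m hl hm
    refine (degreeOf_mul_le _ _ _).trans ?_
    rw [degreeOf_X, degreeOf_X, if_neg, if_neg]
    · intro h; exact hm (congrArg Prod.snd h)
    · intro h; exact hl (congrArg Prod.snd h)
  refine Nat.le_zero.mp ((degreeOf_sub_le _ _ _).trans ?_)
  exact max_le (h _ _ _ _ a1 a2) (h _ _ _ _ a2 a1)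

theorem mi_ne_zero (j : Fin 3) : mi k j ≠ 0 := by
  intro h
  have h3 : plMap k (Poly.T k j) = plMap k 0 :=
    (plMap_mi j).trans (h.trans (map_zero (plMap k)).symm)
  exact MvPolynomial.X_ne_zero (R := k) (j : Fin 3) (plMap_injective h3)

theorem isUnit_of_dvd_mi (x : MvPolynomial (Fin 2 × Fin 3) k) (h : ∀ j, x ∣ mi k j) :
    IsUnit x := by
  have hx0 : x ≠ 0 := by
    rintro rfl
    exact mi_ne_zero 0 (zero_dvd_iff.mp (h 0))
  have hdeg : ∀ a, degreeOf a x = 0 := by
    rintro ⟨i, j⟩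
    obtain ⟨r, hr⟩ := h j
    have hr0 : r ≠ 0 := by
      rintro rfl
      exact mi_ne_zero j (by rw [hr, mul_zero])
    have h1 := degreeOf_mi (k := k) i j
    rw [hr, degreeOf_mul_eq hx0 hr0] at h1
    omega
  have hd : x.degrees = 0 := by
    classical
    ext a
    rw [Multiset.count_zero, ← degreeOf_def, hdeg]
  have ht : x.totalDegree = 0 := by
    have := totalDegree_le_degrees_card x
    rw [hd] at this
    simpa using this
  rw [totalDegree_eq_zero_iff_eq_C] at ht
  rw [ht]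
  have hc : coeff 0 x ≠ 0 := by
    intro hc
    rw [hc, map_zero] at ht
    exact hx0 ht
  exact (isUnit_iff_ne_zero.mpr hc).map C

/-- The exceptional locus has codimension at least two. -/
theorem two_le_height (P : Ideal (M23 k)) (hP : P.IsPrime)
    (h : ∀ j, plMap k (Poly.T k j) ∈ P) : 2 ≤ P.height := by
  have hne : P ≠ ⊥ := by
    intro hb
    have h0 := h 0
    rw [plMap_mi, hb, Ideal.mem_bot] at h0
    exact mi_ne_zero 0 h0
  obtain ⟨x, hxP, hx⟩ := Ideal.IsPrime.exists_mem_prime_of_ne_bot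
    (R := MvPolynomial (Fin 2 × Fin 3) k) hP hne
  have hQ : (Ideal.span {x} : Ideal (MvPolynomial (Fin 2 × Fin 3) k)).IsPrime :=
    (Ideal.span_singleton_prime hx.ne_zero).mpr hx
  have hlt : (Ideal.span {x} : Ideal (MvPolynomial (Fin 2 × Fin 3) k)) < P := by
    refine lt_of_le_of_ne ((Ideal.span_singleton_le_iff_mem P).mpr hxP) ?_
    intro heq
    refine hx.not_unit (isUnit_of_dvd_mi x fun j => ?_)
    rw [← Ideal.mem_span_singleton, heq, ← plMap_mi]
    exact h j
  have hlt0 : (⊥ : Ideal (MvPolynomial (Fin 2 × Fin 3) k)) < Ideal.span {x} := by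
    rw [bot_lt_iff_ne_bot]
    intro hb
    rw [Ideal.span_singleton_eq_bot] at hb
    exact hx.ne_zero hb
  have h1 := Ideal.height_add_one_le_of_lt_of_isPrime hlt0
  have h2 := Ideal.height_add_one_le_of_lt_of_isPrime hlt
  have h3 : (1 : ℕ∞) ≤ (Ideal.span {x} : Ideal (MvPolynomial (Fin 2 × Fin 3) k)).height :=
    le_trans (by simp) h1
  calc (2 : ℕ∞) = 1 + 1 := by norm_num
    _ ≤ _ := add_le_add_left h3 1
    _ ≤ _ := h2

end

end Pool.Agent.Hhelper17.Lift
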