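import Mathlib
import Pool.Agent.Hhelper17.Lift.Defs

/-!
# The Grothendieck ring of varieties and the motivic measure on the arc space of affine space

Definitions used for `MP_d9eb96_ag`.
-/

set_option linter.all false

namespace Pool.Agent.Hhelper17.Lift

universe u

/-- A closed subscheme of affine space over `k`, given by finitely many equations. -/
structure AffVar (k : Type u) [CommRing k] where
  /-- the dimension of the affine space -/
  n : ℕ
  /-- the equations -/
  eqs : List (MvPolynomial (Fin n) k)

section

variable {k : Type u} [CommRing k]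

/-- The ideal of the equations. -/
noncomputable def AffVar.ideal (V : AffVar k) : Ideal (MvPolynomial (Fin V.n) k) := Ideal.span {p | p ∈ V.eqs}

/-- The ring of functions. -/
abbrev AffVar.ring (V : AffVar k) : Type u := MvPolynomial (Fin V.n) k ⧸ V.ideal

/-- The closed subscheme `f = 0` of `V`. -/
def AffVar.cut (V : AffVar k) (f : MvPolynomial (Fin V.n) k) : AffVar k := ⟨V.n, f :: V.eqs⟩

/-- The open subscheme `f ≠ 0` of `V`, embedded by adding a coordinate `1 / f`. -/
noncomputable def AffVar.loc (V : AffVar k) (f : MvPolynomial (Fin V.n) k) : AffVar k :=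
  ⟨V.n + 1, (MvPolynomial.X (Fin.last V.n) * MvPolynomial.rename Fin.castSucc f - 1) ::
    V.eqs.map (MvPolynomial.rename Fin.castSucc)⟩

/-- The product `V × W`. -/
noncomputable def AffVar.prod (V W : AffVar k) : AffVar k :=
  ⟨V.n + W.n, V.eqs.map (MvPolynomial.rename (Fin.castAdd W.n)) ++
    W.eqs.map (MvPolynomial.rename (Fin.natAdd V.n))⟩

/-- The relations of the Grothendieck ring of varieties. -/
inductive KRel (k : Type u) [CommRing k] :
    FreeCommRing (AffVar k) → FreeCommRing (AffVar k) → Prop
  | iso (V W : AffVar k) (e : V.ring ≃ₐ[k] W.ring) : KRel k (.of V) (.of W)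
  | scissor (V : AffVar k) (f : MvPolynomial (Fin V.n) k) :
      KRel k (.of V) (.of (V.cut f) + .of (V.loc f))
  | prod (V W : AffVar k) : KRel k (.of (V.prod W)) (.of V * .of W)
  | point : KRel k (.of ⟨0, []⟩) 1

/-- The ideal generated by the relations. -/
noncomputable def KIdeal (k : Type u) [CommRing k] : Ideal (FreeCommRing (AffVar k)) :=
  Ideal.span {z | ∃ a b, KRel k a b ∧ z = a - b}

variable (k)

/-- The Grothendieck ring of varieties over `k`, presented by the classes `[V]` of the affine
schemes `V` of finite type over `k`. The relations are `[V] = [W]` if `V ≅ W`,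
`[V] = [V ∩ {f = 0}] + [V ∩ {f ≠ 0}]`, `[V × W] = [V] [W]` and `[point] = 1`. -/
def K0 : Type u := FreeCommRing (AffVar k) ⧸ KIdeal k

noncomputable instance : CommRing (K0 k) := Ideal.Quotient.commRing (KIdeal k)

variable {k}

/-- The class of `V`. -/
noncomputable def cls (V : AffVar k) : K0 k := Ideal.Quotient.mk (KIdeal k) (FreeCommRing.of V)

variable (k)

/-- The class of the affine line. -/
noncomputable def Lclass : K0 k := cls ⟨1, []⟩

/-- The localized Grothendieck ring `K₀[L⁻¹]`. -/
def Mloc : Type u := Localization.Away (Lclass k)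

noncomputable instance : CommRing (Mloc k) :=
  (inferInstance : CommRing (Localization.Away (Lclass k)))

noncomputable instance : Algebra (K0 k) (Mloc k) :=
  (inferInstance : Algebra (K0 k) (Localization.Away (Lclass k)))

/-- `L⁻¹` -/
noncomputable def Linv : Mloc k := (IsLocalization.Away.invSelf (Lclass k) : Localization.Away _)

/-- The dimension filtration: `Fᵐ` is generated by the `[V] L⁻ⁿ` with `dim V - n ≤ -m`. -/
noncomputable def Filt (m : ℕ) : AddSubgroup (Mloc k) :=
  AddSubgroup.closure {x | ∃ (V : AffVar k) (n : ℕ), ringKrullDim V.ring + m ≤ n ∧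
    x = algebraMap (K0 k) (Mloc k) (cls V) * Linv k ^ n}

/-- The completion of `K₀[L⁻¹]`, the inverse limit of the groups `K₀[L⁻¹] / Fᵐ`: an element is a
sequence of classes `x m` modulo `Fᵐ` such that `x (m + 1)` maps to `x m`. -/
def Mhat : Type u :=
  {x : (m : ℕ) → Mloc k ⧸ Filt k m // ∀ m, ∃ b : Mloc k, x (m + 1) = b ∧ x m = b}

/-- The map from `K₀[L⁻¹]` to its completion. -/
noncomputable def toHat (b : Mloc k) : Mhat k := ⟨fun _ => b, fun _ => ⟨b, rfl, rfl⟩⟩

variable {k}

/-- The locally closed subset `g = 0 for g ∈ E`, `f ≠ 0` of the spectrum of a polynomial ring. -/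
def locClosed {σ : Type} (E : List (MvPolynomial σ k)) (f : MvPolynomial σ k) :
    Set (PrimeSpectrum (MvPolynomial σ k)) :=
  {p | (∀ g ∈ E, g ∈ p.asIdeal) ∧ f ∉ p.asIdeal}

/-- `HasClass C c` says that the constructible subset `C` of affine `n`-space has class `c`: it is a
finite disjoint union of locally closed sets `V(E) ∩ D(f)`, and `c` is the sum of the classes of
these. -/
inductive HasClass {n : ℕ} : Set (PrimeSpectrum (MvPolynomial (Fin n) k)) → K0 k → Prop
  | empty : HasClass ∅ 0
  | union (E : List (MvPolynomial (Fin n) k)) (f : MvPolynomial (Fin n) k)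
      (C : Set (PrimeSpectrum (MvPolynomial (Fin n) k))) (c : K0 k) (h : HasClass C c)
      (hd : Disjoint (locClosed E f) C) :
      HasClass (locClosed E f ∪ C) (cls ((AffVar.mk n E).loc f) + c)

variable {d : ℕ}

/-- The coordinates `x_(j,i)`, `j < d`, `i ≤ n` of the space of `n`-jets of affine `d`-space,
numbered from `0` to `d (n + 1) - 1`. -/
def jetVar (d n : ℕ) (t : Fin (d * (n + 1))) : Fin d × ℕ :=
  ((finProdFinEquiv.symm t).1, (finProdFinEquiv.symm t).2)

/-- The truncation map from the arc space of affine `d`-space to the space of `n`-jets, an affine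
space of dimension `d (n + 1)`. -/
noncomputable def truncation (d n : ℕ) :
    ArcSpace k d → PrimeSpectrum (MvPolynomial (Fin (d * (n + 1))) k) :=
  PrimeSpectrum.comap (MvPolynomial.rename (jetVar d n)).toRingHom

/-- `Z` is a cylinder of motivic measure `b`: it is the preimage of a constructible set `C` of
`n`-jets, and `b = [C] L^{-d(n+1)}`. -/
def IsCylinder (Z : Set (ArcSpace k d)) (b : Mloc k) : Prop :=
  ∃ (n : ℕ) (C : Set (PrimeSpectrum (MvPolynomial (Fin (d * (n + 1))) k))) (c : K0 k),
    HasClass C c ∧ Z = truncation d n ⁻¹' C ∧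
    b = algebraMap (K0 k) (Mloc k) c * Linv k ^ (d * (n + 1))

/-- `S` is a measurable subset of the arc space of affine `d`-space, of motivic measure `a`: for
every `m` there is a cylinder `Z` such that the symmetric difference of `S` and `Z` is covered by
a sequence of cylinders with measures in `Fᵐ`, and the measure of `Z` agrees with `a`
modulo `Fᵐ`. -/
def HasMeasure (S : Set (ArcSpace k d)) (a : Mhat k) : Prop :=
  ∀ m : ℕ, ∃ (Z : Set (ArcSpace k d)) (b : Mloc k), IsCylinder Z b ∧
    (∃ (C : ℕ → Set (ArcSpace k d)) (c : ℕ → Mloc k),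
      (∀ i, IsCylinder (C i) (c i) ∧ c i ∈ Filt k m) ∧ symmDiff S Z ⊆ ⋃ i, C i) ∧
    a.1 m = (b : Mloc k ⧸ Filt k m)

end

end Pool.Agent.Hhelper17.Lift
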