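import Mathlib
import Pool.Agent.Hhelper17.Lift.KDefs

set_option linter.all false

namespace Pool.Agent.Hhelper17.Lift

open MvPolynomial Filter

universe u

/-- A homomorphism from a subring of `k` to a finite field. -/
structure Idx (k : Type u) [Field k] where
  /-- the subring -/
  R : Subring k
  /-- the field -/
  F : Type u
  [field : Field F]
  [fin : Finite F]
  /-- the homomorphism -/
  ψ : R →+* F

attribute [instance] Idx.field Idx.fin

variable {k : Type u} [Field k]

variable (k) in
/-- The filter of large subrings. -/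
def lF : Filter (Idx k) where
  sets := {S | ∃ s : Set k, s.Finite ∧ ∀ i : Idx k, s ⊆ i.R → i ∈ S}
  univ_sets := ⟨∅, Set.finite_empty, fun _ _ => trivial⟩
  sets_of_superset := by
    rintro S T ⟨s, hs, h⟩ hST
    exact ⟨s, hs, fun i hi => hST (h i hi)⟩
  inter_sets := by
    rintro S T ⟨s, hs, h⟩ ⟨t, ht, h'⟩
    exact ⟨s ∪ t, hs.union ht, fun i hi => ⟨h i (Set.subset_union_left.trans hi),
      h' i (Set.subset_union_right.trans hi)⟩⟩

theorem eventually_mem (a : k) : ∀ᶠ i in lF k, a ∈ i.R :=
  ⟨{a}, Set.finite_singleton a, fun i hi => hi rfl⟩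

theorem eventually_subset {s : Set k} (hs : s.Finite) : ∀ᶠ i in lF k, s ⊆ i.R :=
  ⟨s, hs, fun i hi => hi⟩

theorem eventually_list {α : Type*} {P : Idx k → α → Prop} (L : List α)
    (h : ∀ q ∈ L, ∀ᶠ i in lF k, P i q) : ∀ᶠ i in lF k, ∀ q ∈ L, P i q := by
  induction L with
  | nil => exact Eventually.of_forall fun i q hq => absurd hq (List.not_mem_nil)
  | cons a L ih =>
    have h1 := h a List.mem_cons_self
    have h2 := ih fun q hq => h q (List.mem_cons_of_mem _ hq)
    filter_upwards [h1, h2] with i h3 h4 q hq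
    rcases List.mem_cons.mp hq with rfl | hq
    · exact h3
    · exact h4 q hq

open Classical in
/-- the specialization of an element of `k` -/
noncomputable def Idx.c (i : Idx k) (a : k) : i.F := if h : a ∈ i.R then i.ψ ⟨a, h⟩ else 0

theorem Idx.c_coe (i : Idx k) (a : i.R) : i.c a = i.ψ a := by
  rw [Idx.c, dif_pos a.2]

theorem Idx.c_zero (i : Idx k) : i.c 0 = 0 := by
  have := i.c_coe 0
  rw [map_zero] at this
  exact this

theorem Idx.c_one (i : Idx k) : i.c 1 = 1 := by
  have := i.c_coe 1
  rw [map_one] at this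
  exact this

/-- the value of a polynomial at a point -/
noncomputable def Idx.ev (i : Idx k) {σ : Type} (x : σ → i.F) (p : MvPolynomial σ k) : i.F :=
  ∑ m ∈ p.support, i.c (p.coeff m) * ∏ j ∈ m.support, x j ^ m j

section ev

variable {σ τ : Type}

theorem Idx.ev_eq_sum (i : Idx k) (x : σ → i.F) (p : MvPolynomial σ k) (T : Finset (σ →₀ ℕ))
    (hT : p.support ⊆ T) :
    i.ev x p = ∑ m ∈ T, i.c (p.coeff m) * ∏ j ∈ m.support, x j ^ m j := by
  rw [Idx.ev]
  apply Finset.sum_subset hT
  intro m _ hm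
  rw [notMem_support_iff.mp hm, Idx.c_zero, zero_mul]

theorem Idx.ev_map (i : Idx k) (x : σ → i.F) (p : MvPolynomial σ i.R) :
    i.ev x (map i.R.subtype p) = eval₂ i.ψ x p := by
  have hT : (map i.R.subtype p).support ⊆ p.support := support_map_subset _ _
  rw [i.ev_eq_sum x _ _ hT, eval₂_eq]
  refine Finset.sum_congr rfl fun m _ => ?_
  rw [coeff_map]
  congr 1
  exact i.c_coe _

theorem Idx.exists_lift (i : Idx k) (p : MvPolynomial σ k) (h : ∀ m, p.coeff m ∈ i.R) :
    ∃ q : MvPolynomial σ i.R, map i.R.subtype q = p := by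
  refine ⟨∑ m ∈ p.support, monomial m ⟨p.coeff m, h m⟩, ?_⟩
  rw [map_sum]
  conv_rhs => rw [p.as_sum]
  exact Finset.sum_congr rfl fun m _ => by rw [map_monomial]; rfl

theorem eventually_lift (p : MvPolynomial σ k) :
    ∀ᶠ i in lF k, ∃ q : MvPolynomial σ i.R, map i.R.subtype q = p := by
  have hs : ((fun m => p.coeff m) '' (p.support : Set (σ →₀ ℕ))).Finite :=
    (Finset.finite_toSet _).image _
  filter_upwards [eventually_subset hs] with i hi
  apply i.exists_lift
  intro m
  by_cases hm : m ∈ p.support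
  · exact hi ⟨m, hm, rfl⟩
  · rw [notMem_support_iff.mp hm]
    exact i.R.zero_mem

theorem eventually_ev_add (p q : MvPolynomial σ k) :
    ∀ᶠ i in lF k, ∀ x : σ → i.F, i.ev x (p + q) = i.ev x p + i.ev x q := by
  filter_upwards [eventually_lift p, eventually_lift q] with i hp hq x
  obtain ⟨p', rfl⟩ := hp
  obtain ⟨q', rfl⟩ := hq
  rw [← map_add, Idx.ev_map, Idx.ev_map, Idx.ev_map, eval₂_add]

theorem eventually_ev_mul (p q : MvPolynomial σ k) :
    ∀ᶠ i in lF k, ∀ x : σ → i.F, i.ev x (p * q) = i.ev x p * i.ev x q := by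
  filter_upwards [eventually_lift p, eventually_lift q] with i hp hq x
  obtain ⟨p', rfl⟩ := hp
  obtain ⟨q', rfl⟩ := hq
  rw [← map_mul, Idx.ev_map, Idx.ev_map, Idx.ev_map, eval₂_mul]

theorem eventually_ev_sub (p q : MvPolynomial σ k) :
    ∀ᶠ i in lF k, ∀ x : σ → i.F, i.ev x (p - q) = i.ev x p - i.ev x q := by
  filter_upwards [eventually_lift p, eventually_lift q] with i hp hq x
  obtain ⟨p', rfl⟩ := hp
  obtain ⟨q', rfl⟩ := hq
  rw [← map_sub, Idx.ev_map, Idx.ev_map, Idx.ev_map, eval₂_sub]

theorem Idx.ev_C (i : Idx k) (x : σ → i.F) (a : k) : i.ev x (C a) = i.c a := by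
  classical
  have hT : (C a : MvPolynomial σ k).support ⊆ {0} := by
    intro m hm
    rw [mem_support_iff, coeff_C] at hm
    by_contra h
    apply hm
    rw [if_neg]
    intro h0
    exact h (by rw [← h0]; exact Finset.mem_singleton_self _)
  rw [i.ev_eq_sum x _ _ hT, Finset.sum_singleton]
  simp

theorem Idx.ev_zero (i : Idx k) (x : σ → i.F) : i.ev x (0 : MvPolynomial σ k) = 0 := by
  rw [← C_0, Idx.ev_C, Idx.c_zero]

theorem Idx.ev_one (i : Idx k) (x : σ → i.F) : i.ev x (1 : MvPolynomial σ k) = 1 := by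
  rw [← C_1, Idx.ev_C, Idx.c_one]

theorem Idx.ev_X (i : Idx k) (x : σ → i.F) (j : σ) : i.ev x (X j : MvPolynomial σ k) = x j := by
  have := i.ev_map x (X j)
  rw [map_X, eval₂_X] at this
  exact this

/-- substitution -/
theorem eventually_ev_aeval (a : σ → MvPolynomial τ k) (q : MvPolynomial σ k) :
    ∀ᶠ i in lF k, ∀ x : τ → i.F, i.ev x (aeval a q) = i.ev (fun j => i.ev x (a j)) q := by
  induction q using MvPolynomial.induction_on with
  | C c =>
    refine Eventually.of_forall fun i x => ?_
    have : aeval a (C c) = C c := (aeval a).commutes c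
    rw [this, Idx.ev_C, Idx.ev_C]
  | add p q hp hq =>
    filter_upwards [hp, hq, eventually_ev_add p q, eventually_ev_add (aeval a p) (aeval a q)]
      with i h1 h2 h3 h4 x
    rw [map_add, h4, h1, h2, h3]
  | mul_X p j hp =>
    filter_upwards [hp, eventually_ev_mul p (X j), eventually_ev_mul (aeval a p) (a j)]
      with i h1 h2 h3 x
    rw [map_mul, aeval_X, h3, h1, h2, Idx.ev_X]

theorem eventually_ev_rename (f : σ → τ) (q : MvPolynomial σ k) :
    ∀ᶠ i in lF k, ∀ x : τ → i.F, i.ev x (rename f q) = i.ev (fun j => x (f j)) q := by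
  filter_upwards [eventually_ev_aeval (fun j => (X (f j) : MvPolynomial τ k)) q] with i h x
  have h1 := h x
  simp only [Idx.ev_X] at h1
  rw [← h1]
  congr 1
  have : (rename f : MvPolynomial σ k →ₐ[k] MvPolynomial τ k) = aeval fun j => X (f j) := by
    apply MvPolynomial.algHom_ext
    intro j
    simp
  rw [this]

/-- membership in an ideal -/
theorem eventually_ev_mem (E : List (MvPolynomial σ k)) (p : MvPolynomial σ k)
    (hp : p ∈ Ideal.span {g | g ∈ E}) :
    ∀ᶠ i in lF k, ∀ x : σ → i.F, (∀ g ∈ E, i.ev x g = 0) → i.ev x p = 0 := by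
  induction hp using Submodule.span_induction with
  | mem p hp => exact Eventually.of_forall fun i x h => h p hp
  | zero => exact Eventually.of_forall fun i x _ => i.ev_zero x
  | add p q _ _ hp hq =>
    filter_upwards [hp, hq, eventually_ev_add p q] with i h1 h2 h3 x hx
    rw [h3, h1 x hx, h2 x hx, add_zero]
  | smul a p _ hp =>
    filter_upwards [hp, eventually_ev_mul a p] with i h1 h2 x hx
    rw [smul_eq_mul, h2, h1 x hx, mul_zero]

end ev

/-- the points of an affine variety over a finite field -/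
def Idx.pts (i : Idx k) (V : AffVar k) : Set (Fin V.n → i.F) := {x | ∀ g ∈ V.eqs, i.ev x g = 0}

theorem count_iso (V W : AffVar k) (e : V.ring ≃ₐ[k] W.ring) :
    ∀ᶠ i in lF k, Nat.card (i.pts V) = Nat.card (i.pts W) := by
  let mV := Ideal.Quotient.mkₐ k (V.ideal)
  let mW := Ideal.Quotient.mkₐ k (W.ideal)
  have hmV : ∀ p, mV p = 0 ↔ p ∈ V.ideal := fun p =>
    Ideal.Quotient.eq_zero_iff_mem
  have hmW : ∀ p, mW p = 0 ↔ p ∈ W.ideal := fun p =>
    Ideal.Quotient.eq_zero_iff_mem
  have ha : ∀ j : Fin W.n, ∃ a : MvPolynomial (Fin V.n) k, mV a = e.symm (mW (X j)) :=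
    fun j => Ideal.Quotient.mk_surjective _
  have hb : ∀ l : Fin V.n, ∃ b : MvPolynomial (Fin W.n) k, mW b = e (mV (X l)) :=
    fun l => Ideal.Quotient.mk_surjective _
  choose a ha using ha
  choose b hb using hb
  have hA : ∀ q, mV (aeval a q) = e.symm (mW q) := by
    intro q
    have : mV.comp (aeval a) = (e.symm : W.ring →ₐ[k] V.ring).comp mW := by
      apply MvPolynomial.algHom_ext
      intro j
      simp [ha]
    exact DFunLike.congr_fun this q
  have hB : ∀ q, mW (aeval b q) = e (mV q) := by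
    intro q
    have : mW.comp (aeval b) = (e : V.ring →ₐ[k] W.ring).comp mV := by
      apply MvPolynomial.algHom_ext
      intro j
      simp [hb]
    exact DFunLike.congr_fun this q
  have H1 : ∀ q ∈ W.eqs, aeval a q ∈ V.ideal := by
    intro q hq
    rw [← hmV, hA, (hmW q).mpr (Ideal.subset_span hq), map_zero]
  have H2 : ∀ q ∈ V.eqs, aeval b q ∈ W.ideal := by
    intro q hq
    rw [← hmW, hB, (hmV q).mpr (Ideal.subset_span hq), map_zero]
  have H3 : ∀ l, aeval a (b l) - X l ∈ V.ideal := by
    intro l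
    rw [← hmV, map_sub, hA, hb, AlgEquiv.symm_apply_apply, sub_self]
  have H4 : ∀ j, aeval b (a j) - X j ∈ W.ideal := by
    intro j
    rw [← hmW, map_sub, hB, ha, AlgEquiv.apply_symm_apply, sub_self]
  have E1 := eventually_list W.eqs (fun q _ => eventually_ev_aeval a q)
  have E1' := eventually_list W.eqs (fun q hq => eventually_ev_mem V.eqs _ (H1 q hq))
  have E2 := eventually_list V.eqs (fun q _ => eventually_ev_aeval b q)
  have E2' := eventually_list V.eqs (fun q hq => eventually_ev_mem W.eqs _ (H2 q hq))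
  have E3 : ∀ᶠ i in lF k, ∀ l : Fin V.n, ∀ x : Fin V.n → i.F, (∀ g ∈ V.eqs, i.ev x g = 0) →
      i.ev (fun j => i.ev x (a j)) (b l) = x l := by
    rw [eventually_all]
    intro l
    filter_upwards [eventually_ev_mem V.eqs _ (H3 l), eventually_ev_sub (aeval a (b l)) (X l),
      eventually_ev_aeval a (b l)] with i h1 h2 h3 x hx
    rw [← h3, ← sub_eq_zero, ← h1 x hx, h2, Idx.ev_X]
  have E4 : ∀ᶠ i in lF k, ∀ j : Fin W.n, ∀ y : Fin W.n → i.F, (∀ g ∈ W.eqs, i.ev y g = 0) →
      i.ev (fun l => i.ev y (b l)) (a j) = y j := by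
    rw [eventually_all]
    intro j
    filter_upwards [eventually_ev_mem W.eqs _ (H4 j), eventually_ev_sub (aeval b (a j)) (X j),
      eventually_ev_aeval b (a j)] with i h1 h2 h3 x hx
    rw [← h3, ← sub_eq_zero, ← h1 x hx, h2, Idx.ev_X]
  filter_upwards [E1, E1', E2, E2', E3, E4] with i e1 e1' e2 e2' e3 e4
  exact Nat.card_congr
    { toFun := fun x => ⟨fun j => i.ev x.1 (a j), fun q hq => by
        rw [← e1 q hq]; exact e1' q hq x.1 x.2⟩
      invFun := fun y => ⟨fun l => i.ev y.1 (b l), fun q hq => by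
        rw [← e2 q hq]; exact e2' q hq y.1 y.2⟩
      left_inv := fun x => Subtype.ext (funext fun l => e3 l x.1 x.2)
      right_inv := fun y => Subtype.ext (funext fun j => e4 j y.1 y.2) }

theorem mem_pts_loc (V : AffVar k) (f : MvPolynomial (Fin V.n) k) :
    ∀ᶠ i in lF k, ∀ y : Fin (V.n + 1) → i.F, y ∈ i.pts (V.loc f) ↔
      (fun j => y (Fin.castSucc j)) ∈ i.pts V ∧
        y (Fin.last V.n) * i.ev (fun j => y (Fin.castSucc j)) f = 1 := by
  have E1 := eventually_list V.eqs (fun q _ => eventually_ev_rename (Fin.castSucc : Fin V.n → _) q)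
  filter_upwards [E1, eventually_ev_sub (X (Fin.last V.n) * rename Fin.castSucc f) 1,
    eventually_ev_mul (X (Fin.last V.n)) (rename Fin.castSucc f),
    eventually_ev_rename (Fin.castSucc : Fin V.n → _) f] with i e1 e2 e3 e4 y
  have h0 : i.ev y (X (Fin.last V.n) * rename Fin.castSucc f - 1) =
      y (Fin.last V.n) * i.ev (fun j => y (Fin.castSucc j)) f - 1 := by
    rw [e2, e3, e4, Idx.ev_X, Idx.ev_one]
  constructor
  · intro h
    refine ⟨fun g hg => ?_, ?_⟩
    · exact (e1 g hg y).symm.trans (h _ (List.mem_cons_of_mem _ (List.mem_map_of_mem hg)))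
    · rw [← sub_eq_zero, ← h0]
      exact h _ List.mem_cons_self
  · rintro ⟨h1, h2⟩ g hg
    rcases List.mem_cons.mp hg with rfl | hg
    · exact h0.trans (by rw [h2, sub_self])
    · obtain ⟨g', hg', rfl⟩ := List.mem_map.mp hg
      exact (e1 g' hg' y).trans (h1 g' hg')

/-- the points of an open subset -/
theorem count_loc (V : AffVar k) (f : MvPolynomial (Fin V.n) k) :
    ∀ᶠ i in lF k, Nat.card (i.pts (V.loc f)) =
      Nat.card {x : Fin V.n → i.F // x ∈ i.pts V ∧ i.ev x f ≠ 0} := by
  filter_upwards [mem_pts_loc V f] with i h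
  have key : ∀ x : Fin V.n → i.F, x ∈ i.pts V → i.ev x f ≠ 0 →
      (Fin.snoc (α := fun _ => i.F) x (i.ev x f)⁻¹ : Fin (V.n + 1) → i.F) ∈ i.pts (V.loc f) := by
    intro x hx h0
    have e : (fun j => (Fin.snoc (α := fun _ => i.F) x (i.ev x f)⁻¹ : Fin (V.n + 1) → i.F)
        (Fin.castSucc j)) = x := by
      funext j; exact Fin.snoc_castSucc (α := fun _ => i.F) _ _ j
    refine (h _).mpr ⟨?_, ?_⟩
    · exact e.symm ▸ hx
    · have e2 : i.ev (fun j => (Fin.snoc (α := fun _ => i.F) x (i.ev x f)⁻¹ : Fin (V.n + 1) → i.F)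
        (Fin.castSucc j)) f = i.ev x f := congrArg (fun z => i.ev z f) e
      have e3 : (Fin.snoc (α := fun _ => i.F) x (i.ev x f)⁻¹ : Fin (V.n + 1) → i.F)
        (Fin.last V.n) = (i.ev x f)⁻¹ := Fin.snoc_last (α := fun _ => i.F) _ _
      exact (congrArg₂ (fun a b => a * b) e3 e2).trans (inv_mul_cancel₀ h0)
  exact Nat.card_congr
    { toFun := fun y => ⟨fun j => y.1 (Fin.castSucc j), ((h y.1).mp y.2).1, fun h0 => by
        have := ((h y.1).mp y.2).2
        rw [h0, mul_zero] at this
        exact zero_ne_one this⟩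
      invFun := fun x => ⟨_, key x.1 x.2.1 x.2.2⟩
      left_inv := by
        intro y
        apply Subtype.ext
        funext j
        induction j using Fin.lastCases with
        | last =>
          have := ((h y.1).mp y.2).2
          exact (Fin.snoc_last (α := fun _ => i.F) _ _).trans (eq_inv_of_mul_eq_one_left this).symm
        | cast j => exact Fin.snoc_castSucc (α := fun _ => i.F) _ _ j
      right_inv := by
        intro x
        apply Subtype.ext
        funext j
        exact Fin.snoc_castSucc (α := fun _ => i.F) _ _ j }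

theorem count_scissor (V : AffVar k) (f : MvPolynomial (Fin V.n) k) :
    ∀ᶠ i in lF k, Nat.card (i.pts V) = Nat.card (i.pts (V.cut f)) + Nat.card (i.pts (V.loc f)) := by
  filter_upwards [count_loc V f] with i h
  rw [h]
  have e1 : Nat.card (i.pts (V.cut f)) =
      Nat.card {x : Fin V.n → i.F // x ∈ i.pts V ∧ i.ev x f = 0} := by
    apply Nat.card_congr
    apply Equiv.subtypeEquivRight
    intro x
    constructor
    · intro hx
      exact ⟨fun g hg => hx g (List.mem_cons_of_mem _ hg), hx f List.mem_cons_self⟩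
    · rintro ⟨h1, h2⟩ g hg
      rcases List.mem_cons.mp hg with hgf | hg
      · rw [hgf]; exact h2
      · exact h1 g hg
  rw [e1, ← Nat.card_sum]
  classical
  refine Nat.card_congr ⟨fun x => if hx : i.ev x.1 f = 0 then Sum.inl ⟨x.1, x.2, hx⟩ else
    Sum.inr ⟨x.1, x.2, hx⟩, fun y => Sum.elim (fun x => ⟨x.1, x.2.1⟩) (fun x => ⟨x.1, x.2.1⟩) y,
    ?_, ?_⟩
  · intro x
    dsimp only
    split_ifs <;> rfl
  · rintro (x | x)
    · dsimp only [Sum.elim_inl]
      rw [dif_pos x.2.2]
    · dsimp only [Sum.elim_inr]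
      rw [dif_neg x.2.2]

theorem count_prod (V W : AffVar k) :
    ∀ᶠ i in lF k, Nat.card (i.pts (V.prod W)) = Nat.card (i.pts V) * Nat.card (i.pts W) := by
  have E1 := eventually_list V.eqs
    (fun q _ => eventually_ev_rename (Fin.castAdd W.n : Fin V.n → _) q)
  have E2 := eventually_list W.eqs
    (fun q _ => eventually_ev_rename (Fin.natAdd V.n : Fin W.n → _) q)
  filter_upwards [E1, E2] with i e1 e2
  have h : ∀ z : Fin (V.n + W.n) → i.F, z ∈ i.pts (V.prod W) ↔
      (fun j => z (Fin.castAdd W.n j)) ∈ i.pts V ∧ (fun j => z (Fin.natAdd V.n j)) ∈ i.pts W := by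
    intro z
    constructor
    · intro hz
      refine ⟨fun g hg => ?_, fun g hg => ?_⟩
      · exact (e1 g hg z).symm.trans (hz _ (List.mem_append_left _ (List.mem_map_of_mem hg)))
      · exact (e2 g hg z).symm.trans (hz _ (List.mem_append_right _ (List.mem_map_of_mem hg)))
    · rintro ⟨h1, h2⟩ g hg
      rcases List.mem_append.mp hg with hg | hg
      · obtain ⟨g', hg', rfl⟩ := List.mem_map.mp hg
        exact (e1 g' hg' z).trans (h1 g' hg')
      · obtain ⟨g', hg', rfl⟩ := List.mem_map.mp hg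
        exact (e2 g' hg' z).trans (h2 g' hg')
  rw [← Nat.card_prod]
  exact Nat.card_congr
    { toFun := fun z => (⟨_, ((h z.1).mp z.2).1⟩, ⟨_, ((h z.1).mp z.2).2⟩)
      invFun := fun y => ⟨Fin.append y.1.1 y.2.1, (h _).mpr (by
        have a1 : (fun j => Fin.append y.1.1 y.2.1 (Fin.castAdd W.n j)) = y.1.1 := by
          funext j; exact Fin.append_left _ _ j
        have a2 : (fun j => Fin.append y.1.1 y.2.1 (Fin.natAdd V.n j)) = y.2.1 := by
          funext j; exact Fin.append_right _ _ j
        rw [a1, a2]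
        exact ⟨y.1.2, y.2.2⟩)⟩
      left_inv := by
        intro z
        apply Subtype.ext
        funext j
        induction j using Fin.addCases with
        | left j => exact Fin.append_left _ _ j
        | right j => exact Fin.append_right _ _ j
      right_inv := by
        rintro ⟨y1, y2⟩
        refine Prod.ext (Subtype.ext (funext fun j => ?_)) (Subtype.ext (funext fun j => ?_))
        · exact Fin.append_left _ _ j
        · exact Fin.append_right _ _ j }

theorem count_affine (i : Idx k) (n : ℕ) : Nat.card (i.pts ⟨n, []⟩) = Nat.card i.F ^ n := by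
  have : i.pts ⟨n, []⟩ = Set.univ := by
    ext x
    simp [Idx.pts]
  rw [this]
  have h : Nat.card (Set.univ : Set (Fin n → i.F)) = Nat.card (Fin n → i.F) :=
    Nat.card_congr (Equiv.Set.univ _)
  rw [Nat.card_fun, Nat.card_fin] at h
  exact h

end Pool.Agent.Hhelper17.Lift
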