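import Mathlib
import Pool.Agent.Hhelper17.Lift.Count

set_option linter.all false

namespace Pool.Agent.Hhelper17.Lift

open Filter

universe u

theorem jacobson_int : IsJacobsonRing ℤ := by
  rw [isJacobsonRing_iff_prime_eq]
  intro P hP
  by_cases h0 : P = ⊥
  · subst h0
    rw [eq_bot_iff]
    intro x hx
    rw [Ideal.mem_jacobson_bot] at hx
    have h := hx x
    rw [Int.isUnit_iff] at h
    rw [Ideal.mem_bot]
    rcases h with h | h <;> nlinarith
  · have : P.IsMaximal := hP.isMaximal h0
    exact Ideal.jacobson_eq_self_of_isMaximal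

variable {k : Type u} [Field k]

theorem exists_idx (s : Set k) (hs : s.Finite) : ∃ i : Idx k, s ⊆ i.R := by
  let A := Algebra.adjoin ℤ s
  have hA : Algebra.FiniteType ℤ A :=
    (Subalgebra.fg_iff_finiteType A).mp (Subalgebra.fg_def.mpr ⟨s, hs, rfl⟩)
  obtain ⟨m, hm⟩ := Ideal.exists_maximal A
  letI : Field (A ⧸ m) := Ideal.Quotient.field m
  haveI := jacobson_int
  haveI : Algebra.FiniteType ℤ (A ⧸ m) := inferInstance
  haveI : Module.Finite ℤ (A ⧸ m) := finite_of_finite_type_of_isJacobsonRing ℤ (A ⧸ m)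
  have hfin : Finite (A ⧸ m) := by
    apply Module.finite_of_fg_torsion
    have hn : ∃ n : ℤ, n ≠ 0 ∧ algebraMap ℤ (A ⧸ m) n = 0 := by
      by_contra hc
      push Not at hc
      have hinj : Function.Injective (algebraMap ℤ (A ⧸ m)) := by
        rw [injective_iff_map_eq_zero]
        intro n hn
        by_contra h0
        exact hc n h0 hn
      have hI : IsField ℤ := isField_of_isIntegral_of_isField hinj (Field.toIsField _)
      exact Int.not_isField hI
    obtain ⟨n, hn0, hn⟩ := hn
    intro x
    refine ⟨⟨n, mem_nonZeroDivisors_of_ne_zero hn0⟩, ?_⟩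
    show n • x = 0
    rw [Algebra.smul_def, hn, zero_mul]
  exact ⟨{ R := A.toSubring, F := A ⧸ m, ψ := Ideal.Quotient.mk m }, Algebra.subset_adjoin⟩

end Pool.Agent.Hhelper17.Lift
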