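import Mathlib
import Pool.Agent.Hhelper17.Lift.Exist

set_option linter.all false

namespace Pool.Agent.Hhelper17.Lift

open Filter

universe u

variable {k : Type u} [Field k]

instance lF_neBot : (lF k).NeBot := by
  constructor
  rw [ne_eq, ← empty_mem_iff_bot]
  rintro ⟨s, hs, h⟩
  obtain ⟨i, hi⟩ := exists_idx s hs
  exact h i hi

/-- the number of elements of the finite field -/
noncomputable def Idx.q (i : Idx k) : ℚ := (Nat.card i.F : ℚ)

theorem Idx.q_pos (i : Idx k) : 0 < i.q := by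
  have : 0 < Nat.card i.F := Nat.card_pos
  rw [Idx.q]
  exact_mod_cast this

theorem Idx.one_le_q (i : Idx k) : 1 ≤ i.q := by
  have : 1 ≤ Nat.card i.F := Nat.card_pos
  rw [Idx.q]
  exact_mod_cast this

theorem eventually_q_gt [CharZero k] (N : ℕ) : ∀ᶠ i in lF k, (N : ℚ) < i.q := by
  filter_upwards [eventually_mem (((N.factorial : ℕ) : k)⁻¹)] with i hi
  have h0 : ((N.factorial : ℕ) : k) ≠ 0 := by exact_mod_cast N.factorial_ne_zero
  have h1 : ((N.factorial : ℕ) : i.R) * ⟨_, hi⟩ = 1 := by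
    apply Subtype.ext
    simp [mul_inv_cancel₀ h0]
  have h2 : ((N.factorial : ℕ) : i.F) ≠ 0 := by
    intro h
    have := congrArg i.ψ h1
    rw [map_mul, map_natCast, h, zero_mul, map_one] at this
    exact zero_ne_one this
  have h3 : N < Nat.card i.F := by
    by_contra hc
    push Not at hc
    have hd : Nat.card i.F ∣ N.factorial := Nat.dvd_factorial Nat.card_pos hc
    obtain ⟨c, hc⟩ := hd
    apply h2
    haveI : Fintype i.F := Fintype.ofFinite _
    rw [hc, Nat.cast_mul, Nat.card_eq_fintype_card, FiniteField.cast_card_eq_zero, zero_mul]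
  rw [Idx.q]
  exact_mod_cast h3

/-- the point counts of an affine variety -/
noncomputable def cnt (V : AffVar k) (i : Idx k) : ℚ := (Nat.card (i.pts V) : ℚ)

variable (k) in
/-- the ring of functions on the index set modulo eventually zero functions -/
abbrev Gm := Germ (lF k) ℚ

/-- the point counting functional on the free ring -/
noncomputable def Φ0 : FreeCommRing (AffVar k) →+* Gm k :=
  FreeCommRing.lift fun V => ((cnt V : Idx k → ℚ) : Gm k)

theorem Φ0_of (V : AffVar k) : Φ0 (FreeCommRing.of V) = ((cnt V : Idx k → ℚ) : Gm k) :=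
  FreeCommRing.lift_of _ _

theorem Φ0_rel (a b : FreeCommRing (AffVar k)) (h : KRel k a b) : Φ0 a = Φ0 b := by
  cases h with
  | iso V W e =>
    rw [Φ0_of, Φ0_of, Germ.coe_eq]
    filter_upwards [count_iso V W e] with i hi
    rw [cnt, cnt, hi]
  | scissor V f =>
    rw [Φ0_of, map_add, Φ0_of, Φ0_of, ← Germ.coe_add, Germ.coe_eq]
    filter_upwards [count_scissor V f] with i hi
    rw [Pi.add_apply, cnt, cnt, cnt, hi, Nat.cast_add]
  | prod V W =>
    rw [Φ0_of, map_mul, Φ0_of, Φ0_of, ← Germ.coe_mul, Germ.coe_eq]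
    filter_upwards [count_prod V W] with i hi
    rw [Pi.mul_apply, cnt, cnt, cnt, hi, Nat.cast_mul]
  | point =>
    rw [Φ0_of, map_one, ← Germ.coe_one, Germ.coe_eq]
    refine Eventually.of_forall fun i => ?_
    rw [cnt, count_affine, pow_zero, Nat.cast_one]
    rfl

/-- the point counting functional on the Grothendieck ring -/
noncomputable def Φ1 : K0 k →+* Gm k :=
  Ideal.Quotient.lift _ Φ0 (by
    intro a ha
    have : Ideal.span {z | ∃ a b, KRel k a b ∧ z = a - b} ≤ RingHom.ker (Φ0 (k := k)) := by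
      rw [Ideal.span_le]
      rintro z ⟨a, b, hab, rfl⟩
      rw [SetLike.mem_coe, RingHom.mem_ker, map_sub, Φ0_rel a b hab, sub_self]
    exact this ha)

theorem Φ1_cls (V : AffVar k) : Φ1 (cls V) = ((cnt V : Idx k → ℚ) : Gm k) := Φ0_of V

instance : IsLocalization.Away (Lclass k) (Mloc k) :=
  (inferInstance : IsLocalization.Away (Lclass k) (Localization.Away (Lclass k)))

theorem L_mul_Linv : algebraMap (K0 k) (Mloc k) (Lclass k) * Linv k = 1 :=
  IsLocalization.Away.mul_invSelf (S := Localization.Away (Lclass k)) (Lclass k)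

theorem Φ1_L : Φ1 (Lclass k) = ((Idx.q : Idx k → ℚ) : Gm k) := by
  rw [Lclass, Φ1_cls, Germ.coe_eq]
  refine Eventually.of_forall fun i => ?_
  rw [cnt, count_affine, pow_one]
  rfl

theorem q_mul_inv : ((Idx.q : Idx k → ℚ) : Gm k) * ((fun i => i.q⁻¹ : Idx k → ℚ) : Gm k) = 1 := by
  rw [← Germ.coe_mul, ← Germ.coe_one, Germ.coe_eq]
  exact Eventually.of_forall fun i => mul_inv_cancel₀ i.q_pos.ne'

theorem isUnit_L : IsUnit (Φ1 (Lclass k)) := by
  rw [Φ1_L]
  exact IsUnit.of_mul_eq_one _ q_mul_inv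

/-- the point counting functional on the localized Grothendieck ring -/
noncomputable def Φ : Mloc k →+* Gm k := IsLocalization.Away.lift (Lclass k) isUnit_L

theorem Φ_algebraMap (x : K0 k) : Φ (algebraMap (K0 k) (Mloc k) x) = Φ1 x :=
  IsLocalization.Away.lift_eq (Lclass k) isUnit_L x

theorem Φ_Linv : Φ (Linv k) = ((fun i => i.q⁻¹ : Idx k → ℚ) : Gm k) := by
  have h := L_mul_Linv (k := k)
  have h1 := congrArg Φ h
  rw [map_mul, Φ_algebraMap, Φ1_L, map_one] at h1
  have h2 := q_mul_inv (k := k)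
  have h3 : IsUnit ((Idx.q : Idx k → ℚ) : Gm k) := IsUnit.of_mul_eq_one _ q_mul_inv
  exact h3.mul_left_cancel (h1.trans h2.symm)

/-- an element of the ring of germs is small of order `m` -/
def Small (m : ℕ) (z : Gm k) : Prop :=
  ∃ g : Idx k → ℚ, z = (g : Gm k) ∧ ∃ C : ℚ, ∀ᶠ i in lF k, |g i| * i.q ^ m ≤ C

theorem Small.zero (m : ℕ) : Small m (0 : Gm k) :=
  ⟨0, rfl, 0, Eventually.of_forall fun i => by simp⟩

theorem Small.add {m : ℕ} {y z : Gm k} (hy : Small m y) (hz : Small m z) : Small m (y + z) := by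
  obtain ⟨g, rfl, C, hC⟩ := hy
  obtain ⟨h, rfl, D, hD⟩ := hz
  refine ⟨g + h, rfl, C + D, ?_⟩
  filter_upwards [hC, hD] with i h1 h2
  have h3 : |g i + h i| ≤ |g i| + |h i| := abs_add_le _ _
  have h4 : 0 ≤ i.q ^ m := pow_nonneg i.q_pos.le _
  calc |(g + h) i| * i.q ^ m ≤ (|g i| + |h i|) * i.q ^ m := mul_le_mul_of_nonneg_right h3 h4
    _ = |g i| * i.q ^ m + |h i| * i.q ^ m := by ring
    _ ≤ C + D := add_le_add h1 h2

theorem Small.neg {m : ℕ} {y : Gm k} (hy : Small m y) : Small m (-y) := by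
  obtain ⟨g, rfl, C, hC⟩ := hy
  refine ⟨-g, rfl, C, ?_⟩
  filter_upwards [hC] with i h1
  rwa [Pi.neg_apply, abs_neg]

end Pool.Agent.Hhelper17.Lift
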