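import Mathlib
import Pool.Agent.Hhelper17.Lift.Func

set_option linter.all false

namespace Pool.Agent.Hhelper17.Lift

open Filter

universe u

/-- Integral injective extensions do not lower the dimension. -/
theorem dim_le_of_integral {R S : Type u} [CommRing R] [CommRing S] [Algebra R S]
    [Algebra.IsIntegral R S] (hinj : Function.Injective (algebraMap R S)) (n : ℕ)
    (hn : (n : WithBot ℕ∞) ≤ ringKrullDim R) : (n : WithBot ℕ∞) ≤ ringKrullDim S := by
  rw [ringKrullDim, Order.le_krullDim_iff] at hn ⊢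
  obtain ⟨l, hl⟩ := hn
  haveI : FaithfulSMul R S := (faithfulSMul_iff_algebraMap_injective R S).mpr hinj
  obtain ⟨P, hP1, hP2⟩ := Ideal.nonempty_primesOver (S := S) l.head.asIdeal
  haveI := hP1
  haveI := hP2
  obtain ⟨L, hL, _⟩ := Ideal.exists_ltSeries_of_hasGoingUp l P
  exact ⟨L, hL.trans hl⟩

variable {k : Type u} [Field k]

theorem eventually_ev_sum {σ : Type} {ι : Type*} (s : Finset ι) (f : ι → MvPolynomial σ k) :
    ∀ᶠ i in lF k, ∀ x : σ → i.F, i.ev x (∑ j ∈ s, f j) = ∑ j ∈ s, i.ev x (f j) := by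
  classical
  induction s using Finset.induction_on with
  | empty => exact Eventually.of_forall fun i x => by simp [Idx.ev_zero]
  | insert a s ha ih =>
    filter_upwards [ih, eventually_ev_add (f a) (∑ j ∈ s, f j)] with i h1 h2 x
    rw [Finset.sum_insert ha, Finset.sum_insert ha, h2, h1]

theorem eventually_ev_pow {σ : Type} (p : MvPolynomial σ k) (n : ℕ) :
    ∀ᶠ i in lF k, ∀ x : σ → i.F, i.ev x (p ^ n) = i.ev x p ^ n := by
  induction n with
  | zero => exact Eventually.of_forall fun i x => by simp [Idx.ev_one]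
  | succ n ih =>
    filter_upwards [ih, eventually_ev_mul (p ^ n) p] with i h1 h2 x
    rw [pow_succ, h2, h1, pow_succ]

theorem card_le_of_noether (V : AffVar k) (s : ℕ) (g : MvPolynomial (Fin s) k →ₐ[k] V.ring)
    (hg : g.IsIntegral) :
    ∃ C : ℕ, ∀ᶠ i in lF k, Nat.card (i.pts V) ≤ C * Nat.card i.F ^ s := by
  classical
  let mV := Ideal.Quotient.mkₐ k (V.ideal)
  have hmV : ∀ p, mV p = 0 ↔ p ∈ V.ideal := fun p =>
    Ideal.Quotient.eq_zero_iff_mem
  have hz : ∀ a : Fin s, ∃ z : MvPolynomial (Fin V.n) k, mV z = g (MvPolynomial.X a) :=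
    fun a => Ideal.Quotient.mk_surjective _
  choose z hz using hz
  have hZ : ∀ q, mV (MvPolynomial.aeval z q) = g q := by
    intro q
    have : mV.comp (MvPolynomial.aeval z) = g := by
      apply MvPolynomial.algHom_ext
      intro j
      simp [hz]
    exact DFunLike.congr_fun this q
  have hP : ∀ j : Fin V.n, ∃ P : Polynomial (MvPolynomial (Fin s) k), P.Monic ∧
      Polynomial.eval₂ (g : MvPolynomial (Fin s) k →+* V.ring) (mV (MvPolynomial.X j)) P = 0 :=
    fun j => hg (mV (MvPolynomial.X j))
  choose P hPm hP using hP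
  let W : Fin V.n → MvPolynomial (Fin V.n) k := fun j =>
    ∑ e ∈ Finset.range ((P j).natDegree + 1),
      MvPolynomial.aeval z ((P j).coeff e) * MvPolynomial.X j ^ e
  have hW : ∀ j, W j ∈ V.ideal := by
    intro j
    rw [← hmV, map_sum, ← hP j, Polynomial.eval₂_eq_sum_range]
    refine Finset.sum_congr rfl fun e _ => ?_
    rw [map_mul, map_pow, hZ]
    rfl
  have E1 : ∀ᶠ i in lF k, ∀ j : Fin V.n, ∀ x : Fin V.n → i.F, (∀ q ∈ V.eqs, i.ev x q = 0) →
      i.ev x (W j) = 0 := by
    rw [eventually_all]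
    exact fun j => eventually_ev_mem V.eqs _ (hW j)
  have E2 : ∀ᶠ i in lF k, ∀ j : Fin V.n, ∀ x : Fin V.n → i.F,
      i.ev x (W j) = ∑ e ∈ Finset.range ((P j).natDegree + 1),
        i.ev (fun a => i.ev x (z a)) ((P j).coeff e) * x j ^ e := by
    rw [eventually_all]
    intro j
    have h2 : ∀ᶠ i in lF k, ∀ e ∈ Finset.range ((P j).natDegree + 1), ∀ x : Fin V.n → i.F,
        i.ev x (MvPolynomial.aeval z ((P j).coeff e) * MvPolynomial.X j ^ e) =
          i.ev (fun a => i.ev x (z a)) ((P j).coeff e) * x j ^ e := by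
      rw [Finset.eventually_all]
      intro e _
      filter_upwards [eventually_ev_mul (MvPolynomial.aeval z ((P j).coeff e))
        (MvPolynomial.X j ^ e), eventually_ev_aeval z ((P j).coeff e),
        eventually_ev_pow (MvPolynomial.X j : MvPolynomial (Fin V.n) k) e] with i h1 h2 h3 x
      rw [h1, h2, h3, Idx.ev_X]
    filter_upwards [h2, eventually_ev_sum (Finset.range ((P j).natDegree + 1))
      (fun e => MvPolynomial.aeval z ((P j).coeff e) * MvPolynomial.X j ^ e)] with i h3 h4 x
    rw [h4]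
    exact Finset.sum_congr rfl fun e he => h3 e he x
  refine ⟨∏ j, (P j).natDegree, ?_⟩
  filter_upwards [E1, E2] with i e1 e2
  haveI : Fintype i.F := Fintype.ofFinite _
  let pol : (Fin s → i.F) → Fin V.n → Polynomial i.F := fun w j =>
    ∑ e ∈ Finset.range ((P j).natDegree + 1),
      Polynomial.monomial e (i.ev w ((P j).coeff e))
  have hcoeff : ∀ w j, (pol w j).coeff (P j).natDegree = 1 := by
    intro w j
    rw [Polynomial.finset_sum_coeff]
    simp only [Polynomial.coeff_monomial]
    rw [Finset.sum_ite_eq']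
    rw [if_pos (Finset.mem_range.mpr (Nat.lt_succ_self _)), (hPm j).coeff_natDegree, Idx.ev_one]
  have hne : ∀ w j, pol w j ≠ 0 := by
    intro w j h
    have := hcoeff w j
    rw [h, Polynomial.coeff_zero] at this
    exact zero_ne_one this
  have hdeg : ∀ w j, (pol w j).natDegree ≤ (P j).natDegree := by
    intro w j
    apply Polynomial.natDegree_sum_le_of_forall_le
    intro e he
    exact (Polynomial.natDegree_monomial_le _).trans (Nat.lt_succ_iff.mp (Finset.mem_range.mp he))
  have hroot : ∀ x ∈ i.pts V, ∀ j, x j ∈ (pol (fun a => i.ev x (z a)) j).roots.toFinset := by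
    intro x hx j
    rw [Multiset.mem_toFinset, Polynomial.mem_roots (hne _ _), Polynomial.IsRoot.def,
      Polynomial.eval_finset_sum]
    simp only [Polynomial.eval_monomial]
    rw [← e2 j x]
    exact e1 j x hx
  let S : Finset (Fin V.n → i.F) := Finset.univ.filter (fun x => x ∈ i.pts V)
  have hS : Nat.card (i.pts V) = S.card := by
    rw [Nat.card_eq_fintype_card, Fintype.card_subtype]
  let f : (Fin V.n → i.F) → (Fin s → i.F) := fun x a => i.ev x (z a)
  have hT : (Finset.univ : Finset (Fin s → i.F)).card = Nat.card i.F ^ s := by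
    rw [Finset.card_univ, Fintype.card_fun, Fintype.card_fin, Nat.card_eq_fintype_card]
  rw [hS, ← hT]
  apply Finset.card_le_mul_card_image_of_maps_to (f := f) (fun _ _ => Finset.mem_univ _)
  intro w _
  have hsub : S.filter (fun x => f x = w) ⊆
      Fintype.piFinset (fun j => (pol w j).roots.toFinset) := by
    intro x hx
    rw [Finset.mem_filter, Finset.mem_filter] at hx
    rw [Fintype.mem_piFinset]
    intro j
    have := hroot x hx.1.2 j
    rw [← hx.2]
    exact this
  refine (Finset.card_le_card hsub).trans ?_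
  rw [Fintype.card_piFinset]
  apply Finset.prod_le_prod'
  intro j _
  exact (Multiset.toFinset_card_le _).trans ((Polynomial.card_roots' _).trans (hdeg w j))

/-- The point counts are bounded in terms of the dimension. -/
theorem cnt_bound (V : AffVar k) (n m : ℕ) (h : ringKrullDim V.ring + m ≤ n) :
    ∃ C : ℚ, ∀ᶠ i in lF k, cnt V i * i.q ^ m ≤ C * i.q ^ n := by
  rcases subsingleton_or_nontrivial V.ring with hs | hn
  · refine ⟨0, ?_⟩
    have h1 : (1 : MvPolynomial (Fin V.n) k) ∈ V.ideal := by
      rw [← Ideal.Quotient.eq_zero_iff_mem]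
      exact Subsingleton.elim _ _
    filter_upwards [eventually_ev_mem V.eqs 1 h1] with i hi
    have h2 : IsEmpty (i.pts V) := by
      constructor
      rintro ⟨x, hx⟩
      have := hi x hx
      rw [Idx.ev_one] at this
      exact one_ne_zero this
    rw [cnt, Nat.card_of_isEmpty]
    simp
  · obtain ⟨s, g, hinj, hint⟩ := exists_integral_inj_algHom_of_fg k V.ring
    obtain ⟨C, hC⟩ := card_le_of_noether V s g hint
    have hsdim : (s : WithBot ℕ∞) ≤ ringKrullDim V.ring := by
      letI : Algebra (MvPolynomial (Fin s) k) V.ring := g.toRingHom.toAlgebra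
      haveI : Algebra.IsIntegral (MvPolynomial (Fin s) k) V.ring := ⟨hint⟩
      refine dim_le_of_integral (R := MvPolynomial (Fin s) k) hinj s ?_
      rw [MvPolynomial.ringKrullDim_of_isNoetherianRing, ringKrullDim_eq_zero_of_field, zero_add,
        Nat.card_fin]
    have hsm : s + m ≤ n := by
      have h2 : ((s + m : ℕ) : WithBot ℕ∞) ≤ (n : WithBot ℕ∞) := by
        push_cast
        exact (add_le_add_left hsdim _).trans h
      exact_mod_cast h2
    refine ⟨C, ?_⟩
    filter_upwards [hC] with i hi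
    have hi' : cnt V i ≤ C * i.q ^ s := by
      rw [cnt, Idx.q]
      exact_mod_cast hi
    have h4 : 0 ≤ i.q ^ m := pow_nonneg i.q_pos.le _
    calc cnt V i * i.q ^ m ≤ (C * i.q ^ s) * i.q ^ m := mul_le_mul_of_nonneg_right hi' h4
      _ = C * i.q ^ (s + m) := by ring
      _ ≤ C * i.q ^ n := by
        apply mul_le_mul_of_nonneg_left _ (Nat.cast_nonneg _)
        exact pow_le_pow_right₀ i.one_le_q hsm

/-- Elements of `Fᵐ` have small point counts. -/
theorem small_of_mem_filt {m : ℕ} {x : Mloc k} (hx : x ∈ Filt k m) : Small m (Φ x) := by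
  induction hx using AddSubgroup.closure_induction with
  | mem x hx =>
    obtain ⟨V, n, h, rfl⟩ := hx
    obtain ⟨C, hC⟩ := cnt_bound V n m h
    refine ⟨fun i => cnt V i * (i.q⁻¹) ^ n, ?_, C, ?_⟩
    · rw [map_mul, map_pow, Φ_algebraMap, Φ1_cls, Φ_Linv]
      rfl
    · filter_upwards [hC] with i hi
      have h1 : 0 < i.q ^ n := pow_pos i.q_pos _
      have h2 : 0 ≤ cnt V i := Nat.cast_nonneg _
      have h3 : 0 ≤ (i.q⁻¹) ^ n := pow_nonneg (inv_nonneg.mpr i.q_pos.le) _
      rw [abs_of_nonneg (mul_nonneg h2 h3), inv_pow]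
      rw [mul_assoc, mul_comm (i.q ^ n)⁻¹, ← mul_assoc, ← div_eq_mul_inv, div_le_iff₀ h1]
      exact hi
  | zero => rw [map_zero]; exact Small.zero m
  | add x y _ _ hx hy => rw [map_add]; exact hx.add hy
  | neg x _ hx => rw [map_neg]; exact hx.neg

end Pool.Agent.Hhelper17.Lift
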