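import Mathlib
import Pool.Agent.Hhelper17.Lift.Dim

set_option linter.all false

namespace Pool.Agent.Hhelper17.Lift

open Filter Topology

universe u

variable {k : Type u} [Field k] {σ : Type}

theorem eventually_empty (E : List (MvPolynomial σ k)) (f : MvPolynomial σ k)
    (h : locClosed E f = ∅) :
    ∀ᶠ i in lF k, ∀ x : σ → i.F, (∀ g ∈ E, i.ev x g = 0) → i.ev x f = 0 := by
  have hf : f ∈ (Ideal.span {g | g ∈ E}).radical := by
    rw [Ideal.radical_eq_sInf, Ideal.mem_sInf]
    rintro J ⟨hJ, hJp⟩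
    by_contra hfJ
    have : (⟨J, hJp⟩ : PrimeSpectrum (MvPolynomial σ k)) ∈ locClosed E f :=
      ⟨fun g hg => hJ (Ideal.subset_span hg), hfJ⟩
    rw [h] at this
    exact this
  obtain ⟨n, hn⟩ := Ideal.mem_radical_iff.mp hf
  filter_upwards [eventually_ev_mem E _ hn, eventually_ev_pow f n] with i h1 h2 x hx
  have := h1 x hx
  rw [h2] at this
  by_contra h0
  exact pow_ne_zero n h0 this

/-- A covering by locally closed sets gives a covering of the points over finite fields. -/
theorem eventually_cover (L : List (List (MvPolynomial σ k) × MvPolynomial σ k)) :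
    ∀ (E : List (MvPolynomial σ k)) (f : MvPolynomial σ k),
    (∀ p ∈ locClosed E f, ∃ a ∈ L, p ∈ locClosed a.1 a.2) →
    ∀ᶠ i in lF k, ∀ x : σ → i.F, (∀ g ∈ E, i.ev x g = 0) → i.ev x f ≠ 0 →
      ∃ a ∈ L, (∀ g ∈ a.1, i.ev x g = 0) ∧ i.ev x a.2 ≠ 0 := by
  induction L with
  | nil =>
    intro E f h
    have h0 : locClosed E f = ∅ := by
      rw [Set.eq_empty_iff_forall_notMem]
      intro p hp
      obtain ⟨a, ha, _⟩ := h p hp
      exact absurd ha List.not_mem_nil
    filter_upwards [eventually_empty E f h0] with i hi x hx hf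
    exact absurd (hi x hx) hf
  | cons a L ih =>
    intro E f h
    have hA := ih (a.2 :: E) f (by
      rintro p ⟨hp1, hp2⟩
      obtain ⟨b, hb, hpb⟩ := h p ⟨fun g hg => hp1 g (List.mem_cons_of_mem _ hg), hp2⟩
      rcases List.mem_cons.mp hb with rfl | hb
      · exact absurd (hp1 _ List.mem_cons_self) hpb.2
      · exact ⟨b, hb, hpb⟩)
    have hB := eventually_list a.1 (fun g hg => ih E (f * g) (by
      rintro p ⟨hp1, hp2⟩
      have hf : f ∉ p.asIdeal := fun hf => hp2 (Ideal.mul_mem_right _ _ hf)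
      have hg' : g ∉ p.asIdeal := fun hg' => hp2 (Ideal.mul_mem_left _ _ hg')
      obtain ⟨b, hb, hpb⟩ := h p ⟨hp1, hf⟩
      rcases List.mem_cons.mp hb with rfl | hb
      · exact absurd (hpb.1 g hg) hg'
      · exact ⟨b, hb, hpb⟩))
    have hC := eventually_list a.1 (fun g _ => eventually_ev_mul f g)
    filter_upwards [hA, hB, hC] with i hA hB hC x hx hf
    by_cases h1 : i.ev x a.2 = 0
    · obtain ⟨b, hb, hb'⟩ := hA x (by
        intro g hg
        rcases List.mem_cons.mp hg with rfl | hg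
        · exact h1
        · exact hx g hg) hf
      exact ⟨b, List.mem_cons_of_mem _ hb, hb'⟩
    · by_cases h2 : ∀ g ∈ a.1, i.ev x g = 0
      · exact ⟨a, List.mem_cons_self, h2, h1⟩
      · push Not at h2
        obtain ⟨g, hg, hg0⟩ := h2
        obtain ⟨b, hb, hb'⟩ := hB g hg x hx (by rw [hC g hg]; exact mul_ne_zero hf hg0)
        exact ⟨b, List.mem_cons_of_mem _ hb, hb'⟩

section top

theorem isOpen_zero (g : MvPolynomial σ k) :
    IsOpen[constructibleTopology (PrimeSpectrum (MvPolynomial σ k))] {p | g ∈ p.asIdeal} := by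
  apply IsCompact.isOpen_constructibleTopology_of_isClosed
  · have : {p : PrimeSpectrum (MvPolynomial σ k) | g ∈ p.asIdeal}ᶜ =
      PrimeSpectrum.basicOpen g := by ext p; rfl
    rw [this]
    exact PrimeSpectrum.isCompact_basicOpen g
  · have : {p : PrimeSpectrum (MvPolynomial σ k) | g ∈ p.asIdeal} =
      (PrimeSpectrum.basicOpen g : Set (PrimeSpectrum (MvPolynomial σ k)))ᶜ := by
      ext p; simp
    rw [this]
    exact (PrimeSpectrum.basicOpen g).isOpen.isClosed_compl

theorem isOpen_nonzero (g : MvPolynomial σ k) :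
    IsOpen[constructibleTopology (PrimeSpectrum (MvPolynomial σ k))] {p | g ∉ p.asIdeal} := by
  apply IsCompact.isOpen_constructibleTopology_of_isOpen
  · exact PrimeSpectrum.isCompact_basicOpen g
  · exact (PrimeSpectrum.basicOpen g).isOpen

theorem isOpen_locClosed (E : List (MvPolynomial σ k)) (f : MvPolynomial σ k) :
    IsOpen[constructibleTopology (PrimeSpectrum (MvPolynomial σ k))] (locClosed E f) := by
  letI := constructibleTopology (PrimeSpectrum (MvPolynomial σ k))
  induction E with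
  | nil =>
    have : locClosed [] f = {p : PrimeSpectrum (MvPolynomial σ k) | f ∉ p.asIdeal} := by
      ext p
      exact ⟨fun h => h.2, fun h => ⟨fun g hg => absurd hg List.not_mem_nil, h⟩⟩
    rw [this]
    exact isOpen_nonzero f
  | cons g E ih =>
    have : locClosed (g :: E) f =
        {p : PrimeSpectrum (MvPolynomial σ k) | g ∈ p.asIdeal} ∩ locClosed E f := by
      ext p
      constructor
      · rintro ⟨h1, h2⟩
        exact ⟨h1 g List.mem_cons_self, fun g' hg' => h1 g' (List.mem_cons_of_mem _ hg'), h2⟩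
      · rintro ⟨h0, h1, h2⟩
        refine ⟨fun g' hg' => ?_, h2⟩
        rcases List.mem_cons.mp hg' with rfl | hg'
        · exact h0
        · exact h1 g' hg'
    rw [this]
    exact (isOpen_zero g).inter ih

/-- Compactness of the constructible topology. -/
theorem exists_finite_cover {Y : Set (PrimeSpectrum (MvPolynomial σ k))}
    (hY : IsOpen[constructibleTopology (PrimeSpectrum (MvPolynomial σ k))] Yᶜ) {ι : Type}
    (U : ι → Set (PrimeSpectrum (MvPolynomial σ k)))
    (hU : ∀ j, IsOpen[constructibleTopology (PrimeSpectrum (MvPolynomial σ k))] (U j))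
    (h : Y ⊆ ⋃ j, U j) : ∃ t : Finset ι, Y ⊆ ⋃ j ∈ t, U j := by
  let X := PrimeSpectrum (MvPolynomial σ k)
  let o : WithConstructibleTopology X → X := WithTopology.ofTopology
  have hcl : IsClosed (o ⁻¹' Y) := by
    rw [← isOpen_compl_iff, WithConstructibleTopology.isOpen_iff]
    exact hY
  have hc : IsCompact (o ⁻¹' Y) := hcl.isCompact
  obtain ⟨t, ht⟩ := hc.elim_finite_subcover (fun j => o ⁻¹' (U j)) (fun j => by
    rw [WithConstructibleTopology.isOpen_iff]
    exact hU j) (by
    intro p hp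
    obtain ⟨j, hj⟩ := Set.mem_iUnion.mp (h hp)
    exact Set.mem_iUnion.mpr ⟨j, hj⟩)
  refine ⟨t, fun p hp => ?_⟩
  have h1 : (WithTopology.toTopology _ p : WithConstructibleTopology X) ∈ o ⁻¹' Y := hp
  obtain ⟨j, hj⟩ := Set.mem_iUnion.mp (ht h1)
  obtain ⟨hjt, hj'⟩ := Set.mem_iUnion.mp hj
  exact Set.mem_iUnion.mpr ⟨j, Set.mem_iUnion.mpr ⟨hjt, hj'⟩⟩

theorem isOpen_compl_zeros {ι : Type} (g : ι → MvPolynomial σ k) :
    IsOpen[constructibleTopology (PrimeSpectrum (MvPolynomial σ k))]
      {p : PrimeSpectrum (MvPolynomial σ k) | ∀ j, g j ∈ p.asIdeal}ᶜ := by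
  have : {p : PrimeSpectrum (MvPolynomial σ k) | ∀ j, g j ∈ p.asIdeal}ᶜ =
      ⋃ j, {p : PrimeSpectrum (MvPolynomial σ k) | g j ∉ p.asIdeal} := by
    ext p
    simp
  rw [this]
  exact @isOpen_iUnion _ _ (constructibleTopology (PrimeSpectrum (MvPolynomial σ k))) _
    (fun j => isOpen_nonzero (g j))

end top

end Pool.Agent.Hhelper17.Lift
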