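import Mathlib
import Pool.Agent.Hhelper17.Lift.Cover

set_option linter.all false

namespace Pool.Agent.Hhelper17.Lift

open Filter Topology

universe u

variable {k : Type u} [Field k]

/-- the points over a finite field of a union of locally closed sets -/
def Idx.lset (i : Idx k) {σ : Type} (L : List (List (MvPolynomial σ k) × MvPolynomial σ k)) :
    Set (σ → i.F) :=
  {x | ∃ a ∈ L, (∀ g ∈ a.1, i.ev x g = 0) ∧ i.ev x a.2 ≠ 0}

theorem HasClass.exists_list {n : ℕ} {C : Set (PrimeSpectrum (MvPolynomial (Fin n) k))} {c : K0 k}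
    (h : HasClass C c) :
    ∃ L : List (List (MvPolynomial (Fin n) k) × MvPolynomial (Fin n) k),
      (∀ p, p ∈ C ↔ ∃ a ∈ L, p ∈ locClosed a.1 a.2) ∧
      ∃ g : Idx k → ℚ, Φ1 c = (g : Gm k) ∧ ∀ᶠ i in lF k, ((i.lset L).ncard : ℚ) ≤ g i := by
  induction h with
  | empty =>
    refine ⟨[], fun p => ⟨fun hp => absurd hp (Set.notMem_empty p), ?_⟩, 0, map_zero _, ?_⟩
    · rintro ⟨a, ha, _⟩
      exact absurd ha List.not_mem_nil
    · refine Eventually.of_forall fun i => ?_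
      have : i.lset ([] : List (List (MvPolynomial (Fin n) k) × MvPolynomial (Fin n) k)) = ∅ := by
        rw [Set.eq_empty_iff_forall_notMem]
        rintro x ⟨a, ha, _⟩
        exact absurd ha List.not_mem_nil
      rw [this]
      simp
  | union E f C c h hd ih =>
    obtain ⟨L, hL, g, hg, hcard⟩ := ih
    refine ⟨(E, f) :: L, ?_, fun i => cnt ((AffVar.mk n E).loc f) i + g i, ?_, ?_⟩
    · intro p
      constructor
      · rintro (hp | hp)
        · exact ⟨_, List.mem_cons_self, hp⟩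
        · obtain ⟨a, ha, hpa⟩ := (hL p).mp hp
          exact ⟨a, List.mem_cons_of_mem _ ha, hpa⟩
      · rintro ⟨a, ha, hpa⟩
        rcases List.mem_cons.mp ha with rfl | ha
        · exact Or.inl hpa
        · exact Or.inr ((hL p).mpr ⟨a, ha, hpa⟩)
    · rw [map_add, Φ1_cls, hg]; rfl
    · filter_upwards [hcard, count_loc (AffVar.mk n E) f] with i h1 h2
      have h3 : i.lset ((E, f) :: L) ⊆
          {x : Fin n → i.F | x ∈ i.pts (AffVar.mk n E) ∧ i.ev x f ≠ 0} ∪ i.lset L := by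
        rintro x ⟨a, ha, hx⟩
        rcases List.mem_cons.mp ha with rfl | ha
        · exact Or.inl hx
        · exact Or.inr ⟨a, ha, hx⟩
      have h4 : (i.lset ((E, f) :: L)).ncard ≤
          {x : Fin n → i.F | x ∈ i.pts (AffVar.mk n E) ∧ i.ev x f ≠ 0}.ncard +
            (i.lset L).ncard :=
        (Set.ncard_le_ncard h3 (Set.toFinite _)).trans (Set.ncard_union_le _ _)
      have h5 : {x : Fin n → i.F | x ∈ i.pts (AffVar.mk n E) ∧ i.ev x f ≠ 0}.ncard =
          Nat.card (i.pts ((AffVar.mk n E).loc f)) := h2.symm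
      rw [h5] at h4
      have h6 : ((i.lset ((E, f) :: L)).ncard : ℚ) ≤
          (Nat.card (i.pts ((AffVar.mk n E).loc f)) : ℚ) + ((i.lset L).ncard : ℚ) := by
        exact_mod_cast h4
      exact h6.trans (add_le_add le_rfl h1)

variable {d : ℕ}

/-- transport of a list of pairs to the arc space -/
noncomputable def toArc {n : ℕ}
    (L : List (List (MvPolynomial (Fin (d * (n + 1))) k) × MvPolynomial (Fin (d * (n + 1))) k)) :
    List (List (MvPolynomial (Fin d × ℕ) k) × MvPolynomial (Fin d × ℕ) k) :=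
  L.map fun a => (a.1.map (MvPolynomial.rename (jetVar d n)), MvPolynomial.rename (jetVar d n) a.2)

theorem cyl_bound {Z : Set (ArcSpace k d)} {b : Mloc k} (hZ : IsCylinder Z b) (m : ℕ)
    (hb : b ∈ Filt k m) :
    ∃ (n : ℕ) (L : List (List (MvPolynomial (Fin (d * (n + 1))) k) ×
        MvPolynomial (Fin (d * (n + 1))) k))
      (K : ℚ), (∀ p : ArcSpace k d, p ∈ Z ↔ ∃ a ∈ toArc L, p ∈ locClosed a.1 a.2) ∧
      ∀ᶠ i in lF k, ((i.lset L).ncard : ℚ) * i.q ^ m ≤ K * i.q ^ (d * (n + 1)) := by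
  obtain ⟨n, C, c, hC, rfl, rfl⟩ := hZ
  obtain ⟨L, hL, g, hg, hcard⟩ := hC.exists_list
  obtain ⟨g', hg', K, hK⟩ := small_of_mem_filt hb
  refine ⟨n, L, K, ?_, ?_⟩
  · intro p
    rw [Set.mem_preimage, hL]
    constructor
    · rintro ⟨a, ha, h1, h2⟩
      refine ⟨_, List.mem_map_of_mem ha, ?_, h2⟩
      intro g hg
      obtain ⟨g0, hg0, rfl⟩ := List.mem_map.mp hg
      exact h1 g0 hg0
    · rintro ⟨a', ha', h1, h2⟩
      obtain ⟨a, ha, rfl⟩ := List.mem_map.mp ha'
      exact ⟨a, ha, fun g hg => h1 _ (List.mem_map_of_mem hg), h2⟩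
  · rw [map_mul, map_pow, Φ_algebraMap, hg, Φ_Linv] at hg'
    have h1 : ((fun i => g i * (i.q⁻¹) ^ (d * (n + 1)) : Idx k → ℚ) : Gm k) = (g' : Gm k) := hg'
    rw [Germ.coe_eq] at h1
    filter_upwards [hcard, hK, h1] with i e1 e2 e3
    rw [← e3] at e2
    have hq := i.q_pos
    have e4 : g i * (i.q⁻¹) ^ (d * (n + 1)) * i.q ^ m ≤ K :=
      (mul_le_mul_of_nonneg_right (le_abs_self _) (pow_nonneg hq.le _)).trans e2
    have e5 : g i * i.q ^ m ≤ K * i.q ^ (d * (n + 1)) := by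
      have h6 : 0 < i.q ^ (d * (n + 1)) := pow_pos hq _
      have h7 := mul_le_mul_of_nonneg_right e4 h6.le
      have h8 : (i.q⁻¹) ^ (d * (n + 1)) * i.q ^ (d * (n + 1)) = 1 := by
        rw [← mul_pow, inv_mul_cancel₀ hq.ne', one_pow]
      calc g i * i.q ^ m = g i * ((i.q⁻¹) ^ (d * (n + 1)) * i.q ^ (d * (n + 1))) * i.q ^ m := by
            rw [h8, mul_one]
        _ = g i * (i.q⁻¹) ^ (d * (n + 1)) * i.q ^ m * i.q ^ (d * (n + 1)) := by ring
        _ ≤ K * i.q ^ (d * (n + 1)) := h7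
    exact (mul_le_mul_of_nonneg_right e1 (pow_nonneg hq.le _)).trans e5

/-- the number of the coordinate `x_(j,s)` -/
def jn {N : ℕ} (j : Fin d) (s : Fin (N + 1)) : Fin (d * (N + 1)) := finProdFinEquiv (j, s)

theorem jetVar_jn {N : ℕ} (j : Fin d) (s : Fin (N + 1)) : jetVar d N (jn j s) = (j, s.1) := by
  rw [jetVar, jn, Equiv.symm_apply_apply]

/-- extension of a finite sequence by zero -/
def ext0 {F : Type u} [Zero F] {N : ℕ} (x : Fin (d * (N + 1)) → F) (m : Fin d × ℕ) : F :=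
  if h : m.2 < N + 1 then x (jn m.1 ⟨m.2, h⟩) else 0

theorem ext0_jn {F : Type u} [Zero F] {N : ℕ} (x : Fin (d * (N + 1)) → F) (j : Fin d)
    (s : Fin (N + 1)) : ext0 x (j, s.1) = x (jn j s) := by
  rw [ext0, dif_pos s.2]

theorem exists_jn {N : ℕ} (t : Fin (d * (N + 1))) : ∃ (j : Fin d) (s : Fin (N + 1)), t = jn j s :=
  ⟨(finProdFinEquiv.symm t).1, (finProdFinEquiv.symm t).2, by
    rw [jn]; exact (finProdFinEquiv.apply_symm_apply t).symm⟩

theorem ncard_preimage_le (i : Idx k) (n N : ℕ) (hn : n ≤ N)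
    (D : Set (Fin (d * (n + 1)) → i.F)) :
    {x : Fin (d * (N + 1)) → i.F |
      (fun t : Fin (d * (n + 1)) => ext0 x (jetVar d n t)) ∈ D}.ncard ≤
      D.ncard * Nat.card i.F ^ (d * (N - n)) := by
  have h1 : Nat.card (D × (Fin d × Fin (N - n) → i.F)) =
      D.ncard * Nat.card i.F ^ (d * (N - n)) := by
    rw [Nat.card_prod, Nat.card_fun, Nat.card_prod, Nat.card_fin, Nat.card_fin]
    rfl
  rw [← h1]
  apply Nat.card_le_card_of_injective
    (fun x : {x : Fin (d * (N + 1)) → i.F |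
        (fun t : Fin (d * (n + 1)) => ext0 x (jetVar d n t)) ∈ D} =>
      ((⟨_, x.2⟩ : D), fun s : Fin d × Fin (N - n) => ext0 x.1 (s.1, n + 1 + s.2)))
  intro x y hxy
  apply Subtype.ext
  funext t
  have h2 := congrArg (fun z => (z.1 : Fin (d * (n + 1)) → i.F)) hxy
  have h3 := congrArg Prod.snd hxy
  dsimp only at h2 h3
  obtain ⟨j, s, rfl⟩ := exists_jn t
  rw [← ext0_jn x.1 j s, ← ext0_jn y.1 j s]
  by_cases hlt : s.1 < n + 1
  · have h4 := congrFun h2 (jn j ⟨s.1, hlt⟩)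
    rwa [jetVar_jn] at h4
  · have h4 := congrFun h3 (j, ⟨s.1 - (n + 1), by have := s.2; omega⟩)
    dsimp only at h4
    rwa [show n + 1 + (s.1 - (n + 1)) = s.1 by omega] at h4

theorem le_ncard_zero (i : Idx k) (N : ℕ) :
    Nat.card i.F ^ (d * N) ≤ {x : Fin (d * (N + 1)) → i.F | ∀ j, x (jn j 0) = 0}.ncard := by
  have h1 : Nat.card (Fin d × Fin N → i.F) = Nat.card i.F ^ (d * N) := by
    rw [Nat.card_fun, Nat.card_prod, Nat.card_fin, Nat.card_fin]
  rw [← h1]
  let e : (Fin d × Fin N → i.F) → (Fin (d * (N + 1)) → i.F) := fun y t =>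
    (Fin.cons 0 (fun s => y ((finProdFinEquiv.symm t).1, s)) : Fin (N + 1) → i.F)
      (finProdFinEquiv.symm t).2
  have he : ∀ y j (s : Fin (N + 1)), e y (jn j s) =
      (Fin.cons 0 (fun s => y (j, s)) : Fin (N + 1) → i.F) s := by
    intro y j s
    simp only [e, jn, Equiv.symm_apply_apply]
  apply Nat.card_le_card_of_injective
    (fun y : Fin d × Fin N → i.F => (⟨e y, fun j => by rw [he]; rfl⟩ :
      {x : Fin (d * (N + 1)) → i.F | ∀ j, x (jn j 0) = 0}))
  intro y z hyz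
  have h2 : e y = e z := congrArg Subtype.val hyz
  funext ⟨j, s⟩
  have h3 := congrFun h2 (jn j s.succ)
  rwa [he, he, Fin.cons_succ, Fin.cons_succ] at h3

theorem isOpen_union (L : List (List (MvPolynomial (Fin d × ℕ) k) × MvPolynomial (Fin d × ℕ) k))
    (Z : Set (ArcSpace k d)) (hZ : ∀ p : ArcSpace k d, p ∈ Z ↔ ∃ a ∈ L, p ∈ locClosed a.1 a.2) :
    IsOpen[constructibleTopology (ArcSpace k d)] Z := by
  have : Z = ⋃ a ∈ {a | a ∈ L}, locClosed a.1 a.2 := by
    ext p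
    rw [hZ]
    simp
  rw [this]
  exact @isOpen_biUnion _ _ (constructibleTopology (ArcSpace k d)) _ _
    (fun a _ => isOpen_locClosed a.1 a.2)

/-- the arcs with special point at the origin -/
def orig (k : Type u) [Field k] (d : ℕ) : Set (ArcSpace k d) :=
  {p : ArcSpace k d | ∀ j, (MvPolynomial.X (j, 0) : MvPolynomial (Fin d × ℕ) k) ∈ p.asIdeal}

/-- The measure of the set of arcs with special point at the origin is not zero. -/
theorem measure_ne_zero [CharZero k] (a : Mhat k) (h : HasMeasure (orig k d) a) :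
    a ≠ toHat k 0 := by
  intro ha
  obtain ⟨Z, b, hZ, ⟨C, c, hC, hsub⟩, hab⟩ := h (d + 1)
  have hb : b ∈ Filt k (d + 1) := by
    rw [ha] at hab
    have h1 : ((b : Mloc k) : Mloc k ⧸ Filt k (d + 1)) = 0 := hab.symm
    exact (QuotientAddGroup.eq_zero_iff b).mp h1
  let U : Option ℕ → Set (ArcSpace k d) := fun j => j.elim Z C
  have hdata : ∀ j : Option ℕ, ∃ (n : ℕ)
      (L : List (List (MvPolynomial (Fin (d * (n + 1))) k) × MvPolynomial (Fin (d * (n + 1))) k))
      (K : ℚ), (∀ p : ArcSpace k d, p ∈ U j ↔ ∃ a ∈ toArc L, p ∈ locClosed a.1 a.2) ∧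
      ∀ᶠ i in lF k, ((i.lset L).ncard : ℚ) * i.q ^ (d + 1) ≤ K * i.q ^ (d * (n + 1)) := by
    rintro (_ | i)
    · exact cyl_bound hZ _ hb
    · exact cyl_bound (hC i).1 _ (hC i).2
  choose n L K hL hK using hdata
  obtain ⟨t, ht⟩ := exists_finite_cover (Y := orig k d) (isOpen_compl_zeros _) U
    (fun j => isOpen_union _ _ (hL j)) (by
      intro p hp
      by_cases hpZ : p ∈ Z
      · exact Set.mem_iUnion.mpr ⟨none, hpZ⟩
      · obtain ⟨j, hj⟩ := Set.mem_iUnion.mp (hsub (Or.inl ⟨hp, hpZ⟩))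
        exact Set.mem_iUnion.mpr ⟨some j, hj⟩)
  have hcov := eventually_cover (t.toList.flatMap fun j => toArc (L j))
    (List.ofFn fun j : Fin d => (MvPolynomial.X (j, 0) : MvPolynomial (Fin d × ℕ) k)) 1 (by
      rintro p ⟨hp, _⟩
      have hp0 : p ∈ orig k d := fun j => hp _ (by rw [List.mem_ofFn]; exact ⟨j, rfl⟩)
      obtain ⟨j, hj⟩ := Set.mem_iUnion.mp (ht hp0)
      obtain ⟨hjt, hj'⟩ := Set.mem_iUnion.mp hj
      obtain ⟨a, ha, hpa⟩ := (hL j p).mp hj'
      exact ⟨a, List.mem_flatMap.mpr ⟨j, Finset.mem_toList.mpr hjt, ha⟩, hpa⟩)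
  have hren : ∀ᶠ i in lF k, ∀ j ∈ t, ∀ a ∈ L j,
      (∀ g ∈ a.1, ∀ x : Fin d × ℕ → i.F, i.ev x (MvPolynomial.rename (jetVar d (n j)) g) =
        i.ev (fun t => x (jetVar d (n j) t)) g) ∧
      ∀ x : Fin d × ℕ → i.F, i.ev x (MvPolynomial.rename (jetVar d (n j)) a.2) =
        i.ev (fun t => x (jetVar d (n j) t)) a.2 := by
    rw [Finset.eventually_all]
    intro j _
    apply eventually_list
    intro a _
    exact (eventually_list a.1 fun g _ => eventually_ev_rename _ g).and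
      (eventually_ev_rename _ a.2)
  have hKall : ∀ᶠ i in lF k, ∀ j ∈ t,
      ((i.lset (L j)).ncard : ℚ) * i.q ^ (d + 1) ≤ K j * i.q ^ (d * (n j + 1)) := by
    rw [Finset.eventually_all]
    exact fun j _ => hK j
  have hbig := eventually_q_gt (k := k) ⌈∑ j ∈ t, K j⌉₊
  obtain ⟨i, ⟨⟨hcov, hren⟩, hKall⟩, hbig⟩ := (((hcov.and hren).and hKall).and hbig).exists
  let N := t.sup n
  have hnN : ∀ j ∈ t, n j ≤ N := fun j hj => Finset.le_sup hj
  let B : Option ℕ → Set (Fin (d * (N + 1)) → i.F) := fun j =>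
    {x | (fun s : Fin (d * (n j + 1)) => ext0 x (jetVar d (n j) s)) ∈ i.lset (L j)}
  have hAB : {x : Fin (d * (N + 1)) → i.F | ∀ j, x (jn j 0) = 0} ⊆ ⋃ j ∈ t, B j := by
    intro x hx
    have hx0 : ∀ j, x (jn j 0) = 0 := hx
    obtain ⟨a', ha', h1, h2⟩ := hcov (ext0 x) (by
      intro g hg
      rw [List.mem_ofFn] at hg
      obtain ⟨j, rfl⟩ := hg
      rw [Idx.ev_X]
      exact (ext0_jn x j 0).trans (hx0 j)) (by rw [Idx.ev_one]; exact one_ne_zero)
    obtain ⟨j, hjt, haj⟩ := List.mem_flatMap.mp ha'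
    obtain ⟨a, ha, rfl⟩ := List.mem_map.mp haj
    have hjt' := Finset.mem_toList.mp hjt
    obtain ⟨r1, r2⟩ := hren j hjt' a ha
    refine Set.mem_iUnion.mpr ⟨j, Set.mem_iUnion.mpr ⟨hjt', a, ha, ?_, ?_⟩⟩
    · intro g hg
      rw [← r1 g hg]
      exact h1 _ (List.mem_map_of_mem hg)
    · rw [← r2]
      exact h2
  have hq := i.q_pos
  have h1 : Nat.card i.F ^ (d * N) ≤
      ∑ j ∈ t, (i.lset (L j)).ncard * Nat.card i.F ^ (d * (N - n j)) := by
    calc Nat.card i.F ^ (d * N) ≤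
          {x : Fin (d * (N + 1)) → i.F | ∀ j, x (jn j 0) = 0}.ncard := le_ncard_zero i N
      _ ≤ (⋃ j ∈ t, B j).ncard := Set.ncard_le_ncard hAB (Set.toFinite _)
      _ ≤ ∑ j ∈ t, (B j).ncard := Finset.set_ncard_biUnion_le _ _
      _ ≤ ∑ j ∈ t, (i.lset (L j)).ncard * Nat.card i.F ^ (d * (N - n j)) :=
        Finset.sum_le_sum fun j hj => ncard_preimage_le i (n j) N (hnN j hj) _
  have h2 : i.q ^ (d * N) ≤ ∑ j ∈ t, ((i.lset (L j)).ncard : ℚ) * i.q ^ (d * (N - n j)) := by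
    rw [Idx.q]
    exact_mod_cast h1
  have h3 : i.q ^ (d * N) * i.q ^ (d + 1) ≤ (∑ j ∈ t, K j) * i.q ^ (d * (N + 1)) := by
    calc i.q ^ (d * N) * i.q ^ (d + 1) ≤
          (∑ j ∈ t, ((i.lset (L j)).ncard : ℚ) * i.q ^ (d * (N - n j))) * i.q ^ (d + 1) :=
          mul_le_mul_of_nonneg_right h2 (pow_nonneg hq.le _)
      _ = ∑ j ∈ t, (((i.lset (L j)).ncard : ℚ) * i.q ^ (d + 1)) * i.q ^ (d * (N - n j)) := by
          rw [Finset.sum_mul]
          exact Finset.sum_congr rfl fun j _ => by ring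
      _ ≤ ∑ j ∈ t, (K j * i.q ^ (d * (n j + 1))) * i.q ^ (d * (N - n j)) :=
          Finset.sum_le_sum fun j hj =>
            mul_le_mul_of_nonneg_right (hKall j hj) (pow_nonneg hq.le _)
      _ = (∑ j ∈ t, K j) * i.q ^ (d * (N + 1)) := by
          rw [Finset.sum_mul]
          refine Finset.sum_congr rfl fun j hj => ?_
          rw [mul_assoc, ← pow_add, ← Nat.mul_add]
          congr 3
          have := hnN j hj
          omega
  have h4 : i.q ≤ ∑ j ∈ t, K j := by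
    have h5 : 0 < i.q ^ (d * (N + 1)) := pow_pos hq _
    have h6 : i.q * i.q ^ (d * (N + 1)) ≤ (∑ j ∈ t, K j) * i.q ^ (d * (N + 1)) := by
      calc i.q * i.q ^ (d * (N + 1)) = i.q ^ (d * N) * i.q ^ (d + 1) := by ring
        _ ≤ _ := h3
    exact le_of_mul_le_mul_right h6 h5
  have h7 : (∑ j ∈ t, K j) ≤ (⌈∑ j ∈ t, K j⌉₊ : ℚ) := Nat.le_ceil _
  exact absurd (h4.trans h7) (not_le.mpr hbig)

theorem isCylinder_empty : IsCylinder (∅ : Set (ArcSpace k d)) 0 :=
  ⟨0, ∅, 0, HasClass.empty, by simp, by simp⟩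

/-- The set of arcs with special point at the origin is measurable. -/
theorem hasMeasure_zero : ∃ a, HasMeasure (orig k d) a := by
  let E : List (MvPolynomial (Fin (d * (0 + 1))) k) :=
    List.ofFn fun j : Fin d => MvPolynomial.X (jn j 0)
  let C : Set (PrimeSpectrum (MvPolynomial (Fin (d * (0 + 1))) k)) := locClosed E 1 ∪ ∅
  have hC := HasClass.union E 1 ∅ 0 HasClass.empty (Set.disjoint_empty _)
  have hX : ∀ j : Fin d, (MvPolynomial.rename (jetVar d 0) (MvPolynomial.X (jn j 0)) :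
      MvPolynomial (Fin d × ℕ) k) = MvPolynomial.X (j, 0) := by
    intro j
    rw [MvPolynomial.rename_X, jetVar_jn]
    rfl
  have hA : orig k d = truncation d 0 ⁻¹' C := by
    ext p
    constructor
    · intro hp
      left
      refine ⟨?_, ?_⟩
      · intro g hg
        rw [List.mem_ofFn] at hg
        obtain ⟨j, rfl⟩ := hg
        show MvPolynomial.rename (jetVar d 0) (MvPolynomial.X (jn j 0)) ∈ p.asIdeal
        rw [hX]
        exact hp j
      · intro h1
        have h2 : (MvPolynomial.rename (jetVar d 0) (1 : MvPolynomial (Fin (d * (0 + 1))) k) :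
          MvPolynomial (Fin d × ℕ) k) ∈ p.asIdeal := h1
        rw [map_one] at h2
        exact p.2.ne_top ((Ideal.eq_top_iff_one _).mpr h2)
    · rintro (⟨h1, _⟩ | h1)
      · intro j
        have h2 : (MvPolynomial.rename (jetVar d 0)
          (MvPolynomial.X (jn j 0) : MvPolynomial (Fin (d * (0 + 1))) k) :
          MvPolynomial (Fin d × ℕ) k) ∈ p.asIdeal := h1 _ (by rw [List.mem_ofFn]; exact ⟨j, rfl⟩)
        rw [hX] at h2
        exact h2
      · exact absurd h1 (Set.notMem_empty _)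
  refine ⟨toHat k (algebraMap (K0 k) (Mloc k) _ * Linv k ^ (d * (0 + 1))), fun m =>
    ⟨_, _, ⟨0, C, _, hC, hA, rfl⟩, ⟨fun _ => ∅, fun _ => 0, fun _ => ⟨isCylinder_empty,
      (Filt k m).zero_mem⟩, ?_⟩, rfl⟩⟩
  rw [symmDiff_self]
  exact bot_le

end Pool.Agent.Hhelper17.Lift
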