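import Mathlib
import Pool.Agent.Hhelper17.Lift.Triv

set_option linter.all false

namespace Pool.Agent.Hhelper17.Lift

open scoped TensorProduct

universe u

section

variable {k : Type u} [CommRing k] {R : CAlg k} (ξ : Obj (mat23 k) R)

/-- the matrix of an object, over its torsor -/
noncomputable def Obj.mat : Matrix (Fin 2) (Fin 3) ξ.T.P := matOf (S := R.res ξ.T.P) ξ.φ

variable {S : CAlg R}

theorem Obj.map_act (p : ξ.T.P.Hom S) (g : (SL2 k).obj (R.res S)) :
    ξ.mat.map (ξ.T.act S p g) = SL2.mat g⁻¹ * ξ.mat.map p := by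
  have h := congrArg matOf (ξ.equivariant S p g)
  rw [matOf_act, matOf_comp, matOf_comp] at h
  exact h

theorem Obj.pl_map_pt {d : Fin 3 → R} (hd : ∀ j, pl ξ.mat j = algebraMap R ξ.T.P (d j))
    (p : ξ.T.P.Hom S) (j : Fin 3) : pl (ξ.mat.map p) j = algebraMap R S (d j) := by
  have := pl_map p.toRingHom ξ.mat j
  rw [hd] at this
  exact this.trans (p.commutes (d j))

theorem Obj.pt_unique {d : Fin 3 → R} {j : Fin 3} (hu : IsUnit (d j))
    (hd : ∀ j, pl ξ.mat j = algebraMap R ξ.T.P (d j))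
    (p q : ξ.T.P.Hom S) (h : ξ.mat.map p = ξ.mat.map q) : p = q := by
  have h1 : ξ.mat.map q = SL2.mat (ξ.T.diff p q)⁻¹ * ξ.mat.map p := by
    rw [← ξ.map_act, ξ.T.act_diff]
  rw [← h] at h1
  have h2 : SL2.mat (ξ.T.diff p q)⁻¹ = 1 :=
    eq_one_of_mul_eq (j := j) (by rw [ξ.pl_map_pt hd p]; exact hu.map _) h1
  have h4 : (ξ.T.diff p q)⁻¹ = 1 := SL2.ext h2
  have h3 := ξ.T.act_diff p q
  rw [inv_eq_one.mp h4, ξ.T.act_one] at h3
  exact h3

theorem Obj.pt_exists {d : Fin 3 → R} {j : Fin 3} (hu : IsUnit (d j))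
    (hd : ∀ j, pl ξ.mat j = algebraMap R ξ.T.P (d j))
    (N : Matrix (Fin 2) (Fin 3) S) (hN : ∀ j, pl N j = algebraMap R S (d j)) :
    ∃ p : ξ.T.P.Hom S, ξ.mat.map p = N := by
  let SP : CAlg R := ξ.T.SP S
  let N' : Matrix (Fin 2) (Fin 3) SP := N.map (ξ.T.inS S)
  have hN' : ∀ j, pl N' j = algebraMap R SP (d j) := by
    intro j
    have := pl_map (ξ.T.inS S).toRingHom N j
    rw [hN] at this
    exact this.trans ((ξ.T.inS S).commutes (d j))
  obtain ⟨g0, hdet, hg0⟩ := exists_of_pl_eq (ξ.mat.map (ξ.T.inP S)) N' (j := j)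
    (fun l => by rw [hN' l]; exact ξ.pl_map_pt hd (ξ.T.inP S) l)
    (by
      have := ξ.pl_map_pt hd (ξ.T.inP S) j
      rw [this]; exact hu.map _)
  let g : (SL2 k).obj (R.res SP) := SL2.mk (S := R.res SP) g0 hdet
  let q := ξ.T.act _ (ξ.T.inP S) g
  have hq : ξ.mat.map q = N' := by
    rw [ξ.map_act, hg0, ← Matrix.mul_assoc]
    have e : SL2.mat g⁻¹ * g0 = 1 := SL2.mat_inv_mul g
    rw [e, Matrix.one_mul]
  obtain ⟨q0, hq0⟩ := ξ.T.exists_of_descent q (by
    intro U j1 j2 h12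
    apply ξ.pt_unique hu hd
    have e1 : ξ.mat.map (CAlg.comp j1 q) = N'.map j1 := by rw [← hq]; rfl
    have e2 : ξ.mat.map (CAlg.comp j2 q) = N'.map j2 := by rw [← hq]; rfl
    rw [e1, e2]
    ext a b
    exact DFunLike.congr_fun h12 (N a b))
  refine ⟨q0, ?_⟩
  have hinj : Function.Injective (algebraMap S (S ⊗[R] ξ.T.P)) :=
    FaithfulSMul.algebraMap_injective S (S ⊗[R] ξ.T.P)
  ext a b
  apply hinj
  have h4 := DFunLike.congr_fun hq0 (ξ.mat a b)
  have h5 := congrFun (congrFun hq a) b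
  exact h4.trans h5

end

section

variable {k : Type u} [CommRing k] {R : CAlg k}

/-- Two objects over the same point with a unit coordinate are uniquely isomorphic. -/
theorem iso_unique {d : Fin 3 → R} {j : Fin 3} (hu : IsUnit (d j)) (ξ η : Obj (mat23 k) R)
    (hξ : ∀ j, pl ξ.mat j = algebraMap R ξ.T.P (d j))
    (hη : ∀ j, pl η.mat j = algebraMap R η.T.P (d j)) :
    Nonempty (Unique (ObjIso ξ η)) := by
  obtain ⟨e, he⟩ := ξ.pt_exists hu hξ η.mat hη
  obtain ⟨f, hf⟩ := η.pt_exists hu hη ξ.mat hξ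
  have hfe : CAlg.comp f e = AlgHom.id R _ := by
    apply ξ.pt_unique hu hξ
    have : ξ.mat.map (CAlg.comp f e) = (ξ.mat.map e).map f := rfl
    rw [this, he, hf]; rfl
  have hef : CAlg.comp e f = AlgHom.id R _ := by
    apply η.pt_unique hu hη
    have : η.mat.map (CAlg.comp e f) = (η.mat.map f).map e := rfl
    rw [this, hf, he]; rfl
  have hb : Function.Bijective e := by
    refine Function.bijective_iff_has_inverse.mpr ⟨f, ?_, ?_⟩
    · exact fun x => DFunLike.congr_fun hfe x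
    · exact fun x => DFunLike.congr_fun hef x
  refine ⟨⟨⟨⟨e, hb, ?_, ?_⟩⟩, ?_⟩⟩
  · intro S p g
    apply ξ.pt_unique hu hξ
    rw [ξ.map_act]
    have e1 : ξ.mat.map (CAlg.comp (η.T.act S p g) e) = η.mat.map (η.T.act S p g) := by rw [← he]; rfl
    have e2 : ξ.mat.map (CAlg.comp p e) = η.mat.map p := by rw [← he]; rfl
    rw [e1, e2, η.map_act]
  · apply matOf_inj
    exact he
  · rintro ⟨e', hb', h1, h2⟩
    have : e' = e := by
      apply ξ.pt_unique hu hξ
      rw [he]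
      exact congrArg matOf h2
    subst this
    rfl

end

/-- `[Mat₂ₓ₃ / SL₂] → A³` is an isomorphism over `A³ ∖ 0`. -/
theorem mat23_isIsoOver (k : Type u) [Field k] (j : Fin 3) :
    IsIsoOver (mat23 k) (plMap k) (Poly.T k j) := by
  intro R β hβ
  obtain ⟨e, he⟩ := hβ.exists_right_inv
  refine ⟨⟨objOf (nf j (fun l => β (Poly.T k l)) e), objOf_liesOver _ β (pl_nf j _ e he)⟩, ?_⟩
  intro ξ η h1 h2
  exact iso_unique (d := fun l => β (Poly.T k l)) hβ ξ η ((liesOver_iff ξ β).mp h1)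
    ((liesOver_iff η β).mp h2)

/-- Objects given by matrices are isomorphic only if the matrices differ by left multiplication. -/
theorem objOf_iso {k : Type u} [Field k] {R : CAlg k}
    (M N : Matrix (Fin 2) (Fin 3) R) (h : Nonempty (ObjIso (objOf (k := k) M) (objOf (k := k) N))) :
    ∃ g : Matrix (Fin 2) (Fin 2) R, N = g * M := by
  obtain ⟨⟨e, hb, h1, h2⟩⟩ := h
  let R' : CAlg R := ⟨R⟩
  let p0 : (PT R).Hom R' := ofPt (S := R') 1
  have e1 : (umat N).map p0 = N := by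
    rw [umat_map, ptSL_ofPt, inv_one, SL2.mat_one, Matrix.one_mul]
    ext a b; rfl
  let e' : (PT R).Hom (PT R) := e
  let p1 : (PT R).Hom R' := CAlg.comp p0 e'
  have h3 : (umat M).map e' = umat N := by
    have h4 := congrArg matOf h2
    rw [matOf_comp] at h4
    have h5 := matOf_objOf (k := k) M
    have h6 := matOf_objOf (k := k) N
    rw [← h5, ← h6]
    exact h4
  have e2 : (umat M).map p1 = N := by
    rw [← e1, ← h3]
    rfl
  rw [umat_map] at e2
  exact ⟨SL2.mat (k := k) (ptSL p1)⁻¹, e2.symm⟩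

end Pool.Agent.Hhelper17.Lift
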