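import Mathlib
import Pool.Agent.Hhelper17.Lift.Iso

set_option linter.all false

namespace Pool.Agent.Hhelper17.Lift

open scoped TensorProduct

universe u

variable {k : Type u} [Field k]

theorem residue_eq_zero {R : Type u} [CommRing R] (p : PrimeSpectrum R) (f : R) :
    residue p f = 0 ↔ f ∈ p.asIdeal := Ideal.algebraMap_residueField_eq_zero

theorem arc_T {d : ℕ} (p : ArcSpace k d) (j : Fin d) : p.arc (Poly.T k j) =
    (PowerSeries.mk fun n => residue p (MvPolynomial.X (j, n)) : PowerSeries (Residue p)) :=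
  MvPolynomial.aeval_X _ _

/-- the constant coefficient -/
noncomputable def cc {d : ℕ} (p : ArcSpace k d) : p.series →+* Residue p :=
  (PowerSeries.constantCoeff : PowerSeries (Residue p) →+* Residue p)

theorem cc_arc {d : ℕ} (p : ArcSpace k d) (j : Fin d) :
    cc p (p.arc (Poly.T k j)) = residue p (MvPolynomial.X (j, 0)) := by
  rw [arc_T]
  show PowerSeries.constantCoeff (PowerSeries.mk fun n => residue p (MvPolynomial.X (j, n))) = _
  rw [← PowerSeries.coeff_zero_eq_constantCoeff_apply, PowerSeries.coeff_mk]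

theorem isUnit_series {d : ℕ} (p : ArcSpace k d) (f : p.series) : IsUnit f ↔ cc p f ≠ 0 := by
  have := PowerSeries.isUnit_iff_constantCoeff (R := Residue p) (φ := f)
  rw [isUnit_iff_ne_zero] at this
  exact this

theorem sep_of_notMem (p : ArcSpace k 3) (j : Fin 3)
    (h : (MvPolynomial.X (j, 0) : MvPolynomial (Fin 3 × ℕ) k) ∉ p.asIdeal) :
    sep (mat23 k) (plMap k) p = 1 := by
  have hu : IsUnit (p.arc (Poly.T k j)) := by
    rw [isUnit_series, cc_arc]
    intro h0
    exact h ((residue_eq_zero _ _).mp h0)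
  obtain ⟨⟨ξ, hξ⟩, huniq⟩ := mat23_isIsoOver k j p.series p.arc hu
  unfold sep
  rw [Nat.card_eq_one_iff_unique]
  constructor
  · constructor
    intro a b
    induction a using Quotient.inductionOn with
    | h a =>
      induction b using Quotient.inductionOn with
      | h b =>
        apply Quotient.sound
        obtain ⟨hU⟩ := huniq a.1 b.1 a.2 b.2
        exact ⟨hU.default⟩
  · exact ⟨Quotient.mk _ ⟨ξ, hξ⟩⟩

theorem exists_min_dvd {V : Type u} [CommRing V] [IsDomain V] [ValuationRing V] (f : Fin 3 → V) :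
    ∃ j, ∀ l, f j ∣ f l := by
  have h01 := ValuationRing.dvd_total (f 0) (f 1)
  have h02 := ValuationRing.dvd_total (f 0) (f 2)
  have h12 := ValuationRing.dvd_total (f 1) (f 2)
  have key : ∀ l : Fin 3, l = 0 ∨ l = 1 ∨ l = 2 := by decide
  rcases h01 with h01 | h01
  · rcases h02 with h02 | h02
    · refine ⟨0, fun l => ?_⟩
      rcases key l with rfl | rfl | rfl
      exacts [dvd_rfl, h01, h02]
    · refine ⟨2, fun l => ?_⟩
      rcases key l with rfl | rfl | rfl
      exacts [h02, h02.trans h01, dvd_rfl]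
  · rcases h12 with h12 | h12
    · refine ⟨1, fun l => ?_⟩
      rcases key l with rfl | rfl | rfl
      exacts [h01, dvd_rfl, h12]
    · refine ⟨2, fun l => ?_⟩
      rcases key l with rfl | rfl | rfl
      exacts [h12.trans h01, h12, dvd_rfl]

theorem sep_of_mem [Infinite k] (p : ArcSpace k 3)
    (h : ∀ j, (MvPolynomial.X (j, 0) : MvPolynomial (Fin 3 × ℕ) k) ∈ p.asIdeal) :
    sep (mat23 k) (plMap k) p = 0 := by
  have h0 : ∀ j, cc p (p.arc (Poly.T k j)) = 0 := by
    intro j
    rw [cc_arc]
    exact (residue_eq_zero _ _).mpr (h j)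
  obtain ⟨j, hj⟩ := exists_min_dvd (V := PowerSeries (Residue p)) (fun j => p.arc (Poly.T k j))
  -- the arc is `t ↦ f_j · d` with `d_j = 1`
  have hd : ∃ d : Fin 3 → p.series, d j = 1 ∧ ∀ l, p.arc (Poly.T k l) =
      p.arc (Poly.T k j) * d l := by
    choose d hd using hj
    refine ⟨fun l => if l = j then 1 else d l, by simp, ?_⟩
    intro l
    by_cases hl : l = j
    · subst hl; simp
    · simp only [if_neg hl]; exact hd l
  obtain ⟨d, hd1, hd⟩ := hd
  set f : p.series := p.arc (Poly.T k j) with hf
  let N : k → Matrix (Fin 2) (Fin 2) p.series := fun c => !![f, 0; algebraMap k _ c, 1]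
  let M : k → Matrix (Fin 2) (Fin 3) p.series := fun c => N c * nf j d 1
  have hpl : ∀ c l, pl (M c) l = p.arc (Poly.T k l) := by
    intro c l
    rw [pl_mul, pl_nf j d 1 (by rw [hd1, mul_one]), Matrix.det_fin_two_of, hd l]
    ring
  let F : k → FibreSet (mat23 k) (plMap k) p.arc := fun c =>
    Quotient.mk _ ⟨objOf (k := k) (M c), objOf_liesOver _ _ (hpl c)⟩
  have hF : Function.Injective F := by
    intro c c' hcd
    have h1 := Quotient.exact hcd
    obtain ⟨g, hg⟩ := objOf_iso _ _ h1
    have hg' := congrArg (fun N => blk N j) hg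
    simp only [M, blk_mul, blk_nf, hd1] at hg'
    have e1 := congrFun (congrFun hg' 1) 1
    have e2 := congrFun (congrFun hg' 1) 0
    simp [N, Matrix.mul_apply, Fin.sum_univ_two] at e1 e2
    rw [← e1, Algebra.smul_def, mul_one] at e2
    have e3 := congrArg (cc p) e2
    rw [map_add, map_mul, h0, mul_zero, zero_add] at e3
    have e4 : ∀ c : k, cc p (algebraMap k p.series c) = algebraMap k (Residue p) c := by
      intro c
      show PowerSeries.constantCoeff (algebraMap k (PowerSeries (Residue p)) c) = _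
      rw [PowerSeries.algebraMap_apply, PowerSeries.constantCoeff_C]
    rw [e4, e4] at e3
    exact (algebraMap k (Residue p)).injective e3.symm
  have : Infinite (FibreSet (mat23 k) (plMap k) p.arc) := Infinite.of_injective F hF
  unfold sep
  exact Nat.card_eq_zero_of_infinite

theorem sep_eq_zero_iff [Infinite k] (p : ArcSpace k 3) :
    sep (mat23 k) (plMap k) p = 0 ↔
      ∀ j, (MvPolynomial.X (j, 0) : MvPolynomial (Fin 3 × ℕ) k) ∈ p.asIdeal := by
  constructor
  · intro h
    by_contra h1
    push Not at h1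
    obtain ⟨j, hj⟩ := h1
    rw [sep_of_notMem p j hj] at h
    exact one_ne_zero h
  · exact sep_of_mem p

end Pool.Agent.Hhelper17.Lift
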